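import Pool.Agent.H730R3.HC.Defs

set_option autoImplicit false

namespace H730HC

open Finset
open scoped ComplexConjugate

universe u v

section
variable {A : Type u} {N : Type u}

/-- commuting with the image of `π` -/
def IsCom [Mul N] (π : A → N) (z : N) : Prop := ∀ a : A, π a * z = z * π a

open Classical in
/-- the trace-preserving projection onto the relative commutant -/
noncomputable def Ec [CStarAlgebra N] (π : A → N) (τ : N →ₗ[ℂ] ℂ) (x : N) : N :=
  if h : ∃ z : N, IsCom π z ∧ ∀ c : N, IsCom π c → τ (z * c) = τ (x * c) then h.choose else 0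

/-- `x - Ec x` -/
noncomputable def pc [CStarAlgebra N] (π : A → N) (τ : N →ₗ[ℂ] ℂ) (x : N) : N := x - Ec π τ x

/-- faces of `N`-valued cochains -/
def fc [Mul A] [Mul N] (π : A → N) (m i : ℕ) (f : (ℕ → A) → N) : (ℕ → A) → N :=
  fun a => if i = 0 then π (a 0) * f (shift a) else if i ≤ m then f (mu (i - 1) a) else f a * π (a m)

/-- coboundary -/
noncomputable def dc [Mul A] [Ring N] [Algebra ℂ N] (π : A → N) (m : ℕ) (f : (ℕ → A) → N) :
    (ℕ → A) → N :=
  fun a => ∑ i ∈ range (m + 2), ((-1 : ℂ) ^ i) • fc π m i f a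

/-- sums of faces -/
def SumC [NormedRing A] [NormedAlgebra ℂ A] [NormedRing N] [NormedAlgebra ℂ N] (π : A → N)
    (m k : ℕ) (T : (ℕ → A) → N) : Prop :=
  ∃ h : ℕ → (ℕ → A) → N, (∀ i, IsB m (h i)) ∧ ∀ a, T a = ∑ i ∈ Ico k (m + 2), fc π m i (h i) a

/-- `s_0 F(t_k a_k s_{k+1}) t_n` -/
def cjc [Mul A] [Mul N] (π : A → N) (n : ℕ) (s t : ℕ → A) (F : (ℕ → A) → N) (a : ℕ → A) : N :=
  π (s 0) * F (fun k => t k * a k * s (k + 1)) * π (t n)

/-- prism operator -/
noncomputable def Prc [Mul A] [Ring N] [Algebra ℂ N] (π : A → N) (n : ℕ) (s t : ℕ → A)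
    (F : (ℕ → A) → N) (a : ℕ → A) : N :=
  ∑ m ∈ range n, ((-1 : ℂ) ^ m) •
    (F (fun k => if k < m then a k else if k = m then s m else t (k - 1) * a (k - 1) * s k)
      * π (t (n - 1)))

/-- amplification, general target -/
def ampc [AddCommMonoid A] [AddCommMonoid N] {J : ℕ} : ℕ → Fin J → Fin J → ((ℕ → A) → N) →
    (ℕ → Fin J → Fin J → A) → N
  | 0, k, l, T, _ => if k = l then T (fun _ => 0) else 0
  | n + 1, k, l, T, X => ∑ j, ampc n j l (fun a => T (cons (X 0 k j) a)) (fun i => X (i + 1))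

/-- amplification with values in matrices -/
noncomputable def ampMc [AddCommMonoid A] [AddCommMonoid N] {J : ℕ} (n : ℕ) (T : (ℕ → A) → N) :
    (ℕ → CStarMatrix (Fin J) (Fin J) A) → CStarMatrix (Fin J) (Fin J) N :=
  fun X => CStarMatrix.ofMatrix (Matrix.of fun k l => ampc n k l T (fun i p q => X i p q))

/-- entrywise map -/
noncomputable def piM [CStarAlgebra A] [CStarAlgebra N] (J : ℕ) (π : A →⋆ₐ[ℂ] N) :
    CStarMatrix (Fin J) (Fin J) A →⋆ₐ[ℂ] CStarMatrix (Fin J) (Fin J) N where
  toFun x := CStarMatrix.ofMatrix (Matrix.of fun k l => π (x k l))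
  map_one' := by
    ext k l
    by_cases h : k = l
    · subst h; simp [CStarMatrix.ofMatrix_apply]
    · simp [CStarMatrix.ofMatrix_apply, h]
  map_mul' x y := by
    ext k l
    simp [CStarMatrix.ofMatrix_apply, CStarMatrix.mul_apply]
  map_zero' := by
    ext k l
    simp [CStarMatrix.ofMatrix_apply]
  map_add' x y := by
    ext k l
    simp [CStarMatrix.ofMatrix_apply]
  commutes' c := by
    ext k l
    by_cases h : k = l
    · subst h; simp [CStarMatrix.ofMatrix_apply, CStarMatrix.algebraMap_apply, AlgHomClass.commutes]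
    · simp [CStarMatrix.ofMatrix_apply, CStarMatrix.algebraMap_apply, h]
  map_star' x := by
    ext k l
    simp [CStarMatrix.ofMatrix_apply, CStarMatrix.star_apply, map_star]

end

end H730HC
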