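import Pool.Agent.H730R3.HB.Defs
import Pool.Agent.H730R3.HB.Q05
import Pool.Agent.H730R3.HC.Final

set_option autoImplicit false

namespace H730HC

open Finset
open scoped ComplexConjugate

universe u v

variable {A : Type u} [CStarAlgebra A] {N : Type u} [CStarAlgebra N] (π : A →⋆ₐ[ℂ] N) {τ : N →ₗ[ℂ] ℂ}



theorem Q06_add {z w : N} (hz : IsCom π z) (hw : IsCom π w) : IsCom π (z + w) := fun y => by
  rw [add_mul, mul_add, hz y, hw y]

theorem Q06_subc {z w : N} (hz : IsCom π z) (hw : IsCom π w) : IsCom π (z - w) := fun y => by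
  rw [sub_mul, mul_sub, hz y, hw y]

theorem Q06_smul (c : ℂ) {z : N} (hz : IsCom π z) : IsCom π (c • z) := fun y => by
  rw [smul_mul_assoc, mul_smul_comm, hz y]

theorem Q06_mul {z w : N} (hz : IsCom π z) (hw : IsCom π w) : IsCom π (z * w) := fun y => by
  rw [← mul_assoc, hz y, mul_assoc, hw y, mul_assoc]

theorem Q06_star {z : N} (hz : IsCom π z) : IsCom π (star z) := fun y => by
  have h := congrArg star (hz (star y))
  rw [star_mul, star_mul, map_star, star_star] at h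
  exact h.symm

theorem Ec_unique (hτ : IsTracial N τ) {x z : N} (hz : IsCom π z)
    (h : ∀ c, IsCom π c → τ (z * c) = τ (x * c)) : Ec π τ x = z := by
  obtain ⟨h1, h2, -⟩ := Ec_spec π hτ x
  have hd : IsCom π (Ec π τ x - z) := Q06_subc π h1 hz
  have hs : IsCom π (star (Ec π τ x - z)) := Q06_star π hd
  have h0 : τ ((Ec π τ x - z) * star (Ec π τ x - z)) = 0 := by
    rw [sub_mul, map_sub, h2 _ hs, h _ hs, sub_self]
  have h3 : (τ (star (Ec π τ x - z) * (Ec π τ x - z))).re = 0 := by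
    rw [hτ.comm, h0, Complex.zero_re]
  exact sub_eq_zero.mp (hτ.faithful _ h3)

theorem Ec_add (hτ : IsTracial N τ) (x y : N) : Ec π τ (x + y) = Ec π τ x + Ec π τ y := by
  obtain ⟨h1, h2, -⟩ := Ec_spec π hτ x
  obtain ⟨h3, h4, -⟩ := Ec_spec π hτ y
  refine Ec_unique π hτ (Q06_add π h1 h3) fun c hc => ?_
  rw [add_mul, map_add, h2 c hc, h4 c hc, add_mul, map_add]

theorem Ec_smul (hτ : IsTracial N τ) (c : ℂ) (x : N) : Ec π τ (c • x) = c • Ec π τ x := by
  obtain ⟨h1, h2, -⟩ := Ec_spec π hτ x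
  refine Ec_unique π hτ (Q06_smul π c h1) fun d hd => ?_
  rw [smul_mul_assoc, map_smul, h2 d hd, smul_mul_assoc, map_smul]

theorem Ec_com (hτ : IsTracial N τ) {z : N} (hz : IsCom π z) : Ec π τ z = z :=
  Ec_unique π hτ hz fun _ _ => rfl

theorem Ec_star (hτ : IsTracial N τ) (x : N) : Ec π τ (star x) = star (Ec π τ x) := by
  obtain ⟨h1, h2, -⟩ := Ec_spec π hτ x
  refine Ec_unique π hτ (Q06_star π h1) fun c hc => ?_
  have hs := Q06_star π hc
  have e1 : star (Ec π τ x) * c = star (star c * Ec π τ x) := by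
    rw [star_mul, star_star]
  have e2 : c * star x = star (x * star c) := by
    rw [star_mul, star_star]
  rw [e1, tau_star hτ, hτ.comm (star c) (Ec π τ x), h2 _ hs, ← tau_star hτ, ← e2, hτ.comm]

theorem Q06_Ec_sub (hτ : IsTracial N τ) (x y : N) : Ec π τ (x - y) = Ec π τ x - Ec π τ y := by
  obtain ⟨h1, h2, -⟩ := Ec_spec π hτ x
  obtain ⟨h3, h4, -⟩ := Ec_spec π hτ y
  refine Ec_unique π hτ (Q06_subc π h1 h3) fun c hc => ?_
  rw [sub_mul, map_sub, h2 c hc, h4 c hc, sub_mul, map_sub]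

theorem Ec_perp (hτ : IsTracial N τ) (x : N) : Ec π τ (pc π τ x) = 0 := by
  unfold pc
  rw [Q06_Ec_sub π hτ, Ec_com π hτ (Ec_spec π hτ x).1, sub_self]

theorem Q06_tau (hτ : IsTracial N τ) (x : N) {z : N} (hz : IsCom π z) :
    τ (z * pc π τ x) = 0 := by
  have h := (Ec_spec π hτ (pc π τ x)).2.1 z hz
  rw [Ec_perp π hτ, zero_mul, map_zero] at h
  rw [hτ.comm, ← h]

theorem re_pc (hτ : IsTracial N τ) (x : N) : (τ (star x * pc π τ x)).re = sq τ (pc π τ x) := by
  have h1 : star x = star (pc π τ x) + star (Ec π τ x) := by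
    unfold pc
    rw [← star_add, sub_add_cancel]
  have h2 := Q06_tau π hτ x (Q06_star π (Ec_spec π hτ x).1)
  unfold sq
  conv_lhs => rw [h1]
  rw [add_mul, map_add, h2, add_zero]

theorem sq_pc_le (hτ : IsTracial N τ) (x : N) : sq τ (pc π τ x) ≤ sq τ x := by
  have h1 := sq_sub hτ x (pc π τ x)
  rw [re_pc π hτ] at h1
  have h2 := sq_nonneg' hτ (x - pc π τ x)
  linarith

theorem pc_add (hτ : IsTracial N τ) (x y : N) : pc π τ (x + y) = pc π τ x + pc π τ y := by
  unfold pc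
  rw [Ec_add π hτ]
  abel

end H730HC
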