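import Pool.Agent.H730R3.HB.Defs
import Pool.Agent.H730R3.HB.Q05
import Pool.Agent.H730R3.HC.Final

set_option autoImplicit false

namespace H730HC

open Finset
open scoped ComplexConjugate

universe u v

variable {A : Type u} [CStarAlgebra A] {N : Type u} [CStarAlgebra N] (π : A →⋆ₐ[ℂ] N) {τ : N →ₗ[ℂ] ℂ}



/-! ### averages -/

theorem Q34_u1 (v : unitary A) : star (π (v : A)) * π (v : A) = 1 := by
  rw [← map_star, ← map_mul, Unitary.star_mul_self_of_mem v.2, map_one]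

theorem Q34_u2 (v : unitary A) : π (v : A) * star (π (v : A)) = 1 := by
  rw [← map_star, ← map_mul, Unitary.mul_star_self_of_mem v.2, map_one]

theorem Q34_um (v : unitary A) : π (v : A) ∈ unitary N :=
  Unitary.mem_iff.2 ⟨Q34_u1 π v, Q34_u2 π v⟩

/-- averages of inner automorphisms -/
def Q34Av : Set (N → N) :=
  convexHull ℝ (Set.range fun (v : unitary A) (x : N) => π (v : A) * x * star (π (v : A)))

theorem Q34_ind (P : (N → N) → Prop) (hP : Convex ℝ {Φ | P Φ})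
    (h : ∀ v : unitary A, P (fun x => π (v : A) * x * star (π (v : A)))) {Φ : N → N}
    (hΦ : Φ ∈ Q34Av π) : P Φ := by
  have : Q34Av π ⊆ {Φ | P Φ} := by
    apply convexHull_min _ hP
    rintro _ ⟨v, rfl⟩
    exact h v
  exact this hΦ

theorem Q34_Ad (v : unitary A) : (fun x : N => π (v : A) * x * star (π (v : A))) ∈ Q34Av π :=
  subset_convexHull _ _ ⟨v, rfl⟩

theorem Q34_AdComp (v : unitary A) {Φ : N → N} (hΦ : Φ ∈ Q34Av π) :
    (fun x => π (v : A) * Φ x * star (π (v : A))) ∈ Q34Av π := by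
  refine Q34_ind π (fun Φ => (fun x => π (v : A) * Φ x * star (π (v : A))) ∈ Q34Av π) ?_ ?_ hΦ
  · intro a ha b hb p q hp hq hpq
    have h := convex_convexHull ℝ
      (Set.range fun (v : unitary A) (x : N) => π (v : A) * x * star (π (v : A))) ha hb hp hq hpq
    have e : (fun x => π (v : A) * (p • a + q • b) x * star (π (v : A))) =
        p • (fun x => π (v : A) * a x * star (π (v : A))) +
          q • (fun x => π (v : A) * b x * star (π (v : A))) := by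
      funext x
      simp only [Pi.add_apply, Pi.smul_apply, mul_add, add_mul, mul_smul_comm, smul_mul_assoc]
    show (fun x => π (v : A) * (p • a + q • b) x * star (π (v : A))) ∈ Q34Av π
    rw [e]
    exact h
  · intro w
    have e : (fun x => π (v : A) * (π (w : A) * x * star (π (w : A))) * star (π (v : A))) =
        fun x => π ((v * w : unitary A) : A) * x * star (π ((v * w : unitary A) : A)) := by
      funext x
      rw [Submonoid.coe_mul, map_mul, star_mul]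
      simp only [mul_assoc]
    rw [e]
    exact Q34_Ad π _

theorem Q34_comp {Ψ Φ : N → N} (hΨ : Ψ ∈ Q34Av π) (hΦ : Φ ∈ Q34Av π) :
    (fun x => Ψ (Φ x)) ∈ Q34Av π := by
  refine Q34_ind π (fun Ψ => (fun x => Ψ (Φ x)) ∈ Q34Av π) ?_ (fun v => Q34_AdComp π v hΦ) hΨ
  intro a ha b hb p q hp hq hpq
  exact convex_convexHull ℝ
      (Set.range fun (v : unitary A) (x : N) => π (v : A) * x * star (π (v : A))) ha hb hp hq hpq

theorem Q34_one : (fun x : N => x) ∈ Q34Av π := by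
  have h := Q34_Ad π (1 : unitary A)
  simpa using h

theorem Q34_rsmul (p : ℝ) (x : N) : p • x = (p : ℂ) • x := (Complex.coe_smul p x).symm

theorem Q34_sub {Φ : N → N} (hΦ : Φ ∈ Q34Av π) (x y : N) : Φ (x - y) = Φ x - Φ y := by
  refine Q34_ind π (fun Φ => Φ (x - y) = Φ x - Φ y) ?_ ?_ hΦ
  · intro a ha b hb p q hp hq hpq
    simp only [Set.mem_ofPred_eq, Pi.add_apply, Pi.smul_apply] at ha hb ⊢
    rw [ha, hb, smul_sub, smul_sub]
    abel
  · intro v
    simp only [mul_sub, sub_mul]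

theorem Q34_cen {Φ : N → N} (hΦ : Φ ∈ Q34Av π) {c : N} (hc : IsCom π c) : Φ c = c := by
  refine Q34_ind π (fun Φ => Φ c = c) ?_ ?_ hΦ
  · intro a ha b hb p q hp hq hpq
    simp only [Set.mem_ofPred_eq, Pi.add_apply, Pi.smul_apply] at ha hb ⊢
    rw [ha, hb, ← add_smul, hpq, one_smul]
  · intro v
    show π (v : A) * c * star (π (v : A)) = c
    rw [hc (v : A), mul_assoc, Q34_u2, mul_one]

theorem Q34_tau (hτ : IsTracial N τ) {Φ : N → N} (hΦ : Φ ∈ Q34Av π) {c : N} (hc : IsCom π c)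
    (z : N) : τ (Φ z * c) = τ (z * c) := by
  refine Q34_ind π (fun Φ => τ (Φ z * c) = τ (z * c)) ?_ ?_ hΦ
  · intro a ha b hb p q hp hq hpq
    simp only [Set.mem_ofPred_eq, Pi.add_apply, Pi.smul_apply] at ha hb ⊢
    rw [Q34_rsmul, Q34_rsmul, add_mul, map_add, smul_mul_assoc, smul_mul_assoc, map_smul, map_smul,
      ha, hb, ← add_smul, ← Complex.ofReal_add, hpq, Complex.ofReal_one, one_smul]
  · intro v
    have h1 : star (π (v : A)) * c = c * star (π (v : A)) := by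
      rw [← map_star]
      exact hc (star (v : A))
    rw [mul_assoc, h1, mul_assoc, hτ.comm, mul_assoc, mul_assoc, Q34_u1, mul_one]

theorem Q34_norm {Φ : N → N} (hΦ : Φ ∈ Q34Av π) (x : N) : ‖Φ x‖ ≤ ‖x‖ := by
  refine Q34_ind π (fun Φ => ‖Φ x‖ ≤ ‖x‖) ?_ ?_ hΦ
  · intro a ha b hb p q hp hq hpq
    simp only [Set.mem_ofPred_eq, Pi.add_apply, Pi.smul_apply] at ha hb ⊢
    calc ‖p • a x + q • b x‖ ≤ ‖p • a x‖ + ‖q • b x‖ := norm_add_le _ _
      _ = p * ‖a x‖ + q * ‖b x‖ := by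
        rw [norm_smul, norm_smul, Real.norm_of_nonneg hp, Real.norm_of_nonneg hq]
      _ ≤ p * ‖x‖ + q * ‖x‖ := by gcongr
      _ = ‖x‖ := by rw [← add_mul, hpq, one_mul]
  · intro v
    exact le_of_eq (by
      rw [CStarRing.norm_mul_mem_unitary _ (Unitary.star_mem (Q34_um π v)),
        CStarRing.norm_mem_unitary_mul _ (Q34_um π v)])

theorem Q34_sqv (hτ : IsTracial N τ) (v : unitary A) (x : N) :
    sq τ (π (v : A) * x * star (π (v : A))) = sq τ x :=
  sq_unitary hτ ⟨π (v : A), Q34_um π v⟩ x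

theorem Q34_sq (hτ : IsTracial N τ) {Φ : N → N} (hΦ : Φ ∈ Q34Av π) (x : N) :
    sq τ (Φ x) ≤ sq τ x := by
  obtain ⟨H, _, _, _, Λ, -, hΛ⟩ := exists_gns hτ
  have hn : ∀ a, ‖Λ a‖ ^ 2 = sq τ a := by
    intro a
    rw [@norm_sq_eq_re_inner ℂ, hΛ]
    rfl
  have h : ‖Λ (Φ x)‖ ≤ ‖Λ x‖ := by
    refine Q34_ind π (fun Φ => ‖Λ (Φ x)‖ ≤ ‖Λ x‖) ?_ ?_ hΦ
    · intro a ha b hb p q hp hq hpq
      simp only [Set.mem_ofPred_eq, Pi.add_apply, Pi.smul_apply] at ha hb ⊢
      rw [Q34_rsmul, Q34_rsmul, map_add, map_smul, map_smul]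
      calc ‖(p : ℂ) • Λ (a x) + (q : ℂ) • Λ (b x)‖
          ≤ ‖(p : ℂ) • Λ (a x)‖ + ‖(q : ℂ) • Λ (b x)‖ := norm_add_le _ _
        _ = p * ‖Λ (a x)‖ + q * ‖Λ (b x)‖ := by
          rw [norm_smul, norm_smul, Complex.norm_real, Complex.norm_real, Real.norm_of_nonneg hp,
            Real.norm_of_nonneg hq]
        _ ≤ p * ‖Λ x‖ + q * ‖Λ x‖ := by gcongr
        _ = ‖Λ x‖ := by rw [← add_mul, hpq, one_mul]
    · intro v
      apply le_of_eq
      have h1 : ‖Λ (π (v : A) * x * star (π (v : A)))‖ ^ 2 = ‖Λ x‖ ^ 2 := by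
        rw [hn, hn, Q34_sqv π hτ]
      exact (sq_eq_sq₀ (norm_nonneg _) (norm_nonneg _)).1 h1
  rw [← hn, ← hn]
  gcongr

theorem Q34_step (hτ : IsTracial N τ) (z : N) (hz : ∀ c, IsCom π c → τ (z * c) = 0) (ε : ℝ)
    (hε : 0 < ε) : ∃ Φ ∈ Q34Av π, sq τ (Φ z) ≤ ε := by
  obtain ⟨H, _, _, _, Λ, -, hΛ⟩ := exists_gns hτ
  letI : InnerProductSpace ℝ H := InnerProductSpace.complexToReal
  have hn : ∀ a, ‖Λ a‖ ^ 2 = sq τ a := by
    intro a
    rw [@norm_sq_eq_re_inner ℂ, hΛ]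
    rfl
  have hun : ∀ (v : unitary A) (a : N), ‖Λ (π (v : A) * a * star (π (v : A)))‖ = ‖Λ a‖ := by
    intro v a
    have h1 : ‖Λ (π (v : A) * a * star (π (v : A)))‖ ^ 2 = ‖Λ a‖ ^ 2 := by
      rw [hn, hn, Q34_sqv π hτ]
    exact (sq_eq_sq₀ (norm_nonneg _) (norm_nonneg _)).1 h1
  set K0 : Set H := {w | ∃ Φ ∈ Q34Av π, w = Λ (Φ z)} with hK0
  have hK0c : Convex ℝ K0 := by
    rintro _ ⟨a, ha, rfl⟩ _ ⟨b, hb, rfl⟩ p q hp hq hpq
    refine ⟨p • a + q • b, convex_convexHull ℝ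
      (Set.range fun (v : unitary A) (x : N) => π (v : A) * x * star (π (v : A)))
      ha hb hp hq hpq, ?_⟩
    rw [Pi.add_apply, Pi.smul_apply, Pi.smul_apply, Q34_rsmul, Q34_rsmul, map_add, map_smul,
      map_smul, Complex.coe_smul, Complex.coe_smul]
  have hKc : Convex ℝ (closure K0) := hK0c.closure
  have hKne : (closure K0).Nonempty := ⟨Λ z, subset_closure ⟨_, Q34_one π, rfl⟩⟩
  have hKb : closure K0 ⊆ Λ '' {x | ‖x‖ ≤ ‖z‖} := by
    apply closure_minimal _ (ball_closed hτ Λ hΛ ‖z‖)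
    rintro _ ⟨Φ, hΦ, rfl⟩
    exact ⟨Φ z, Q34_norm π hΦ z, rfl⟩
  obtain ⟨v, hvK, hv⟩ := exists_norm_eq_iInf_of_complete_convex hKne
    (isClosed_closure (s := K0)).isComplete hKc (0 : H)
  have hmin : ∀ w ∈ closure K0, ‖v‖ ≤ ‖w‖ := by
    intro w hw
    have h1 : ⨅ w : closure K0, ‖(0 : H) - w‖ ≤ ‖(0 : H) - w‖ :=
      ciInf_le (f := fun w : closure K0 => ‖(0 : H) - w‖)
        ⟨0, by rintro _ ⟨w, rfl⟩; exact norm_nonneg _⟩ ⟨w, hw⟩
    rw [← hv, zero_sub, zero_sub, norm_neg, norm_neg] at h1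
    exact h1
  obtain ⟨y, -, hy⟩ := hKb hvK
  -- uniqueness
  have huniq : ∀ w ∈ closure K0, ‖w‖ = ‖v‖ → w = v := by
    intro w hw hwv
    have h1 : (1 / 2 : ℝ) • w + (1 / 2 : ℝ) • v ∈ closure K0 :=
      hKc hw hvK (by norm_num) (by norm_num) (by norm_num)
    have h2 := hmin _ h1
    rw [← smul_add, norm_smul, Real.norm_of_nonneg (by norm_num : (0 : ℝ) ≤ 1 / 2)] at h2
    have h3 := parallelogram_law_with_norm ℂ w v
    rw [hwv] at h3
    have h4 : 0 ≤ ‖v‖ := norm_nonneg v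
    have h5 : ‖w - v‖ * ‖w - v‖ ≤ 0 := by nlinarith
    have h6 : ‖w - v‖ = 0 := by nlinarith [norm_nonneg (w - v)]
    exact sub_eq_zero.1 (norm_eq_zero.1 h6)
  -- y commutes with unitaries
  have hinj : ∀ a b : N, Λ a = Λ b → a = b := by
    intro a b h
    have h1 : sq τ (a - b) = 0 := by
      rw [← hn, map_sub, h, sub_self, norm_zero]; norm_num
    exact sub_eq_zero.1 (sq_eq_zero hτ h1)
  have hyu : ∀ u : unitary A, π (u : A) * y = y * π (u : A) := by
    intro u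
    have h1 : Λ (π (u : A) * y * star (π (u : A))) ∈ closure K0 := by
      rw [Metric.mem_closure_iff] at hvK ⊢
      intro δ hδ
      obtain ⟨_, ⟨Φ, hΦ, rfl⟩, hd⟩ := hvK δ hδ
      refine ⟨_, ⟨_, Q34_AdComp π u hΦ, rfl⟩, ?_⟩
      rw [dist_eq_norm, ← hy, ← map_sub] at hd
      rw [dist_eq_norm, ← map_sub, ← sub_mul, ← mul_sub, hun]
      exact hd
    have h2 := huniq _ h1 (by rw [hun, hy])
    rw [← hy] at h2
    have h3 := hinj _ _ h2
    calc π (u : A) * y = π (u : A) * y * (star (π (u : A)) * π (u : A)) := by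
          rw [Q34_u1, mul_one]
      _ = (π (u : A) * y * star (π (u : A))) * π (u : A) := by simp only [mul_assoc]
      _ = y * π (u : A) := by rw [h3]
  have hyc : IsCom π y := by
    intro a
    have ha : a ∈ Submodule.span ℂ (unitary A : Set A) := by
      rw [CStarAlgebra.span_unitary]; trivial
    refine Submodule.span_induction (p := fun a _ => π a * y = y * π a) ?_ ?_ ?_ ?_ ha
    · intro u hu
      exact hyu ⟨u, hu⟩
    · rw [map_zero, mul_zero, zero_mul]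
    · intro a b _ _ h1 h2
      rw [map_add, mul_add, add_mul, h1, h2]
    · intro c a _ h1
      rw [map_smul, mul_smul_comm, smul_mul_assoc, h1]
  have hysc : IsCom π (star y) := by
    intro a
    have h := congrArg star (hyc (star a))
    rw [star_mul, star_mul, map_star, star_star] at h
    exact h.symm
  have hin : inner ℂ (Λ y) v = 0 := by
    have h1 : closure K0 ⊆ {w | inner ℂ (Λ y) w = 0} := by
      apply closure_minimal
      · rintro _ ⟨Φ, hΦ, rfl⟩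
        show inner ℂ (Λ y) (Λ (Φ z)) = 0
        rw [hΛ, hτ.comm, Q34_tau π hτ hΦ hysc, hz _ hysc]
      · exact isClosed_eq (by fun_prop) continuous_const
    exact h1 hvK
  rw [hy] at hin
  have hv0 : v = 0 := inner_self_eq_zero.1 hin
  rw [hv0, Metric.mem_closure_iff] at hvK
  obtain ⟨_, ⟨Φ, hΦ, rfl⟩, hd⟩ := hvK (Real.sqrt ε) (Real.sqrt_pos.2 hε)
  rw [dist_eq_norm, zero_sub, norm_neg] at hd
  refine ⟨Φ, hΦ, ?_⟩
  rw [← hn, ← Real.sq_sqrt hε.le]
  gcongr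

theorem Q34_fin (hτ : IsTracial N τ) (ε : ℝ) (hε : 0 < ε) (S : Finset N) :
    (∀ z ∈ S, ∀ c, IsCom π c → τ (z * c) = 0) → ∃ Φ ∈ Q34Av π, ∀ z ∈ S, sq τ (Φ z) ≤ ε := by
  classical
  induction S using Finset.induction_on with
  | empty =>
    intro _
    exact ⟨_, Q34_one π, fun z hz => absurd hz (Finset.notMem_empty _)⟩
  | insert a S _ ih =>
    intro h
    obtain ⟨Φ, hΦ, hS⟩ := ih fun z hz => h z (Finset.mem_insert_of_mem hz)
    obtain ⟨Ψ, hΨ, ha⟩ := Q34_step π hτ (Φ a) (fun c hc => by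
      rw [Q34_tau π hτ hΦ hc]
      exact h a (Finset.mem_insert_self _ _) c hc) ε hε
    refine ⟨_, Q34_comp π hΨ hΦ, fun z hz => ?_⟩
    rcases Finset.mem_insert.1 hz with rfl | hz
    · exact ha
    · exact (Q34_sq π hτ hΨ _).trans (hS z hz)

theorem Q34_rep {Φ : N → N} (hΦ : Φ ∈ Q34Av π) :
    ∃ (J : Finset (unitary A)) (l : unitary A → ℝ), (∀ v ∈ J, 0 ≤ l v) ∧ ∑ v ∈ J, l v = 1 ∧
      ∀ x, Φ x = ∑ v ∈ J, (l v : ℂ) • (π (v : A) * x * star (π (v : A))) := by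
  classical
  unfold Q34Av at hΦ
  rw [_root_.convexHull_eq] at hΦ
  obtain ⟨ι, t, w, f, hw0, hw1, hf, hcm⟩ := hΦ
  have hf' : ∀ i : ι, ∃ v : unitary A, i ∈ t →
      f i = fun x => π (v : A) * x * star (π (v : A)) := by
    intro i
    by_cases hi : i ∈ t
    · obtain ⟨v, hv⟩ := hf i hi
      exact ⟨v, fun _ => hv.symm⟩
    · exact ⟨1, fun h => absurd h hi⟩
  choose g hg using hf'
  rw [Finset.centerMass_eq_of_sum_1 _ _ hw1] at hcm
  refine ⟨t.image g, fun v => ∑ i ∈ t.filter (fun i => g i = v), w i, ?_, ?_, ?_⟩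
  · intro v _
    exact Finset.sum_nonneg fun i hi => hw0 i (Finset.mem_filter.1 hi).1
  · rw [Finset.sum_fiberwise_of_maps_to (fun i hi => Finset.mem_image_of_mem g hi)]
    exact hw1
  · intro x
    rw [← hcm, Finset.sum_apply]
    rw [← Finset.sum_fiberwise_of_maps_to (fun i hi => Finset.mem_image_of_mem g hi)]
    refine Finset.sum_congr rfl fun v _ => ?_
    rw [Complex.ofReal_sum, Finset.sum_smul]
    refine Finset.sum_congr rfl fun i hi => ?_
    obtain ⟨h1, h2⟩ := Finset.mem_filter.1 hi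
    rw [Pi.smul_apply, hg i h1, h2, Q34_rsmul]

theorem dixmier_c (hτ : IsTracial N τ) (S : Finset N) (ε : ℝ) (hε : 0 < ε) :
    ∃ (J : Finset (unitary A)) (l : unitary A → ℝ), (∀ v ∈ J, 0 ≤ l v) ∧ ∑ v ∈ J, l v = 1 ∧
      ∀ x ∈ S, sq τ ((∑ v ∈ J, (l v : ℂ) • (π (v : A) * x * star (π (v : A)))) - Ec π τ x) ≤ ε := by
  classical
  obtain ⟨Φ, hΦ, h⟩ := Q34_fin π hτ ε hε (S.image fun x => x - Ec π τ x) (by
    intro z hz c hc
    obtain ⟨x, -, rfl⟩ := Finset.mem_image.1 hz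
    rw [sub_mul, map_sub, (Ec_spec π hτ x).2.1 c hc, sub_self])
  obtain ⟨J, l, h0, h1, hrep⟩ := Q34_rep π hΦ
  refine ⟨J, l, h0, h1, fun x hx => ?_⟩
  rw [← hrep x]
  have h2 := h _ (Finset.mem_image_of_mem _ hx)
  rw [Q34_sub π hΦ, Q34_cen π hΦ (Ec_spec π hτ x).1] at h2
  exact h2

end H730HC
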