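import Pool.Agent.H730R3.HB.Defs
import Pool.Agent.H730R3.HB.Q05
import Pool.Agent.H730R3.HB.Q06
import Pool.Agent.H730R3.HC.Final

set_option autoImplicit false

namespace H730HC

open Finset
open scoped ComplexConjugate

universe u v

variable {A : Type u} [CStarAlgebra A] {N : Type u} [CStarAlgebra N] (π : A →⋆ₐ[ℂ] N) {τ : N →ₗ[ℂ] ℂ}



/-- the image of a unitary element -/
noncomputable def Q09_U (u : unitary A) : unitary N :=
  ⟨π (u : A), by
    rw [Unitary.mem_iff]
    constructor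
    · rw [← map_star, ← map_mul, Unitary.star_mul_self_of_mem u.2, map_one]
    · rw [← map_star, ← map_mul, Unitary.mul_star_self_of_mem u.2, map_one]⟩

theorem Q09_norm_conj (u : unitary A) (x : N) : ‖π (u : A) * x * star (π (u : A))‖ = ‖x‖ :=
  T09_norm_conj (Q09_U π u) x

theorem Q09_norm_conj' (u : unitary A) (x : N) : ‖star (π (u : A)) * x * π (u : A)‖ = ‖x‖ :=
  T09_norm_conj' (Q09_U π u) x

theorem Q09_sq_conj (hτ : IsTracial N τ) (u : unitary A) (x : N) :
    sq τ (π (u : A) * x * star (π (u : A))) = sq τ x :=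
  sq_unitary hτ (Q09_U π u) x

theorem Q09_sq_conj' (hτ : IsTracial N τ) (u : unitary A) (x : N) :
    sq τ (star (π (u : A)) * x * π (u : A)) = sq τ x :=
  T09_sq_conj' hτ (Q09_U π u) x

theorem Q09_cen_orth (hτ : IsTracial N τ) {z : N} (hz : IsCom π z) (x : N) :
    (τ (star z * pc π τ x)).re = 0 := by
  have h1 : pc π τ (pc π τ x + z) = pc π τ x := by
    rw [pc_add π hτ]
    have h2 : pc π τ (pc π τ x) = pc π τ x := by
      conv_lhs => unfold pc
      have := Ec_perp π hτ x
      unfold pc at this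
      unfold pc
      rw [this, sub_zero]
    have h3 : pc π τ z = 0 := by
      unfold pc
      rw [Ec_com π hτ hz, sub_self]
    rw [h2, h3, add_zero]
  have h4 := re_pc π hτ (pc π τ x + z)
  rw [h1, star_add, add_mul, map_add, Complex.add_re] at h4
  unfold sq at h4
  linarith

theorem Q09_bdd_sqperp (hτ : IsTracial N τ) {I : Type*} {X : I → N} {C : ℝ}
    (hX : ∀ i, ‖X i‖ ≤ C) : Bdd (fun i => sq τ (pc π τ (X i))) := by
  refine ⟨C ^ 2, fun i => ?_⟩
  rw [abs_of_nonneg (sq_nonneg' hτ _)]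
  exact (sq_pc_le π hτ _).trans
    ((sq_le_norm hτ _).trans (pow_le_pow_left₀ (norm_nonneg _) (hX i) 2))

/-- Jensen's inequality -/
theorem Q09_jensen (hτ : IsTracial N τ) {I : Type*} {m : (I → ℝ) → ℝ} (hm : IsMean m)
    {X : I → N} {C : ℝ} (hX : ∀ i, ‖X i‖ ≤ C) {x : N}
    (hx : ∀ a, (τ (x * a)).re = m (fun i => (τ (X i * a)).re)) :
    sq τ (pc π τ x) ≤ m (fun i => sq τ (pc π τ (X i))) := by
  have h1 : sq τ (pc π τ x) = m (fun i => (τ (X i * star (pc π τ x))).re) := by
    rw [← hx, hτ.comm x, T09_re_comm hτ, re_pc π hτ]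
  have hb1 : Bdd (fun i => (τ (X i * star (pc π τ x))).re) := by
    refine T09_bdd_re hτ (C := C * ‖star (pc π τ x)‖) fun i => ?_
    exact (norm_mul_le _ _).trans (mul_le_mul_of_nonneg_right (hX i) (norm_nonneg _))
  have hb2 : Bdd (fun i => sq τ (pc π τ (X i))) := Q09_bdd_sqperp π hτ hX
  have h2 : ∀ i, (τ (X i * star (pc π τ x))).re
      ≤ (1 / 2) * sq τ (pc π τ x) + (1 / 2) * sq τ (pc π τ (X i)) := by
    intro i
    have h3 : (τ (X i * star (pc π τ x))).re = (τ (star (pc π τ x) * pc π τ (X i))).re := by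
      rw [hτ.comm (X i)]
      have h4 : (τ (star (pc π τ x) * Ec π τ (X i))).re = 0 := by
        rw [T09_re_comm hτ]
        exact Q09_cen_orth π hτ (Ec_spec π hτ (X i)).1 x
      have h5 : star (pc π τ x) * X i
          = star (pc π τ x) * pc π τ (X i) + star (pc π τ x) * Ec π τ (X i) := by
        rw [← mul_add]
        congr 1
        unfold pc
        rw [sub_add_cancel]
      rw [h5, map_add, Complex.add_re, h4, add_zero]
    rw [h3]
    have := T09_half hτ (pc π τ x) (pc π τ (X i))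
    linarith
  have h3 := hm.mono _ (fun i => (1 / 2) * sq τ (pc π τ x) + (1 / 2) * sq τ (pc π τ (X i))) hb1
    (T09_bdd_add (T09_bdd_const _) (T09_bdd_smul _ hb2)) h2
  rw [hm.add (fun _ => (1 / 2) * sq τ (pc π τ x)) (fun i => (1 / 2) * sq τ (pc π τ (X i)))
    (T09_bdd_const _) (T09_bdd_smul _ hb2), hm.const, hm.smul _ _ hb2, ← h1] at h3
  linarith

theorem bessel_c (hτ : IsTracial N τ) (m0 : (unitary A → ℝ) → ℝ) (hm0 : IsMean m0)
    (hmix : ∀ a x : N, m0 (fun v => (τ (a * (π (v : A) * x * star (π (v : A))))).re) = (τ (a * Ec π τ x)).re)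
    (G : Finset (unitary A)) (hG : G.Nonempty) (r : ℕ) :
    ∀ (C : ℝ) (Z : unitary A → N), (∀ g, ‖Z g‖ ≤ C) → ∀ c : N,
      ∑ k ∈ range r, (∑ g ∈ G, sq τ (pc π τ (EE τ (Er G m0 r k)
        (fun p => star (π (p.1 : A)) * Z (p.1 * g * p.2) * π (p.1 : A))))) / (G.card : ℝ)
      ≤ nu G m0 r (fun u => sq τ (Z u - c)) := by
  have hN : (0 : ℝ) < (G.card : ℝ) := by exact_mod_cast Finset.card_pos.2 hG
  induction r with
  | zero =>
    intro C Z hZ c
    simpa [nu] using sq_nonneg' hτ (Z 1 - c)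
  | succ r ih =>
    intro C Z hZ c
    -- notation
    set y : unitary A → N := fun g => EE τ (Er G m0 (r + 1) 0)
      (fun p => star (π (p.1 : A)) * Z (p.1 * g * p.2) * π (p.1 : A)) with hy
    set w : unitary A → N := fun g => pc π τ (y g) with hw
    have hZb : ∀ (p : unitary A) (W : unitary A), ‖star (π (p : A)) * Z W * π (p : A)‖ ≤ C := by
      intro p W
      rw [Q09_norm_conj' π]
      exact hZ W
    set Z' : unitary A × unitary A → unitary A → N := fun q W =>
      star (π ((q.2 * q.1 * q.2⁻¹ : unitary A) : A)) * Z ((q.2 * q.1 * q.2⁻¹) * W) *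
        π ((q.2 * q.1 * q.2⁻¹ : unitary A) : A) with hZ'
    set b : unitary A × unitary A → N := fun q => π (q.2 : A) * w q.1 * star (π (q.2 : A)) with hb
    set c' : unitary A × unitary A → N := fun q =>
      star (π ((q.2 * q.1 * q.2⁻¹ : unitary A) : A)) * (c + b q) *
        π ((q.2 * q.1 * q.2⁻¹ : unitary A) : A) with hc'
    have hZ'b : ∀ q W, ‖Z' q W‖ ≤ C := fun q W => hZb _ _
    set X : ℕ → unitary A → unitary A × unitary A → N := fun k g' q =>
      EE τ (Er G m0 r k) (fun p => star (π (p.1 : A)) * Z' q (p.1 * g' * p.2) * π (p.1 : A)) with hX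
    have hZ'bb : ∀ q (p : unitary A) (W : unitary A),
        ‖star (π (p : A)) * Z' q W * π (p : A)‖ ≤ C := by
      intro q p W
      rw [Q09_norm_conj' π]
      exact hZ'b q W
    have hXb : ∀ k g' q, ‖X k g' q‖ ≤ C := fun k g' q =>
      (EE_spec hτ (Er_isMean G hG m0 hm0 r k) _ C (fun p => hZ'bb q p.1 _)).2
    have hav := T09_av_isMean G hG m0 hm0
    -- induction hypothesis
    have h1 : ∀ q, ∑ k ∈ range r, (∑ g' ∈ G, sq τ (pc π τ (X k g' q))) / (G.card : ℝ)
        ≤ nu G m0 r (fun W => sq τ (Z' q W - c' q)) :=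
      fun q => ih C (Z' q) (hZ'b q) (c' q)
    -- Jensen
    have h2 : ∀ k g', sq τ (pc π τ (EE τ (Er G m0 (r + 1) (k + 1))
        (fun p => star (π (p.1 : A)) * Z (p.1 * g' * p.2) * π (p.1 : A))))
        ≤ T09_av G m0 (fun q => sq τ (pc π τ (X k g' q))) := by
      intro k g'
      refine Q09_jensen π hτ hav (fun q => hXb k g' q) ?_
      intro a
      rw [(EE_spec hτ (Er_isMean G hG m0 hm0 (r + 1) (k + 1)) _ C (fun p => hZb p.1 _)).1 a]
      have h3 : ∀ q, (τ (X k g' q * a)).re = Er G m0 r k (fun p =>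
          (τ (star (π (p.1 : A)) * Z' q (p.1 * g' * p.2) * π (p.1 : A) * a)).re) := fun q =>
        (EE_spec hτ (Er_isMean G hG m0 hm0 r k) _ C (fun p => hZ'bb q p.1 _)).1 a
      simp only [h3]
      show (∑ g ∈ G, m0 (fun v => Er G m0 r k (fun p =>
          (τ (star (π ((v * g * v⁻¹ * p.1 : unitary A) : A)) * Z (v * g * v⁻¹ * p.1 * g' * p.2) *
            π ((v * g * v⁻¹ * p.1 : unitary A) : A) * a)).re))) / (G.card : ℝ)
        = (∑ g ∈ G, m0 (fun v => Er G m0 r k (fun p =>
          (τ (star (π (p.1 : A)) * Z' (g, v) (p.1 * g' * p.2) * π (p.1 : A) * a)).re))) / (G.card : ℝ)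
      congr 1
      refine Finset.sum_congr rfl fun g _ => ?_
      congr 1
      funext v
      congr 1
      funext p
      congr 3
      simp only [hZ']
      rw [Submonoid.coe_mul (unitary A) (v * g * v⁻¹) p.1, map_mul, star_mul]
      simp only [mul_assoc]
    have hsum1 : ∀ k, Bdd (fun q => (∑ g' ∈ G, sq τ (pc π τ (X k g' q))) / (G.card : ℝ)) := by
      intro k
      have h5 := T09_bdd_smul ((G.card : ℝ)⁻¹) (T09_bdd_sum G
        (fun g' q => sq τ (pc π τ (X k g' q))) (fun g' _ => Q09_bdd_sqperp π hτ (fun q => hXb k g' q)))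
      have e : (fun q => (∑ g' ∈ G, sq τ (pc π τ (X k g' q))) / (G.card : ℝ))
        = (fun q => (G.card : ℝ)⁻¹ * ∑ g' ∈ G, sq τ (pc π τ (X k g' q))) := by
        funext q; rw [div_eq_inv_mul]
      rw [e]
      exact h5
    have h4 : ∑ k ∈ range r, (∑ g' ∈ G, sq τ (pc π τ (EE τ (Er G m0 (r + 1) (k + 1))
        (fun p => star (π (p.1 : A)) * Z (p.1 * g' * p.2) * π (p.1 : A))))) / (G.card : ℝ)
        ≤ T09_av G m0 (fun q => ∑ k ∈ range r,
            (∑ g' ∈ G, sq τ (pc π τ (X k g' q))) / (G.card : ℝ)) := by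
      rw [T09_mean_sum hav (range r)
        (fun k q => (∑ g' ∈ G, sq τ (pc π τ (X k g' q))) / (G.card : ℝ)) (fun k _ => hsum1 k)]
      refine Finset.sum_le_sum fun k _ => ?_
      have e : (fun q => (∑ g' ∈ G, sq τ (pc π τ (X k g' q))) / (G.card : ℝ))
        = (fun q => (G.card : ℝ)⁻¹ * ∑ g' ∈ G, sq τ (pc π τ (X k g' q))) := by
        funext q; rw [div_eq_inv_mul]
      rw [e, hav.smul _ (fun q => ∑ g' ∈ G, sq τ (pc π τ (X k g' q)))
        (T09_bdd_sum G (fun g' q => sq τ (pc π τ (X k g' q)))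
          (fun g' _ => Q09_bdd_sqperp π hτ (fun q => hXb k g' q))),
        T09_mean_sum hav G (fun g' q => sq τ (pc π τ (X k g' q)))
          (fun g' _ => Q09_bdd_sqperp π hτ (fun q => hXb k g' q)), div_eq_inv_mul]
      exact mul_le_mul_of_nonneg_left (Finset.sum_le_sum fun g' _ => h2 k g')
        (inv_nonneg.2 hN.le)
    have hnu := nu_isMean G hG m0 hm0 r
    -- bounds
    have hyb : ∀ g, ‖y g‖ ≤ C := fun g =>
      (EE_spec hτ (Er_isMean G hG m0 hm0 (r + 1) 0) _ C (fun p => hZb p.1 _)).2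
    have hwb : ∀ g, ‖w g‖ ≤ C + C := by
      intro g
      simp only [hw]
      unfold pc
      exact (norm_sub_le _ _).trans (add_le_add (hyb g)
        ((Ec_spec π hτ (y g)).2.2.trans (hyb g)))
    have hbb : ∀ q, ‖b q‖ ≤ C + C := by
      intro q
      simp only [hb]
      rw [Q09_norm_conj π]
      exact hwb q.1
    have hC : 0 ≤ C := (norm_nonneg _).trans (hZ 1)
    have hZcb : ∀ W, ‖Z W - c‖ ≤ C + ‖c‖ := fun W =>
      (norm_sub_le _ _).trans (add_le_add (hZ W) le_rfl)
    have hbZ : ∀ q W, ‖star (b q) * Z W‖ ≤ (C + C) * C := by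
      intro q W
      refine (norm_mul_le _ _).trans ?_
      rw [norm_star]
      exact mul_le_mul (hbb q) (hZ W) (norm_nonneg _) (by linarith)
    have hbc : ∀ q, ‖star (b q) * c‖ ≤ (C + C) * ‖c‖ := by
      intro q
      refine (norm_mul_le _ _).trans ?_
      rw [norm_star]
      exact mul_le_mul_of_nonneg_right (hbb q) (norm_nonneg _)
    have h6 : ∀ q, Bdd (fun W => sq τ (Z' q W - c' q)) := by
      intro q
      refine T09_bdd_sq hτ (C := C + ‖c' q‖) fun W => ?_
      exact (norm_sub_le _ _).trans (add_le_add (hZ'b q W) le_rfl)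
    -- expansion
    have h7 : ∀ q W, sq τ (Z' q W - c' q) = sq τ (Z ((q.2 * q.1 * q.2⁻¹) * W) - c)
        - 2 * (τ (star (b q) * Z ((q.2 * q.1 * q.2⁻¹) * W))).re
        + (2 * (τ (star (b q) * c)).re + sq τ (w q.1)) := by
      intro q W
      have e1 : Z' q W - c' q = star (π ((q.2 * q.1 * q.2⁻¹ : unitary A) : A))
          * ((Z ((q.2 * q.1 * q.2⁻¹) * W) - c) - b q) * π ((q.2 * q.1 * q.2⁻¹ : unitary A) : A) := by
        simp only [hZ', hc']
        rw [← sub_mul, ← mul_sub, sub_sub]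
      have e2 : sq τ (b q) = sq τ (w q.1) := Q09_sq_conj π hτ q.2 (w q.1)
      rw [e1, Q09_sq_conj' π hτ, sq_sub hτ, e2, T09_re_comm hτ _ (b q), mul_sub, map_sub,
        Complex.sub_re]
      ring
    have h8 : ∀ q, nu G m0 r (fun W => sq τ (Z' q W - c' q))
        = nu G m0 r (fun W => sq τ (Z ((q.2 * q.1 * q.2⁻¹) * W) - c))
        - 2 * nu G m0 r (fun W => (τ (star (b q) * Z ((q.2 * q.1 * q.2⁻¹) * W))).re)
        + (2 * (τ (star (b q) * c)).re + sq τ (w q.1)) := by
      intro q
      have e1 : (fun W => sq τ (Z' q W - c' q)) = (fun W => sq τ (Z ((q.2 * q.1 * q.2⁻¹) * W) - c)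
        - 2 * (τ (star (b q) * Z ((q.2 * q.1 * q.2⁻¹) * W))).re
        + (2 * (τ (star (b q) * c)).re + sq τ (w q.1))) := funext (h7 q)
      rw [e1, T09_mean_lin hnu (f := fun W => sq τ (Z ((q.2 * q.1 * q.2⁻¹) * W) - c))
        (g := fun W => (τ (star (b q) * Z ((q.2 * q.1 * q.2⁻¹) * W))).re)
        (h := fun _ => (τ (star (b q) * c)).re) (s := fun _ => sq τ (w q.1))
        (T09_bdd_sq hτ (fun W => hZcb _)) (T09_bdd_re hτ (fun W => hbZ q _))
        (T09_bdd_const _) (T09_bdd_const _), hnu.const, hnu.const]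
    have h9 : T09_av G m0 (fun q => nu G m0 r (fun W => sq τ (Z' q W - c' q)))
        = nu G m0 (r + 1) (fun W => sq τ (Z W - c)) - (∑ g ∈ G, sq τ (w g)) / (G.card : ℝ) := by
      have e1 : (fun q => nu G m0 r (fun W => sq τ (Z' q W - c' q))) = (fun q =>
        nu G m0 r (fun W => sq τ (Z ((q.2 * q.1 * q.2⁻¹) * W) - c))
        - 2 * nu G m0 r (fun W => (τ (star (b q) * Z ((q.2 * q.1 * q.2⁻¹) * W))).re)
        + (2 * (τ (star (b q) * c)).re + sq τ (w q.1))) := funext h8
      have b1 : Bdd (fun q : unitary A × unitary A =>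
          nu G m0 r (fun W => sq τ (Z ((q.2 * q.1 * q.2⁻¹) * W) - c))) := by
        refine ⟨(C + ‖c‖) ^ 2, fun q => T09_mean_bound hnu fun W => ?_⟩
        rw [abs_of_nonneg (sq_nonneg' hτ _)]
        exact (sq_le_norm hτ _).trans (pow_le_pow_left₀ (norm_nonneg _) (hZcb _) 2)
      have b2 : Bdd (fun q : unitary A × unitary A =>
          nu G m0 r (fun W => (τ (star (b q) * Z ((q.2 * q.1 * q.2⁻¹) * W))).re)) :=
        ⟨(C + C) * C, fun q => T09_mean_bound hnu fun W => (re_le_norm hτ _).trans (hbZ q _)⟩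
      have b3 : Bdd (fun q : unitary A × unitary A => (τ (star (b q) * c)).re) :=
        T09_bdd_re hτ hbc
      have b4 : Bdd (fun q : unitary A × unitary A => sq τ (w q.1)) :=
        T09_bdd_sq hτ (fun q => hwb q.1)
      rw [e1, T09_mean_lin hav b1 b2 b3 b4]
      have v1 : T09_av G m0 (fun q : unitary A × unitary A =>
          nu G m0 r (fun W => sq τ (Z ((q.2 * q.1 * q.2⁻¹) * W) - c)))
          = nu G m0 (r + 1) (fun W => sq τ (Z W - c)) := rfl
      have v2 : T09_av G m0 (fun q : unitary A × unitary A =>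
          nu G m0 r (fun W => (τ (star (b q) * Z ((q.2 * q.1 * q.2⁻¹) * W))).re))
          = (∑ g ∈ G, sq τ (w g)) / (G.card : ℝ) := by
        unfold T09_av
        congr 1
        refine Finset.sum_congr rfl fun g _ => ?_
        have e2 : sq τ (w g) = (τ (y g * star (w g))).re := by
          rw [hτ.comm (y g), T09_re_comm hτ]
          exact (re_pc π hτ (y g)).symm
        rw [e2]
        have e3 := (EE_spec hτ (Er_isMean G hG m0 hm0 (r + 1) 0)
          (fun p : unitary A × unitary A => star (π (p.1 : A)) * Z (p.1 * g * p.2) * π (p.1 : A))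
          C (fun p => hZb p.1 _)).1 (star (w g))
        refine Eq.trans ?_ e3.symm
        show m0 (fun v => nu G m0 r (fun W => (τ (star (b (g, v)) * Z ((v * g * v⁻¹) * W))).re))
          = m0 (fun v => nu G m0 r (fun W =>
            (τ (star (π (v : A)) * Z (v * g * (v⁻¹ * W)) * π (v : A) * star (w g))).re))
        congr 1
        funext v
        congr 1
        funext W
        simp only [hb]
        rw [star_mul, star_mul, star_star, ← mul_assoc (v * g) v⁻¹ W]
        have e4 : π (v : A) * (star (w g) * star (π (v : A))) * Z (v * g * v⁻¹ * W)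
          = (π (v : A) * star (w g)) * (star (π (v : A)) * Z (v * g * v⁻¹ * W)) := by
          simp only [mul_assoc]
        rw [e4, hτ.comm (π (v : A) * star (w g))]
        simp only [mul_assoc]
      have v3 : T09_av G m0 (fun q : unitary A × unitary A => (τ (star (b q) * c)).re) = 0 := by
        unfold T09_av
        rw [div_eq_zero_iff]
        left
        refine Finset.sum_eq_zero fun g _ => ?_
        have e2 : (fun v : unitary A => (τ (star (b (g, v)) * c)).re)
          = (fun v : unitary A => (τ (star c * (π (v : A) * w g * star (π (v : A))))).re) := by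
          funext v
          rw [T09_re_comm hτ]
        rw [e2, hmix, Ec_perp π hτ, mul_zero, map_zero, Complex.zero_re]
      have v4 : T09_av G m0 (fun q : unitary A × unitary A => sq τ (w q.1))
          = (∑ g ∈ G, sq τ (w g)) / (G.card : ℝ) := by
        unfold T09_av
        congr 1
        exact Finset.sum_congr rfl fun g _ => hm0.const (sq τ (w g))
      rw [v1, v2, v3, v4]
      ring
    have h10 : T09_av G m0 (fun q => ∑ k ∈ range r,
            (∑ g' ∈ G, sq τ (pc π τ (X k g' q))) / (G.card : ℝ))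
        ≤ T09_av G m0 (fun q => nu G m0 r (fun W => sq τ (Z' q W - c' q))) := by
      refine hav.mono _ _ (T09_bdd_sum (range r)
        (fun k q => (∑ g' ∈ G, sq τ (pc π τ (X k g' q))) / (G.card : ℝ)) (fun k _ => hsum1 k))
        ?_ h1
      refine ⟨(C + (‖c‖ + (C + C))) ^ 2, fun q => T09_mean_bound hnu fun W => ?_⟩
      rw [abs_of_nonneg (sq_nonneg' hτ _)]
      refine (sq_le_norm hτ _).trans (pow_le_pow_left₀ (norm_nonneg _) ?_ 2)
      refine (norm_sub_le _ _).trans (add_le_add (hZ'b q W) ?_)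
      simp only [hc']
      rw [Q09_norm_conj' π]
      exact (norm_add_le _ _).trans (add_le_add le_rfl (hbb q))
    rw [Finset.sum_range_succ']
    have h11 : (∑ g ∈ G, sq τ (pc π τ (EE τ (Er G m0 (r + 1) 0)
        (fun p => star (π (p.1 : A)) * Z (p.1 * g * p.2) * π (p.1 : A))))) / (G.card : ℝ)
        = (∑ g ∈ G, sq τ (w g)) / (G.card : ℝ) := rfl
    rw [h11]
    linarith

end H730HC
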