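import Pool.Agent.H730R3.HB.Defs
import Pool.Agent.H730R3.HB.Q05
import Pool.Agent.H730R3.HB.Q06
import Pool.Agent.H730R3.HB.Q10
import Pool.Agent.H730R3.HC.Final

set_option autoImplicit false

namespace H730HC

open Finset
open scoped ComplexConjugate

universe u v

variable {A : Type u} [CStarAlgebra A] {N : Type u} [CStarAlgebra N] (π : A →⋆ₐ[ℂ] N) {τ : N →ₗ[ℂ] ℂ}



theorem Q11_norm (C : ℝ) (Z : unitary A → N) (hZ : ∀ g, ‖Z g‖ ≤ C) (g : unitary A)
    (p : unitary A × unitary A) :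
    ‖star (π (p.1 : A)) * Z (p.1 * g * p.2) * π (p.1 : A)‖ ≤ C := by
  have h1 : star (π (p.1 : A)) * π (p.1 : A) = 1 := by
    rw [← map_star, ← map_mul, Unitary.star_mul_self_of_mem p.1.2, map_one]
  have h2 : π (p.1 : A) * star (π (p.1 : A)) = 1 := by
    rw [← map_star, ← map_mul, Unitary.mul_star_self_of_mem p.1.2, map_one]
  let v : unitary N := ⟨π (p.1 : A), Unitary.mem_iff.2 ⟨h1, h2⟩⟩
  have e : (v : N) = π (p.1 : A) := rfl
  rw [← e, CStarRing.norm_mul_coe_unitary]
  have e' : star (v : N) = ((star v : unitary N) : N) := rfl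
  rw [e', CStarRing.norm_coe_unitary_mul]
  exact hZ _

theorem Q11_isCom_Ec (x : N) : IsCom π (Ec π τ x) := by
  unfold Ec
  split_ifs with h
  · exact h.choose_spec.1
  · intro y
    rw [zero_mul, mul_zero]

theorem Q11_pc_com (hτ : IsTracial N τ) {z : N} (hz : IsCom π z) : pc π τ z = 0 := by
  unfold pc
  rw [Ec_com π hτ hz, sub_self]

theorem Q11_orth (hτ : IsTracial N τ) (y : N) {z : N} (hz : IsCom π z) :
    (τ (star z * pc π τ y)).re = 0 := by
  have h1 := re_pc π hτ (y + z)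
  rw [pc_add π hτ, Q11_pc_com π hτ hz, add_zero, star_add, add_mul, map_add, Complex.add_re,
    re_pc π hτ y] at h1
  linarith

omit [CStarAlgebra A] in
theorem Q11_re_star (hτ : IsTracial N τ) (x y : N) :
    (τ (x * star y)).re = (τ (star x * y)).re := by
  have h1 : τ (x * star y) = conj (τ (y * star x)) := by
    rw [← tau_star hτ, star_mul, star_star]
  rw [h1, Complex.conj_re, hτ.comm]

theorem sm_c (hτ : IsTracial N τ) (C : ℝ) (Z : unitary A → N) (hZ : ∀ g, ‖Z g‖ ≤ C) :
    ∃ m : (unitary A × unitary A → ℝ) → ℝ, IsMean m ∧ ∀ g : unitary A,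
      IsCom π (EE τ m (fun p => star (π (p.1 : A)) * Z (p.1 * g * p.2) * π (p.1 : A))) := by
  classical
  have hex : ∀ κ : Finset (unitary A) × ℕ, ∃ m : (unitary A × unitary A → ℝ) → ℝ, IsMean m ∧
      ∀ g ∈ κ.1, sq τ (pc π τ (EE τ m
        (fun p => star (π (p.1 : A)) * Z (p.1 * g * p.2) * π (p.1 : A))))
        ≤ 1 / ((κ.2 : ℝ) + 1) := fun κ => sm_finite_c π hτ C Z hZ κ.1 _ (by positivity)
  choose mk hmk hmk2 using hex
  let F : Ultrafilter (Finset (unitary A) × ℕ) := Ultrafilter.of Filter.atTop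
  have hF : (F : Filter (Finset (unitary A) × ℕ)) ≤ Filter.atTop := Ultrafilter.of_le _
  have hm : IsMean (fun f => ulim F (fun k => mk k f)) := ultra_isMean F mk hmk
  refine ⟨fun f => ulim F (fun k => mk k f), hm, ?_⟩
  intro g
  set f : unitary A × unitary A → N :=
    fun p => star (π (p.1 : A)) * Z (p.1 * g * p.2) * π (p.1 : A) with hf
  have hfC : ∀ p, ‖f p‖ ≤ C := fun p => Q11_norm π C Z hZ g p
  set X : N := EE τ (fun f => ulim F (fun k => mk k f)) f with hX
  have hspec := (EE_spec hτ hm f C hfC).1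
  have hbdd : Bdd (fun i => (τ (f i * star (pc π τ X))).re) := by
    refine ⟨C * ‖star (pc π τ X)‖, fun i => ?_⟩
    refine le_trans (re_le_norm hτ _) ?_
    refine le_trans (norm_mul_le _ _) ?_
    exact mul_le_mul_of_nonneg_right (hfC i) (norm_nonneg _)
  have hlim := ultra_tendsto F mk hmk _ hbdd
  have hval : ulim F (fun k => mk k (fun i => (τ (f i * star (pc π τ X))).re)) =
      sq τ (pc π τ X) := by
    have h1 := hspec (star (pc π τ X))
    rw [← h1, Q11_re_star hτ, re_pc π hτ]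
  rw [hval] at hlim
  have hbound : ∀ κ : Finset (unitary A) × ℕ, g ∈ κ.1 →
      (mk κ (fun i => (τ (f i * star (pc π τ X))).re)) ^ 2 ≤
        1 / ((κ.2 : ℝ) + 1) * sq τ (pc π τ X) := by
    intro κ hg
    have h1 := (EE_spec hτ (hmk κ) f C hfC).1 (star (pc π τ X))
    rw [← h1]
    set Y : N := EE τ (mk κ) f with hY
    have h2 : (τ (Y * star (pc π τ X))).re = (τ (star (pc π τ Y) * pc π τ X)).re := by
      rw [Q11_re_star hτ]
      have h3 : Y = pc π τ Y + Ec π τ Y := by unfold pc; abel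
      have h4 := Q11_orth π hτ X (Q11_isCom_Ec π (τ := τ) Y)
      have h5 : star Y = star (pc π τ Y) + star (Ec π τ Y) := by
        rw [← star_add, ← h3]
      rw [h5, add_mul, map_add, Complex.add_re, h4, add_zero]
    rw [h2]
    refine le_trans (cs_sq hτ _ _) ?_
    exact mul_le_mul_of_nonneg_right (hmk2 κ g hg) (sq_nonneg' hτ _)
  have hsmall : ∀ k0 : ℕ, (sq τ (pc π τ X)) ^ 2 ≤ 1 / ((k0 : ℝ) + 1) * sq τ (pc π τ X) := by
    intro k0
    have hev : ∀ᶠ κ : Finset (unitary A) × ℕ in (F : Filter (Finset (unitary A) × ℕ)),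
        (mk κ (fun i => (τ (f i * star (pc π τ X))).re)) ^ 2 ≤
          1 / ((k0 : ℝ) + 1) * sq τ (pc π τ X) := by
      apply hF
      filter_upwards [Filter.eventually_ge_atTop (({g} : Finset (unitary A)), k0)] with κ hκ
      have hg : g ∈ κ.1 := hκ.1 (Finset.mem_singleton_self g)
      refine le_trans (hbound κ hg) ?_
      apply mul_le_mul_of_nonneg_right _ (sq_nonneg' hτ _)
      apply one_div_le_one_div_of_le (by positivity)
      have : (k0 : ℝ) ≤ κ.2 := by exact_mod_cast hκ.2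
      linarith
    exact le_of_tendsto (hlim.pow 2) hev
  have hzero : sq τ (pc π τ X) = 0 := by
    have h0 := sq_nonneg' hτ (pc π τ X)
    by_contra hne
    have hpos : 0 < sq τ (pc π τ X) := lt_of_le_of_ne h0 (Ne.symm hne)
    obtain ⟨k0, hk0⟩ := exists_nat_one_div_lt hpos
    have h1 := hsmall k0
    have h2 : 1 / ((k0 : ℝ) + 1) * sq τ (pc π τ X) < (sq τ (pc π τ X)) ^ 2 := by
      rw [pow_two]
      exact mul_lt_mul_of_pos_right hk0 hpos
    linarith
  have h1 : pc π τ X = 0 := sq_eq_zero hτ hzero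
  have h2 : X = Ec π τ X := by
    unfold pc at h1
    exact sub_eq_zero.mp h1
  rw [h2]
  exact Q11_isCom_Ec π X

end H730HC
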