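import Pool.Agent.H730R3.HB.Defs

set_option autoImplicit false

namespace H730HC

open Finset
open scoped ComplexConjugate

universe u v

variable {A : Type u} [CStarAlgebra A] {N : Type u} [CStarAlgebra N] (π : A →⋆ₐ[ℂ] N) {τ : N →ₗ[ℂ] ℂ}



/-- bookkeeping of the double sum -/
theorem Q12_comb {R : Type u} [AddCommGroup R] [Module ℂ R] (N : ℕ) (A B : ℕ → ℕ → R)
    (hA : ∀ m j, j < m → m ≤ N → A m j = B j (m - 1))
    (hB : ∀ m j, m + 1 < j → j ≤ N + 1 → A m j = B (j - 1) m)
    (hC : ∀ m, m < N → A m (m + 1) = A (m + 1) (m + 1)) :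
    ∑ m ∈ range (N + 1), ∑ j ∈ range (N + 2), ((-1 : ℂ) ^ (m + j)) • A m j =
      A 0 0 - A N (N + 1) -
        ∑ i ∈ range (N + 1), ∑ m ∈ range N, ((-1 : ℂ) ^ (i + m)) • B i m := by
  have h1 : ∀ m ∈ range (N + 1), ∑ j ∈ range (N + 2), ((-1 : ℂ) ^ (m + j)) • A m j =
      (∑ j ∈ range m, ((-1 : ℂ) ^ (m + j)) • B j (m - 1)) + (A m m - A m (m + 1)) +
        ∑ l ∈ range (N - m), ((-1 : ℂ) ^ (m + (m + 2 + l))) • B (m + 1 + l) m := by
    intro m hm
    rw [mem_range] at hm
    obtain ⟨d, hd⟩ : ∃ d, N = m + d := ⟨N - m, by omega⟩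
    have e1 : N + 2 = (m + 2) + d := by omega
    have e2 : N - m = d := by omega
    rw [e1, e2, Finset.sum_range_add, Finset.sum_range_succ, Finset.sum_range_succ]
    have e3 : ((-1 : ℂ) ^ (m + m)) = 1 := Even.neg_one_pow ⟨m, rfl⟩
    have e4 : ((-1 : ℂ) ^ (m + (m + 1))) = -1 := Odd.neg_one_pow ⟨m, by ring⟩
    rw [e3, e4, one_smul, neg_one_smul]
    have e5 : ∑ x ∈ range m, ((-1 : ℂ) ^ (m + x)) • A m x =
        ∑ x ∈ range m, ((-1 : ℂ) ^ (m + x)) • B x (m - 1) := by
      refine Finset.sum_congr rfl fun x hx => ?_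
      rw [mem_range] at hx
      rw [hA m x hx (by omega)]
    have e6 : ∑ x ∈ range d, ((-1 : ℂ) ^ (m + (m + 2 + x))) • A m (m + 2 + x) =
        ∑ x ∈ range d, ((-1 : ℂ) ^ (m + (m + 2 + x))) • B (m + 1 + x) m := by
      refine Finset.sum_congr rfl fun x hx => ?_
      rw [mem_range] at hx
      rw [hB m (m + 2 + x) (by omega) (by omega)]
      have : m + 2 + x - 1 = m + 1 + x := by omega
      rw [this]
    rw [e5, e6]
    abel
  rw [Finset.sum_congr rfl h1, Finset.sum_add_distrib, Finset.sum_add_distrib]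
  have h2 : ∑ m ∈ range (N + 1), (A m m - A m (m + 1)) = A 0 0 - A N (N + 1) := by
    rw [Finset.sum_sub_distrib, Finset.sum_range_succ' (fun m => A m m),
      Finset.sum_range_succ (fun m => A m (m + 1))]
    have : ∑ m ∈ range N, A m (m + 1) = ∑ m ∈ range N, A (m + 1) (m + 1) :=
      Finset.sum_congr rfl fun m hm => hC m (mem_range.1 hm)
    rw [this]
    abel
  have h3 : ∑ m ∈ range (N + 1), ∑ j ∈ range m, ((-1 : ℂ) ^ (m + j)) • B j (m - 1) =
      ∑ m ∈ range N, ∑ j ∈ range (m + 1), ((-1 : ℂ) ^ (m + 1 + j)) • B j m := by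
    rw [Finset.sum_range_succ']
    simp
  have h4 : ∑ m ∈ range (N + 1), ∑ l ∈ range (N - m),
      ((-1 : ℂ) ^ (m + (m + 2 + l))) • B (m + 1 + l) m =
      ∑ m ∈ range N, ∑ l ∈ range (N - m), ((-1 : ℂ) ^ (m + (m + 2 + l))) • B (m + 1 + l) m := by
    rw [Finset.sum_range_succ]
    simp
  have h5 : ∑ i ∈ range (N + 1), ∑ m ∈ range N, ((-1 : ℂ) ^ (i + m)) • B i m =
      ∑ m ∈ range N, (∑ j ∈ range (m + 1), ((-1 : ℂ) ^ (j + m)) • B j m +
        ∑ l ∈ range (N - m), ((-1 : ℂ) ^ (m + 1 + l + m)) • B (m + 1 + l) m) := by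
    rw [Finset.sum_comm]
    refine Finset.sum_congr rfl fun m hm => ?_
    rw [mem_range] at hm
    have e1 : N + 1 = (m + 1) + (N - m) := by omega
    rw [e1, Finset.sum_range_add]
  have h6 : ∑ m ∈ range N, ∑ j ∈ range (m + 1), ((-1 : ℂ) ^ (m + 1 + j)) • B j m =
      - ∑ m ∈ range N, ∑ j ∈ range (m + 1), ((-1 : ℂ) ^ (j + m)) • B j m := by
    rw [← Finset.sum_neg_distrib]
    refine Finset.sum_congr rfl fun m _ => ?_
    rw [← Finset.sum_neg_distrib]
    refine Finset.sum_congr rfl fun j _ => ?_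
    rw [← neg_smul]
    congr 1
    ring
  have h7 : ∑ m ∈ range N, ∑ l ∈ range (N - m),
      ((-1 : ℂ) ^ (m + (m + 2 + l))) • B (m + 1 + l) m =
      - ∑ m ∈ range N, ∑ l ∈ range (N - m), ((-1 : ℂ) ^ (m + 1 + l + m)) • B (m + 1 + l) m := by
    rw [← Finset.sum_neg_distrib]
    refine Finset.sum_congr rfl fun m _ => ?_
    rw [← Finset.sum_neg_distrib]
    refine Finset.sum_congr rfl fun j _ => ?_
    rw [← neg_smul]
    congr 1
    ring
  rw [h2, h3, h4, h5, h6, h7, Finset.sum_add_distrib]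
  abel

theorem Q12_face_sum (n i K : ℕ) (c : ℕ → ℂ)
    (Q : ℕ → (ℕ → A) → N) (a : ℕ → A) :
    fc π n i (fun b => ∑ m ∈ range K, c m • Q m b) a =
      ∑ m ∈ range K, c m • fc π n i (Q m) a := by
  unfold fc
  split_ifs
  · rw [Finset.mul_sum]
    exact Finset.sum_congr rfl fun m _ => mul_smul_comm _ _ _
  · rfl
  · rw [Finset.sum_mul]
    exact Finset.sum_congr rfl fun m _ => smul_mul_assoc _ _ _

/-- the sequence with `s m` inserted -/
def Q12_c {R : Type u} [Ring R] (s t a : ℕ → R) (m : ℕ) : ℕ → R :=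
  fun k => if k < m then a k else if k = m then s m else t (k - 1) * a (k - 1) * s k

theorem Q12_c_lt {R : Type u} [Ring R] {s t a : ℕ → R} {m k : ℕ} (h : k < m) :
    Q12_c s t a m k = a k := if_pos h

theorem Q12_c_eq {R : Type u} [Ring R] {s t a : ℕ → R} {m : ℕ} :
    Q12_c s t a m m = s m := by
  unfold Q12_c
  rw [if_neg (lt_irrefl _), if_pos rfl]

theorem Q12_c_gt {R : Type u} [Ring R] {s t a : ℕ → R} {m k : ℕ} (h : m < k) :
    Q12_c s t a m k = t (k - 1) * a (k - 1) * s k := by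
  unfold Q12_c
  rw [if_neg (by omega), if_neg (by omega)]

theorem Q12_mu_lt {R : Type u} [Mul R] {a : ℕ → R} {i k : ℕ} (h : k < i) : mu i a k = a k :=
  if_pos h

theorem Q12_mu_eq {R : Type u} [Mul R] {a : ℕ → R} {i : ℕ} : mu i a i = a i * a (i + 1) := by
  unfold mu
  rw [if_neg (lt_irrefl _), if_pos rfl]

theorem Q12_mu_gt {R : Type u} [Mul R] {a : ℕ → R} {i k : ℕ} (h : i < k) :
    mu i a k = a (k + 1) := by
  unfold mu
  rw [if_neg (by omega), if_neg (by omega)]

theorem Q12_om_lt {R : Type u} {s : ℕ → R} {i k : ℕ} (h : k < i) : om i s k = s k := if_pos h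

theorem Q12_om_ge {R : Type u} {s : ℕ → R} {i k : ℕ} (h : i ≤ k) : om i s k = s (k + 1) :=
  if_neg (by omega)

theorem prism_c (n : ℕ) (s t : ℕ → A) (hst : ∀ k, s k * t k = 1)
    (F : (ℕ → A) → N) (hdep : ∀ a b, (∀ k < n + 1, a k = b k) → F a = F b)
    (hF : ∀ a, dc π (n + 1) F a = 0) (a : ℕ → A) :
    cjc π (n + 1) s t F a - F a
      = ∑ i ∈ range (n + 2), ((-1 : ℂ) ^ i) • fc π n i (Prc π (n + 1) (om i s) (om i t) F) a := by
  -- the two families of terms
  let AA : ℕ → ℕ → N := fun m j => fc π (n + 1) j F (Q12_c s t a m) * π (t (n + 1))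
  let Q : ℕ → ℕ → (ℕ → A) → N := fun i m b =>
    F (Q12_c (om i s) (om i t) b m) * π (om i t n)
  let B : ℕ → ℕ → N := fun i m => fc π n i (Q i m) a
  have hA : ∀ m j, j < m → m ≤ n + 1 → AA m j = B j (m - 1) := by
    intro m j hjm hm
    have ht : om j t n = t (n + 1) := Q12_om_ge (by omega)
    rcases Nat.eq_zero_or_pos j with hj | hj
    · subst hj
      show (π (Q12_c s t a m 0) * F (shift (Q12_c s t a m))) * π (t (n + 1)) =
        π (a 0) * (F (Q12_c (om 0 s) (om 0 t) (shift a) (m - 1)) * π (om 0 t n))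
      rw [ht, Q12_c_lt hjm, mul_assoc]
      congr 2
      congr 1
      funext k
      show Q12_c s t a m (k + 1) = _
      rcases lt_trichotomy (k + 1) m with h | h | h
      · rw [Q12_c_lt h, Q12_c_lt (by omega)]
        rfl
      · rw [h, Q12_c_eq, show k = m - 1 by omega, Q12_c_eq, Q12_om_ge (by omega)]
        congr 1
        omega
      · rw [Q12_c_gt h, Q12_c_gt (by omega), Q12_om_ge (by omega), Q12_om_ge (by omega)]
        show t (k + 1 - 1) * a (k + 1 - 1) * s (k + 1) = t (k - 1 + 1) * a (k - 1 + 1) * s (k + 1)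
        rw [show k + 1 - 1 = k - 1 + 1 by omega]
    · have e1 : fc π (n + 1) j F (Q12_c s t a m) = F (mu (j - 1) (Q12_c s t a m)) := by
        unfold fc
        rw [if_neg (by omega), if_pos (by omega)]
      have e2 : fc π n j (Q j (m - 1)) a = Q j (m - 1) (mu (j - 1) a) := by
        unfold fc
        rw [if_neg (by omega), if_pos (by omega)]
      show fc π (n + 1) j F (Q12_c s t a m) * π (t (n + 1)) = fc π n j (Q j (m - 1)) a
      rw [e1, e2]
      show _ = F (Q12_c (om j s) (om j t) (mu (j - 1) a) (m - 1)) * π (om j t n)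
      rw [ht]
      congr 2
      funext k
      rcases lt_trichotomy k (j - 1) with h | h | h
      · rw [Q12_mu_lt h, Q12_c_lt (by omega), Q12_c_lt (by omega), Q12_mu_lt h]
      · rw [h, Q12_mu_eq, Q12_c_lt (by omega), Q12_c_lt (by omega), Q12_c_lt (by omega), Q12_mu_eq]
      · rw [Q12_mu_gt h]
        rcases lt_trichotomy (k + 1) m with h' | h' | h'
        · rw [Q12_c_lt h', Q12_c_lt (by omega), Q12_mu_gt h]
        · rw [h', Q12_c_eq, show k = m - 1 by omega, Q12_c_eq, Q12_om_ge (by omega)]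
          congr 1
          omega
        · rw [Q12_c_gt h', Q12_c_gt (by omega), Q12_om_ge (by omega), Q12_om_ge (by omega),
            Q12_mu_gt (by omega)]
          rw [show k + 1 - 1 = k - 1 + 1 by omega]
  have hB : ∀ m j, m + 1 < j → j ≤ n + 1 + 1 → AA m j = B (j - 1) m := by
    intro m j hjm hj
    obtain ⟨i, rfl⟩ : ∃ i, j = i + 1 := ⟨j - 1, by omega⟩
    have hi : m < i := by omega
    rw [Nat.add_sub_cancel]
    rcases Nat.lt_or_ge n i with h | h
    · have hin : i = n + 1 := by omega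
      subst hin
      have e1 : fc π (n + 1) (n + 1 + 1) F (Q12_c s t a m) =
          F (Q12_c s t a m) * π (Q12_c s t a m (n + 1)) := by
        unfold fc
        rw [if_neg (by omega), if_neg (by omega)]
      have e2 : fc π n (n + 1) (Q (n + 1) m) a = Q (n + 1) m a * π (a n) := by
        unfold fc
        rw [if_neg (by omega), if_neg (by omega)]
      show fc π (n + 1) (n + 1 + 1) F (Q12_c s t a m) * π (t (n + 1)) = fc π n (n + 1) (Q (n + 1) m) a
      rw [e1, e2]
      show _ = F (Q12_c (om (n + 1) s) (om (n + 1) t) a m) * π (om (n + 1) t n) * π (a n)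
      rw [Q12_om_lt (by omega), Q12_c_gt hi, Nat.add_sub_cancel]
      have e3 : F (Q12_c (om (n + 1) s) (om (n + 1) t) a m) = F (Q12_c s t a m) := by
        apply hdep
        intro k hk
        rcases lt_trichotomy k m with h' | h' | h'
        · rw [Q12_c_lt h', Q12_c_lt h']
        · rw [h', Q12_c_eq, Q12_c_eq, Q12_om_lt (by omega)]
        · rw [Q12_c_gt h', Q12_c_gt h', Q12_om_lt (by omega), Q12_om_lt (by omega)]
      rw [e3, mul_assoc (F _) (π _) (π (t (n + 1))), ← map_mul, mul_assoc (t n * a n), hst, mul_one,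
        map_mul, ← mul_assoc]
    · have e1 : fc π (n + 1) (i + 1) F (Q12_c s t a m) = F (mu i (Q12_c s t a m)) := by
        unfold fc
        rw [if_neg (by omega), if_pos (by omega), Nat.add_sub_cancel]
      have e2 : fc π n i (Q i m) a = Q i m (mu (i - 1) a) := by
        unfold fc
        rw [if_neg (by omega), if_pos (by omega)]
      show fc π (n + 1) (i + 1) F (Q12_c s t a m) * π (t (n + 1)) = fc π n i (Q i m) a
      rw [e1, e2]
      show _ = F (Q12_c (om i s) (om i t) (mu (i - 1) a) m) * π (om i t n)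
      rw [Q12_om_ge h]
      congr 2
      funext k
      rcases lt_trichotomy k i with h' | h' | h'
      · rw [Q12_mu_lt h']
        rcases lt_trichotomy k m with h2 | h2 | h2
        · rw [Q12_c_lt h2, Q12_c_lt h2, Q12_mu_lt (by omega)]
        · rw [h2, Q12_c_eq, Q12_c_eq, Q12_om_lt (by omega)]
        · rw [Q12_c_gt h2, Q12_c_gt h2, Q12_om_lt (by omega), Q12_om_lt (by omega),
            Q12_mu_lt (by omega)]
      · rw [h', Q12_mu_eq, Q12_c_gt hi, Q12_c_gt (by omega), Q12_c_gt hi, Q12_om_lt (by omega),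
          Q12_om_ge le_rfl, Q12_mu_eq, Nat.add_sub_cancel, show i - 1 + 1 = i by omega]
        calc t (i - 1) * a (i - 1) * s i * (t i * a i * s (i + 1))
            = t (i - 1) * a (i - 1) * (s i * t i) * a i * s (i + 1) := by noncomm_ring
          _ = t (i - 1) * (a (i - 1) * a i) * s (i + 1) := by
              rw [hst, mul_one]
              noncomm_ring
      · rw [Q12_mu_gt h', Q12_c_gt (by omega), Q12_c_gt (by omega), Q12_om_ge (by omega),
          Q12_om_ge (by omega), Q12_mu_gt (by omega), show k + 1 - 1 = k - 1 + 1 by omega]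
  have hC : ∀ m, m < n + 1 → AA m (m + 1) = AA (m + 1) (m + 1) := by
    intro m hm
    have e1 : ∀ b, fc π (n + 1) (m + 1) F b = F (mu m b) := by
      intro b
      unfold fc
      rw [if_neg (by omega), if_pos (by omega), Nat.add_sub_cancel]
    show fc π (n + 1) (m + 1) F (Q12_c s t a m) * π (t (n + 1)) =
      fc π (n + 1) (m + 1) F (Q12_c s t a (m + 1)) * π (t (n + 1))
    rw [e1, e1]
    congr 2
    funext k
    rcases lt_trichotomy k m with h | h | h
    · rw [Q12_mu_lt h, Q12_mu_lt h, Q12_c_lt h, Q12_c_lt (by omega)]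
    · rw [h, Q12_mu_eq, Q12_mu_eq, Q12_c_eq, Q12_c_gt (by omega), Q12_c_lt (by omega), Q12_c_eq,
        Nat.add_sub_cancel]
      calc s m * (t m * a m * s (m + 1)) = (s m * t m) * a m * s (m + 1) := by noncomm_ring
        _ = a m * s (m + 1) := by rw [hst, one_mul]
    · rw [Q12_mu_gt h, Q12_mu_gt h, Q12_c_gt (by omega), Q12_c_gt (by omega)]
  have hD : AA 0 0 = cjc π (n + 1) s t F a := by
    show (π (Q12_c s t a 0 0) * F (shift (Q12_c s t a 0))) * π (t (n + 1)) =
      π (s 0) * F (fun k => t k * a k * s (k + 1)) * π (t (n + 1))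
    rw [Q12_c_eq]
    have e1 : shift (Q12_c s t a 0) = fun k => t k * a k * s (k + 1) := by
      funext k
      show Q12_c s t a 0 (k + 1) = _
      rw [Q12_c_gt (by omega), Nat.add_sub_cancel]
    rw [e1]
  have hE : AA (n + 1) (n + 1 + 1) = F a := by
    have e1 : fc π (n + 1) (n + 1 + 1) F (Q12_c s t a (n + 1)) =
        F (Q12_c s t a (n + 1)) * π (Q12_c s t a (n + 1) (n + 1)) := by
      unfold fc
      rw [if_neg (by omega), if_neg (by omega)]
    show fc π (n + 1) (n + 1 + 1) F (Q12_c s t a (n + 1)) * π (t (n + 1)) = F a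
    rw [e1, Q12_c_eq, mul_assoc, ← map_mul, hst, map_one, mul_one]
    exact hdep _ _ fun k hk => Q12_c_lt hk
  have h0 : ∑ m ∈ range (n + 1 + 1), ∑ j ∈ range (n + 1 + 2), ((-1 : ℂ) ^ (m + j)) • AA m j = 0 := by
    refine Finset.sum_eq_zero fun m _ => ?_
    have h1 := hF (Q12_c s t a m)
    unfold dc at h1
    have h2 : ∑ j ∈ range (n + 1 + 2), ((-1 : ℂ) ^ (m + j)) • AA m j =
        ((-1 : ℂ) ^ m) • ((∑ j ∈ range (n + 1 + 2),
          ((-1 : ℂ) ^ j) • fc π (n + 1) j F (Q12_c s t a m)) * π (t (n + 1))) := by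
      rw [Finset.sum_mul, Finset.smul_sum]
      refine Finset.sum_congr rfl fun j _ => ?_
      rw [smul_mul_assoc, smul_smul, ← pow_add]
    rw [h2, h1, zero_mul, smul_zero]
  have h1 := Q12_comb (n + 1) AA B hA hB hC
  rw [h0, hD, hE] at h1
  have h2 : ∑ i ∈ range (n + 2), ((-1 : ℂ) ^ i) • fc π n i (Prc π (n + 1) (om i s) (om i t) F) a =
      ∑ i ∈ range (n + 1 + 1), ∑ m ∈ range (n + 1), ((-1 : ℂ) ^ (i + m)) • B i m := by
    refine Finset.sum_congr rfl fun i _ => ?_
    have e1 : Prc π (n + 1) (om i s) (om i t) F =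
        fun b => ∑ m ∈ range (n + 1), ((-1 : ℂ) ^ m) • Q i m b := rfl
    rw [e1, Q12_face_sum π, Finset.smul_sum]
    refine Finset.sum_congr rfl fun m _ => ?_
    rw [smul_smul, ← pow_add]
  rw [h2]
  exact (sub_eq_zero.1 h1.symm)

end H730HC
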