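import Pool.Agent.H730R3.HB.Defs
import Pool.Agent.H730R3.HC.Final

set_option autoImplicit false

namespace H730HC

open Finset
open scoped ComplexConjugate

universe u v

variable {A : Type u} [CStarAlgebra A] {N : Type u} [CStarAlgebra N] (π : A →⋆ₐ[ℂ] N) {τ : N →ₗ[ℂ] ℂ}



theorem Q14_norm (x : A) : ‖π x‖ ≤ ‖x‖ := NonUnitalStarAlgHom.norm_apply_le π x

theorem Q14_face0 {m : ℕ} {f : (ℕ → A) → N} (hf : IsB m f) :
    IsB (m + 1) (fun a => π (a 0) * f (shift a)) := by
  obtain ⟨C, hC, hf4⟩ := hf.bd
  refine ⟨?_, ?_, ?_, C, hC, ?_⟩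
  · intro a b h
    show π (a 0) * f (shift a) = π (b 0) * f (shift b)
    rw [h 0 (Nat.succ_pos _), hf.dep (shift a) (shift b) fun k hk => h (k + 1) (by omega)]
  · intro a k x y hk
    show π ((Function.update a k (x + y)) 0) * f (shift (Function.update a k (x + y))) =
      π ((Function.update a k x) 0) * f (shift (Function.update a k x)) +
      π ((Function.update a k y) 0) * f (shift (Function.update a k y))
    rcases k with _ | k
    · simp only [T14_shift_zero, Function.update_self, map_add, add_mul]
    · simp only [T14_shift_succ]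
      rw [hf.add (shift a) k x y (by omega)]
      simp [Function.update_apply, mul_add]
  · intro a k c x hk
    show π ((Function.update a k (c • x)) 0) * f (shift (Function.update a k (c • x))) =
      c • (π ((Function.update a k x) 0) * f (shift (Function.update a k x)))
    rcases k with _ | k
    · simp only [T14_shift_zero, Function.update_self, map_smul, smul_mul_assoc]
    · simp only [T14_shift_succ]
      rw [hf.smul (shift a) k c x (by omega)]
      simp [Function.update_apply, mul_smul_comm]
  · intro a
    rw [Finset.prod_range_succ']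
    calc ‖π (a 0) * f (shift a)‖ ≤ ‖π (a 0)‖ * ‖f (shift a)‖ := norm_mul_le _ _
      _ ≤ ‖a 0‖ * (C * ∏ k ∈ range m, ‖shift a k‖) :=
          mul_le_mul (Q14_norm π _) (hf4 _) (norm_nonneg _) (norm_nonneg _)
      _ = C * ((∏ k ∈ range m, ‖a (k + 1)‖) * ‖a 0‖) := by
          simp only [shift]; ring

theorem Q14_faceM {m j : ℕ} (hj : j < m) {f : (ℕ → A) → N} (hf : IsB m f) :
    IsB (m + 1) (fun a => f (mu j a)) := by
  obtain ⟨C, hC, hf4⟩ := hf.bd
  refine ⟨?_, ?_, ?_, C, hC, ?_⟩
  · intro a b h
    refine hf.dep _ _ fun k hk => ?_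
    simp only [mu]
    rw [h k (by omega), h j (by omega), h (j + 1) (by omega), h (k + 1) (by omega)]
  · intro a k x y hk
    show f (mu j (Function.update a k (x + y))) = f (mu j (Function.update a k x)) +
      f (mu j (Function.update a k y))
    rcases lt_trichotomy k j with h | h | h
    · simp only [T14_mu_lt j k a _ h]
      exact hf.add _ _ _ _ (by omega)
    · subst h
      simp only [T14_mu_eq, add_mul]
      exact hf.add _ _ _ _ hj
    · obtain ⟨k, rfl⟩ : ∃ l, k = l + 1 := ⟨k - 1, by omega⟩
      rcases Nat.eq_or_lt_of_le (Nat.lt_succ_iff.1 h) with h' | h'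
      · subst h'
        simp only [T14_mu_eq', mul_add]
        exact hf.add _ _ _ _ hj
      · simp only [T14_mu_gt j k a _ h']
        exact hf.add _ _ _ _ (by omega)
  · intro a k c x hk
    show f (mu j (Function.update a k (c • x))) = c • f (mu j (Function.update a k x))
    rcases lt_trichotomy k j with h | h | h
    · simp only [T14_mu_lt j k a _ h]
      exact hf.smul _ _ _ _ (by omega)
    · subst h
      simp only [T14_mu_eq, smul_mul_assoc]
      exact hf.smul _ _ _ _ hj
    · obtain ⟨k, rfl⟩ : ∃ l, k = l + 1 := ⟨k - 1, by omega⟩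
      rcases Nat.eq_or_lt_of_le (Nat.lt_succ_iff.1 h) with h' | h'
      · subst h'
        simp only [T14_mu_eq', mul_smul_comm]
        exact hf.smul _ _ _ _ hj
      · simp only [T14_mu_gt j k a _ h']
        exact hf.smul _ _ _ _ (by omega)
  · intro a
    exact (hf4 _).trans (mul_le_mul_of_nonneg_left (T14_mu_prod j m hj a) hC)

theorem Q14_faceL {m : ℕ} {f : (ℕ → A) → N} (hf : IsB m f) :
    IsB (m + 1) (fun a => f a * π (a m)) := by
  obtain ⟨C, hC, hf4⟩ := hf.bd
  have hupd : ∀ (a : ℕ → A) (x : A), f (Function.update a m x) = f a := fun a x =>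
    hf.dep _ _ fun k hk => by rw [Function.update_of_ne (by omega)]
  refine ⟨?_, ?_, ?_, C, hC, ?_⟩
  · intro a b h
    show f a * π (a m) = f b * π (b m)
    rw [h m (Nat.lt_succ_self _), hf.dep a b fun k hk => h k (by omega)]
  · intro a k x y hk
    show f (Function.update a k (x + y)) * π ((Function.update a k (x + y)) m) =
      f (Function.update a k x) * π ((Function.update a k x) m) +
      f (Function.update a k y) * π ((Function.update a k y) m)
    rcases Nat.eq_or_lt_of_le (Nat.lt_succ_iff.1 hk) with h | h
    · subst h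
      simp only [hupd, Function.update_self, map_add, mul_add]
    · rw [hf.add a k x y h]
      simp [Function.update_of_ne (show m ≠ k by omega), add_mul]
  · intro a k c x hk
    show f (Function.update a k (c • x)) * π ((Function.update a k (c • x)) m) =
      c • (f (Function.update a k x) * π ((Function.update a k x) m))
    rcases Nat.eq_or_lt_of_le (Nat.lt_succ_iff.1 hk) with h | h
    · subst h
      simp only [hupd, Function.update_self, map_smul, mul_smul_comm]
    · rw [hf.smul a k c x h]
      simp [Function.update_of_ne (show m ≠ k by omega), smul_mul_assoc]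
  · intro a
    rw [Finset.prod_range_succ]
    calc ‖f a * π (a m)‖ ≤ ‖f a‖ * ‖π (a m)‖ := norm_mul_le _ _
      _ ≤ (C * ∏ k ∈ range m, ‖a k‖) * ‖a m‖ :=
          mul_le_mul (hf4 _) (Q14_norm π _) (norm_nonneg _)
            (mul_nonneg hC (Finset.prod_nonneg fun _ _ => norm_nonneg _))
      _ = _ := by ring

theorem IsB_fc {m i : ℕ} (hi : i ≤ m + 1) {f : (ℕ → A) → N} (hf : IsB m f) :
    IsB (m + 1) (fc π m i f) := by
  rcases Nat.eq_zero_or_pos i with h0 | h0
  · have : fc π m i f = fun a => π (a 0) * f (shift a) := by
      funext a; simp [fc, h0]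
    rw [this]
    exact Q14_face0 π hf
  · rcases Nat.lt_or_ge m i with h1 | h1
    · have : fc π m i f = fun a => f a * π (a m) := by
        funext a
        simp only [fc]
        rw [if_neg (by omega), if_neg (by omega)]
      rw [this]
      exact Q14_faceL π hf
    · have : fc π m i f = fun a => f (mu (i - 1) a) := by
        funext a
        simp only [fc]
        rw [if_neg (by omega), if_pos h1]
      rw [this]
      exact Q14_faceM (by omega) hf

theorem IsB_dc {m : ℕ} {f : (ℕ → A) → N} (hf : IsB m f) : IsB (m + 1) (dc π m f) := by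
  have h := IsB_sum (m := m + 1) (range (m + 2)) (f := fun i a => ((-1 : ℂ) ^ i) • fc π m i f a)
    (fun i hi => IsB_smul _ (IsB_fc π (by rw [Finset.mem_range] at hi; omega) hf))
  exact h

end H730HC
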