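import Pool.Agent.H730R3.HB.Defs
import Pool.Agent.H730R3.HB.Q14
import Pool.Agent.H730R3.HC.Final

set_option autoImplicit false

namespace H730HC

open Finset
open scoped ComplexConjugate

universe u v

variable {A : Type u} [CStarAlgebra A] {N : Type u} [CStarAlgebra N] (π : A →⋆ₐ[ℂ] N) {τ : N →ₗ[ℂ] ℂ}



theorem Q39_face_add (m i : ℕ) (f g : (ℕ → A) → N) (a : ℕ → A) :
    fc π m i (fun b => f b + g b) a = fc π m i f a + fc π m i g a := by
  simp only [fc]
  split_ifs
  · rw [mul_add]
  · rfl
  · rw [add_mul]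

theorem Q39_face_smul (m i : ℕ) (c : ℂ) (f : (ℕ → A) → N) (a : ℕ → A) :
    fc π m i (fun b => c • f b) a = c • fc π m i f a := by
  simp only [fc]
  split_ifs
  · rw [mul_smul_comm]
  · rfl
  · rw [smul_mul_assoc]

theorem Q39_face_zero (m i : ℕ) (a : ℕ → A) :
    fc π m i (fun _ => (0 : N)) a = 0 := by
  simp only [fc]
  split_ifs
  · rw [mul_zero]
  · rfl
  · rw [zero_mul]

theorem SumC_zero (m : ℕ) : SumC π m 0 (fun _ : ℕ → A => (0 : N)) := by
  refine ⟨fun _ _ => 0, fun _ => IsB_zero m, fun a => ?_⟩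
  symm
  exact Finset.sum_eq_zero fun i _ => Q39_face_zero π m i a

theorem SumC_add {m : ℕ} {f g : (ℕ → A) → N} (hf : SumC π m 0 f) (hg : SumC π m 0 g) :
    SumC π m 0 (fun a => f a + g a) := by
  obtain ⟨h, h1, h2⟩ := hf
  obtain ⟨k, k1, k2⟩ := hg
  refine ⟨fun i a => h i a + k i a, fun i => IsB_add (h1 i) (k1 i), fun a => ?_⟩
  show f a + g a = _
  rw [h2 a, k2 a, ← Finset.sum_add_distrib]
  exact Finset.sum_congr rfl fun i _ => (Q39_face_add π m i _ _ a).symm

theorem SumC_smul {m : ℕ} {f : (ℕ → A) → N} (c : ℂ) (hf : SumC π m 0 f) :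
    SumC π m 0 (fun a => c • f a) := by
  obtain ⟨h, h1, h2⟩ := hf
  refine ⟨fun i a => c • h i a, fun i => IsB_smul c (h1 i), fun a => ?_⟩
  show c • f a = _
  rw [h2 a, Finset.smul_sum]
  exact Finset.sum_congr rfl fun i _ => (Q39_face_smul π m i c _ a).symm

theorem SumC_sum {m : ℕ} {ι : Type*} (s : Finset ι) {f : ι → (ℕ → A) → N}
    (hf : ∀ i ∈ s, SumC π m 0 (f i)) : SumC π m 0 (fun a => ∑ i ∈ s, f i a) := by
  classical
  induction s using Finset.induction_on with
  | empty => simpa using (SumC_zero π m : SumC π m 0 (fun _ : ℕ → A => (0 : N)))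
  | insert i s hi ih =>
    have h1 := ih fun j hj => hf j (Finset.mem_insert_of_mem hj)
    have h2 := SumC_add π (hf i (Finset.mem_insert_self i s)) h1
    simpa only [Finset.sum_insert hi] using h2

theorem Q39_single {m i₀ : ℕ} (hi : i₀ < m + 2) {f g : (ℕ → A) → N} (hg : IsB m g)
    (h : ∀ a, f a = fc π m i₀ g a) : SumC π m 0 f := by
  refine ⟨fun i => if i = i₀ then g else fun _ => 0, fun i => ?_, fun a => ?_⟩
  · show IsB m (if i = i₀ then g else fun _ => 0)
    split_ifs
    · exact hg
    · exact IsB_zero m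
  · rw [h a, Finset.sum_eq_single i₀]
    · simp
    · intro i _ hne
      simp only [if_neg hne]
      exact Q39_face_zero π m i a
    · intro hn
      exact absurd (Finset.mem_Ico.2 ⟨Nat.zero_le _, hi⟩) hn

theorem SumC_L {m : ℕ} {f : (ℕ → A) → N} (hf : IsB (m + 1) f)
    (h : ∀ a, f a = π (a 0) * f (Function.update a 0 1)) : SumC π m 0 f := by
  refine Q39_single π (i₀ := 0) (by omega) (IsB_ins (Nat.zero_le m) hf 1) fun a => ?_
  rw [h a]
  have : ins 0 1 (shift a) = Function.update a 0 1 := by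
    funext k
    rcases k with _ | k <;> simp [ins, shift]
  simp [fc, this]

theorem SumC_R {m : ℕ} {f : (ℕ → A) → N} (hf : IsB (m + 1) f)
    (h : ∀ a, f a = f (Function.update a m 1) * π (a m)) : SumC π m 0 f := by
  refine Q39_single π (i₀ := m + 1) (by omega) (IsB_ins (le_refl m) hf 1) fun a => ?_
  rw [h a]
  have : f (ins m 1 a) = f (Function.update a m 1) := by
    refine hf.dep _ _ fun k hk => ?_
    rcases Nat.eq_or_lt_of_le (Nat.lt_succ_iff.1 hk) with h | h
    · subst h; simp [ins]
    · simp only [ins]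
      rw [if_pos h, Function.update_of_ne (by omega)]
  simp only [fc]
  rw [if_neg (by omega), if_neg (by omega), this]

theorem SumC_Mid {m q : ℕ} (hq : q < m) {f : (ℕ → A) → N} (hf : IsB (m + 1) f)
    (h : ∀ a, f a = f (Function.update (Function.update a q (a q * a (q + 1))) (q + 1) 1)) :
    SumC π m 0 f := by
  refine Q39_single π (i₀ := q + 1) (by omega) (IsB_ins (by omega : q + 1 ≤ m) hf 1) fun a => ?_
  rw [h a]
  have : ins (q + 1) 1 (mu q a) =
      Function.update (Function.update a q (a q * a (q + 1))) (q + 1) 1 := by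
    funext k
    simp only [ins, mu, Function.update_apply]
    by_cases h1 : k < q + 1
    · rw [if_pos h1, if_neg (show k ≠ q + 1 by omega)]
      by_cases h2 : k < q
      · rw [if_pos h2, if_neg (show k ≠ q by omega)]
      · have hkq : k = q := by omega
        rw [if_neg h2, if_pos hkq, if_pos hkq]
    · rw [if_neg h1]
      by_cases h2 : k = q + 1
      · rw [if_pos h2, if_pos h2]
      · rw [if_neg h2, if_neg h2, if_neg (show ¬ k - 1 < q by omega),
          if_neg (show ¬ k - 1 = q by omega), if_neg (show ¬ k = q by omega),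
          Nat.sub_add_cancel (by omega)]
  simp only [fc]
  rw [if_neg (by omega), if_pos (by omega), Nat.add_sub_cancel, this]

end H730HC
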