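import Pool.Agent.H730R3.HB.Defs
import Pool.Agent.H730R3.HB.Q13
import Pool.Agent.H730R3.HC.Final

set_option autoImplicit false

namespace H730HC

open Finset
open scoped ComplexConjugate

universe u v

variable {A : Type u} [CStarAlgebra A] {N : Type u} [CStarAlgebra N] (π : A →⋆ₐ[ℂ] N) {τ : N →ₗ[ℂ] ℂ}



theorem dc_dc (m : ℕ) (f : (ℕ → A) → N) (hf : ∀ a b, (∀ k < m, a k = b k) → f a = f b) (a : ℕ → A) :
    dc π (m + 1) (dc π m f) a = 0 := by
  have hlin : ∀ j, fc π (m + 1) j (dc π m f) a =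
      ∑ i ∈ range (m + 2), ((-1 : ℂ) ^ i) • fc π (m + 1) j (fc π m i f) a := by
    intro j
    unfold dc
    by_cases h0 : j = 0
    · have e : ∀ g : (ℕ → A) → N, fc π (m + 1) j g a = π (a 0) * g (shift a) := fun g => by
        unfold fc; rw [if_pos h0]
      simp only [e]
      rw [Finset.mul_sum]
      exact Finset.sum_congr rfl (fun i _ => mul_smul_comm _ _ _)
    · by_cases h1 : j ≤ m + 1
      · have e : ∀ g : (ℕ → A) → N, fc π (m + 1) j g a = g (mu (j - 1) a) := fun g => by
          unfold fc; rw [if_neg h0, if_pos h1]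
        simp only [e]
      · have e : ∀ g : (ℕ → A) → N, fc π (m + 1) j g a = g a * π (a (m + 1)) := fun g => by
          unfold fc; rw [if_neg h0, if_neg h1]
        simp only [e]
        rw [Finset.sum_mul]
        exact Finset.sum_congr rfl (fun i _ => smul_mul_assoc _ _ _)
  have h2 : dc π (m + 1) (dc π m f) a = ∑ j ∈ range (m + 1 + 2), ∑ i ∈ range (m + 2),
      ((-1 : ℂ) ^ j) • ((-1 : ℂ) ^ i) • fc π (m + 1) j (fc π m i f) a := by
    conv_lhs => unfold dc
    refine Finset.sum_congr rfl (fun j _ => ?_)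
    rw [← Finset.smul_sum, ← hlin j]
    rfl
  rw [h2]
  exact T40_pair (m + 2) (fun j i => fc π (m + 1) j (fc π m i f) a)
    (fun i j hij hj => fc_fc π m i j hij hj f hf a)

end H730HC
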