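import Pool.Agent.H730R3.HB.Defs
import Pool.Agent.H730R3.HB.Q12
import Pool.Agent.H730R3.HB.Q14
import Pool.Agent.H730R3.HC.Final

set_option autoImplicit false

namespace H730HC

open Finset
open scoped ComplexConjugate

universe u v

variable {A : Type u} [CStarAlgebra A] {N : Type u} [CStarAlgebra N] (π : A →⋆ₐ[ℂ] N) {τ : N →ₗ[ℂ] ℂ}



/-- `IsB` with an explicit constant -/
def Q16_U (C : ℝ) (m : ℕ) (f : (ℕ → A) → N) : Prop :=
  IsB m f ∧ ∀ a : ℕ → A, ‖f a‖ ≤ C * ∏ k ∈ range m, ‖a k‖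

omit [CStarAlgebra N] in
theorem Q16_upd (l r : ℕ → A) (a : ℕ → A) (j : ℕ) (x : A) :
    (fun k => l k * (Function.update a j x) k * r k) =
      Function.update (fun k => l k * a k * r k) j (l j * x * r j) := by
  funext k
  by_cases h : k = j
  · subst h
    simp
  · simp [Function.update_of_ne h]

theorem Q16_two {C : ℝ} (hC : 0 ≤ C) {K : ℕ} {F : (ℕ → A) → N} (hF : Q16_U C K F)
    (l r : ℕ → A) (hl : ∀ k, ‖l k‖ ≤ 1) (hr : ∀ k, ‖r k‖ ≤ 1) :
    Q16_U C K (fun a => F (fun k => l k * a k * r k)) := by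
  have hb : ∀ a : ℕ → A, ‖F (fun k => l k * a k * r k)‖ ≤ C * ∏ k ∈ range K, ‖a k‖ := by
    intro a
    refine (hF.2 _).trans (mul_le_mul_of_nonneg_left ?_ hC)
    refine Finset.prod_le_prod (fun k _ => norm_nonneg _) (fun k _ => ?_)
    calc ‖l k * a k * r k‖ ≤ ‖l k * a k‖ * ‖r k‖ := norm_mul_le _ _
      _ ≤ (‖l k‖ * ‖a k‖) * ‖r k‖ := mul_le_mul_of_nonneg_right (norm_mul_le _ _) (norm_nonneg _)
      _ ≤ (1 * ‖a k‖) * 1 := by
          refine mul_le_mul (mul_le_mul_of_nonneg_right (hl k) (norm_nonneg _)) (hr k)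
            (norm_nonneg _) (by positivity)
      _ = ‖a k‖ := by ring
  refine ⟨⟨?_, ?_, ?_, ⟨C, hC, hb⟩⟩, hb⟩
  · intro a b hab
    exact hF.1.dep _ _ (fun k hk => by simp only [hab k hk])
  · intro a k x y hk
    simp only [Q16_upd]
    rw [← hF.1.add _ k _ _ hk]
    congr 2
    rw [mul_add, add_mul]
  · intro a k c x hk
    simp only [Q16_upd]
    rw [← hF.1.smul _ k _ _ hk]
    congr 2
    rw [mul_smul_comm, smul_mul_assoc]

theorem Q16_lr {C : ℝ} (hC : 0 ≤ C) {K : ℕ} {f : (ℕ → A) → N} (hf : Q16_U C K f) (x y : N)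
    (hx : ‖x‖ ≤ 1) (hy : ‖y‖ ≤ 1) : Q16_U C K (fun a => x * f a * y) := by
  have hb : ∀ a : ℕ → A, ‖x * f a * y‖ ≤ C * ∏ k ∈ range K, ‖a k‖ := by
    intro a
    calc ‖x * f a * y‖ ≤ ‖x * f a‖ * ‖y‖ := norm_mul_le _ _
      _ ≤ (‖x‖ * ‖f a‖) * ‖y‖ := mul_le_mul_of_nonneg_right (norm_mul_le _ _) (norm_nonneg _)
      _ ≤ (1 * ‖f a‖) * 1 := by
          refine mul_le_mul (mul_le_mul_of_nonneg_right hx (norm_nonneg _)) hy
            (norm_nonneg _) (by positivity)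
      _ = ‖f a‖ := by ring
      _ ≤ _ := hf.2 a
  refine ⟨⟨?_, ?_, ?_, ⟨C, hC, hb⟩⟩, hb⟩
  · intro a b hab
    show x * f a * y = x * f b * y
    rw [hf.1.dep a b hab]
  · intro a k u v hk
    show x * f _ * y = x * f _ * y + x * f _ * y
    rw [hf.1.add a k u v hk, mul_add, add_mul]
  · intro a k c u hk
    show x * f _ * y = c • (x * f _ * y)
    rw [hf.1.smul a k c u hk, mul_smul_comm, smul_mul_assoc]

omit [CStarAlgebra N] in
theorem Q16_prod (a : ℕ → A) (x : A) : ∀ K j : ℕ, j ≤ K →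
    ∏ k ∈ range (K + 1), ‖ins j x a k‖ = ‖x‖ * ∏ k ∈ range K, ‖a k‖ := by
  intro K
  induction K with
  | zero =>
    intro j hj
    have h : j = 0 := by omega
    subst h
    simp [ins]
  | succ K ih =>
    intro j hj
    by_cases h : j = K + 1
    · subst h
      rw [prod_range_succ, mul_comm]
      congr 1
      · simp [ins]
      · refine prod_congr rfl fun k hk => ?_
        have hk' : k < K + 1 := mem_range.1 hk
        simp [ins, hk']
    · rw [prod_range_succ, ih j (by omega), prod_range_succ (fun k => ‖a k‖), mul_assoc]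
      congr 2
      unfold ins
      rw [if_neg (by omega), if_neg (by omega)]
      simp

theorem Q16_ins {C : ℝ} (hC : 0 ≤ C) {K j : ℕ} (hj : j ≤ K) {f : (ℕ → A) → N}
    (hf : Q16_U C (K + 1) f) (x : A) (hx : ‖x‖ ≤ 1) : Q16_U C K (fun a => f (ins j x a)) := by
  refine ⟨IsB_ins hj hf.1 x, fun a => ?_⟩
  refine (hf.2 _).trans (mul_le_mul_of_nonneg_left ?_ hC)
  rw [Q16_prod a x K j hj]
  calc ‖x‖ * ∏ k ∈ range K, ‖a k‖ ≤ 1 * ∏ k ∈ range K, ‖a k‖ :=
        mul_le_mul_of_nonneg_right hx (Finset.prod_nonneg fun k _ => norm_nonneg _)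
    _ = _ := one_mul _

theorem Q16_pi (x : A) (hx : ‖x‖ ≤ 1) : ‖π x‖ ≤ 1 :=
  (NonUnitalStarAlgHom.norm_apply_le π x).trans hx

theorem Q16_Pr {C : ℝ} (hC : 0 ≤ C) {n : ℕ} {F : (ℕ → A) → N} (hF : Q16_U C (n + 1) F)
    (s t : ℕ → A) (hs : ∀ k, ‖s k‖ ≤ 1) (ht : ∀ k, ‖t k‖ ≤ 1) (h1 : ‖(1 : A)‖ ≤ 1) :
    Q16_U ((n + 1) * C) n (Prc π (n + 1) s t F) := by
  have hterm : ∀ m ∈ range (n + 1), Q16_U C n (fun a => ((-1 : ℂ) ^ m) •
      (F (fun k => if k < m then a k else if k = m then s m else t (k - 1) * a (k - 1) * s k)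
      * π (t ((n + 1) - 1)))) := by
    intro m hm
    have hm' : m ≤ n := by
      have := mem_range.1 hm
      omega
    have e1 := Q16_two hC hF (fun k => if k ≤ m then 1 else t (k - 1))
      (fun k => if k ≤ m then 1 else s k)
      (fun k => by split_ifs; exacts [h1, ht _]) (fun k => by split_ifs; exacts [h1, hs _])
    have e2 := Q16_ins hC hm' e1 (s m) (hs m)
    have e3 := Q16_lr hC e2 (π 1) (π (t n)) (Q16_pi π 1 h1) (Q16_pi π _ (ht n))
    have e4 : (fun a : ℕ → A => π 1 * F (fun k => (if k ≤ m then 1 else t (k - 1)) *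
        ins m (s m) a k * (if k ≤ m then 1 else s k)) * π (t n)) = (fun a =>
      (F (fun k => if k < m then a k else if k = m then s m else t (k - 1) * a (k - 1) * s k)
      * π (t ((n + 1) - 1)))) := by
      funext a
      rw [map_one, one_mul, Nat.add_sub_cancel]
      congr 2
      funext k
      unfold ins
      by_cases h2 : k < m
      · rw [if_pos h2.le, if_pos h2, if_pos h2.le, if_pos h2, one_mul, mul_one]
      · by_cases h3 : k = m
        · rw [if_pos h3.le, if_neg h2, if_pos h3, if_pos h3.le, if_neg h2, if_pos h3, one_mul,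
            mul_one]
        · have h4 : ¬ k ≤ m := by omega
          rw [if_neg h4, if_neg h2, if_neg h3, if_neg h4, if_neg h2, if_neg h3]
    have e5 : Q16_U C n (fun a =>
      (F (fun k => if k < m then a k else if k = m then s m else t (k - 1) * a (k - 1) * s k)
      * π (t ((n + 1) - 1)))) := by
      rw [← e4]
      exact e3
    refine ⟨IsB_smul _ e5.1, fun a => ?_⟩
    rw [norm_smul, norm_pow, norm_neg, norm_one, one_pow, one_mul]
    exact e5.2 a
  refine ⟨IsB_sum (range (n + 1)) (fun m hm => (hterm m hm).1), fun a => ?_⟩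
  unfold Prc
  calc _ ≤ ∑ m ∈ range (n + 1), C * ∏ k ∈ range n, ‖a k‖ :=
        norm_sum_le_of_le _ (fun m hm => (hterm m hm).2 a)
    _ = _ := by
        rw [sum_const, card_range, nsmul_eq_mul]
        push_cast
        ring

/-- averages -/
theorem Q16_avg (hτ : IsTracial N τ) {I : Type v} {m : (I → ℝ) → ℝ} (hm : IsMean m) {C : ℝ}
    (hC : 0 ≤ C) {K : ℕ} (f : I → (ℕ → A) → N) (hf : ∀ i, Q16_U C K (f i)) :
    IsB K (fun X => EE τ m (fun p => f p X)) := by
  have hbd : ∀ a : ℕ → A, ∃ D : ℝ, ∀ i, ‖f i a‖ ≤ D := fun a => ⟨_, fun i => (hf i).2 a⟩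
  refine ⟨?_, ?_, ?_, C, hC, ?_⟩
  · intro a b hab
    have : (fun p => f p a) = fun p => f p b := funext fun p => (hf p).1.dep a b hab
    show EE τ m (fun p => f p a) = EE τ m (fun p => f p b)
    rw [this]
  · intro a k x y hk
    show EE τ m (fun p => f p _) = EE τ m (fun p => f p _) + EE τ m (fun p => f p _)
    rw [← EE_add hτ hm _ _ (hbd _) (hbd _)]
    congr 1
    exact funext fun p => (hf p).1.add a k x y hk
  · intro a k c x hk
    show EE τ m (fun p => f p _) = c • EE τ m (fun p => f p _)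
    rw [← EE_smul hτ hm c _ (hbd _)]
    congr 1
    exact funext fun p => (hf p).1.smul a k c x hk
  · intro a
    exact (EE_spec hτ hm (fun p => f p a) _ (fun i => (hf i).2 a)).2

omit [CStarAlgebra N] in
theorem Q16_alt {x y : A} (hx : ‖x‖ ≤ 1) (hy : ‖y‖ ≤ 1) (k : ℕ) : ‖alt x y k‖ ≤ 1 := by
  unfold alt
  split_ifs
  exacts [hx, hy]

omit [CStarAlgebra N] in
theorem Q16_om {s : ℕ → A} (hs : ∀ k, ‖s k‖ ≤ 1) (i k : ℕ) : ‖om i s k‖ ≤ 1 := by
  unfold om
  split_ifs <;> exact hs _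

theorem Q16_face (hτ : IsTracial N τ) {I : Type v} {m : (I → ℝ) → ℝ} (hm : IsMean m)
    (f : I → (ℕ → A) → N) (hf : ∀ a : ℕ → A, ∃ D : ℝ, ∀ i, ‖f i a‖ ≤ D) (n i : ℕ) (X : ℕ → A) :
    EE τ m (fun p => fc π n i (f p) X) = fc π n i (fun Y => EE τ m (fun p => f p Y)) X := by
  unfold fc
  by_cases h0 : i = 0
  · simp only [if_pos h0]
    exact EE_mul_left hτ hm _ _ (hf _)
  · by_cases h1 : i ≤ n
    · simp only [if_neg h0, if_pos h1]
    · simp only [if_neg h0, if_neg h1]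
      exact EE_mul_right hτ hm _ _ (hf _)

theorem Q16_face_bd (f : (ℕ → A) → N) (n i : ℕ) (X : ℕ → A) :
    ‖fc π n i f X‖ ≤ ‖π (X 0)‖ * ‖f (shift X)‖ + ‖f (mu (i - 1) X)‖ + ‖f X‖ * ‖π (X n)‖ := by
  unfold fc
  have a1 : 0 ≤ ‖π (X 0)‖ * ‖f (shift X)‖ := by positivity
  have a2 : 0 ≤ ‖f (mu (i - 1) X)‖ := norm_nonneg _
  have a3 : 0 ≤ ‖f X‖ * ‖π (X n)‖ := by positivity
  split_ifs
  · have := norm_mul_le (π (X 0)) (f (shift X))
    linarith
  · linarith
  · have := norm_mul_le (f X) (π (X n))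
    linarith

theorem avg_prism_c (hτ : IsTracial N τ) (n : ℕ) (F : (ℕ → A) → N) (hF : IsB (n + 1) F)
    (hc : ∀ a, dc π (n + 1) F a = 0) (m : (unitary A × unitary A → ℝ) → ℝ) (hm : IsMean m) :
    IsB (n + 1) (fun X => EE τ m (fun p => cjc π (n + 1) (alt (star (p.1 : A)) (p.2 : A))
      (alt (p.1 : A) (star (p.2 : A))) F X)) ∧
    (∀ i, IsB n (fun X => EE τ m (fun p => Prc π (n + 1) (om i (alt (star (p.1 : A)) (p.2 : A)))
      (om i (alt (p.1 : A) (star (p.2 : A)))) F X))) ∧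
    ∀ X, F X = EE τ m (fun p => cjc π (n + 1) (alt (star (p.1 : A)) (p.2 : A))
      (alt (p.1 : A) (star (p.2 : A))) F X) -
      ∑ i ∈ range (n + 2), ((-1 : ℂ) ^ i) • fc π n i (fun Y => EE τ m (fun p =>
        Prc π (n + 1) (om i (alt (star (p.1 : A)) (p.2 : A)))
        (om i (alt (p.1 : A) (star (p.2 : A)))) F Y)) X := by
  have : Nontrivial A := by
    refine ⟨⟨1, 0, fun h => ?_⟩⟩
    have h1 := hτ.one
    have h2 : (1 : N) = 0 := by rw [← map_one π, h, map_zero]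
    rw [h2, map_zero] at h1
    exact zero_ne_one h1
  have h1 : ‖(1 : A)‖ ≤ 1 := by rw [CStarRing.norm_one]
  have hu : ∀ u : unitary A, ‖(u : A)‖ ≤ 1 := fun u => (CStarRing.norm_coe_unitary u).le
  have hu' : ∀ u : unitary A, ‖star (u : A)‖ ≤ 1 := fun u => by rw [norm_star]; exact hu u
  obtain ⟨C, hC, hb⟩ := hF.bd
  have hU : Q16_U C (n + 1) F := ⟨hF, hb⟩
  obtain ⟨s, hs⟩ : ∃ s : unitary A × unitary A → ℕ → A,
    s = fun p => alt (star (p.1 : A)) (p.2 : A) := ⟨_, rfl⟩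
  obtain ⟨t, ht⟩ : ∃ t : unitary A × unitary A → ℕ → A,
    t = fun p => alt (p.1 : A) (star (p.2 : A)) := ⟨_, rfl⟩
  have hs1 : ∀ p k, ‖s p k‖ ≤ 1 := fun p k => by rw [hs]; exact Q16_alt (hu' _) (hu _) k
  have ht1 : ∀ p k, ‖t p k‖ ≤ 1 := fun p k => by rw [ht]; exact Q16_alt (hu _) (hu' _) k
  have hst : ∀ p k, s p k * t p k = 1 := by
    intro p k
    rw [hs, ht]
    simp only [alt]
    split_ifs
    · exact Unitary.coe_star_mul_self p.1
    · exact Unitary.coe_mul_star_self p.2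
  have hcj : ∀ p, Q16_U C (n + 1) (cjc π (n + 1) (s p) (t p) F) := fun p =>
    Q16_lr hC (Q16_two hC hU (t p) (fun k => s p (k + 1)) (ht1 p) (fun k => hs1 p _)) _ _
      (Q16_pi π _ (hs1 p 0)) (Q16_pi π _ (ht1 p (n + 1)))
  have hPr : ∀ i p, Q16_U ((n + 1) * C) n (Prc π (n + 1) (om i (s p)) (om i (t p)) F) := fun i p =>
    Q16_Pr π hC hU _ _ (fun k => Q16_om (hs1 p) i k) (fun k => Q16_om (ht1 p) i k) h1
  have hC' : 0 ≤ ((n : ℝ) + 1) * C := by positivity
  have R1 := Q16_avg hτ hm hC (fun p => cjc π (n + 1) (s p) (t p) F) hcj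
  have R2 : ∀ i, IsB n (fun X => EE τ m (fun p => Prc π (n + 1) (om i (s p)) (om i (t p)) F X)) :=
    fun i => Q16_avg hτ hm hC' (fun p => Prc π (n + 1) (om i (s p)) (om i (t p)) F) (hPr i)
  have R3 : ∀ X, F X = EE τ m (fun p => cjc π (n + 1) (s p) (t p) F X) -
      ∑ i ∈ range (n + 2), ((-1 : ℂ) ^ i) • fc π n i (fun Y => EE τ m (fun p =>
        Prc π (n + 1) (om i (s p)) (om i (t p)) F Y)) X := by
    intro X
    have hface : ∀ i, ∃ D : ℝ, ∀ p,
        ‖fc π n i (Prc π (n + 1) (om i (s p)) (om i (t p)) F) X‖ ≤ D := by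
      intro i
      refine ⟨‖π (X 0)‖ * (((n + 1) * C) * ∏ k ∈ range n, ‖shift X k‖) +
        ((n + 1) * C) * ∏ k ∈ range n, ‖mu (i - 1) X k‖ +
        (((n + 1) * C) * ∏ k ∈ range n, ‖X k‖) * ‖π (X n)‖, fun p => ?_⟩
      refine (Q16_face_bd π _ n i X).trans ?_
      have b1 := (hPr i p).2 (shift X)
      have b2 := (hPr i p).2 (mu (i - 1) X)
      have b3 := (hPr i p).2 X
      have c1 := mul_le_mul_of_nonneg_left b1 (norm_nonneg (π (X 0)))
      have c3 := mul_le_mul_of_nonneg_right b3 (norm_nonneg (π (X n)))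
      linarith
    have hpr : ∀ p, cjc π (n + 1) (s p) (t p) F X = F X + ∑ i ∈ range (n + 2), ((-1 : ℂ) ^ i) •
        fc π n i (Prc π (n + 1) (om i (s p)) (om i (t p)) F) X := by
      intro p
      have h := prism_c π n (s p) (t p) (hst p) F hF.dep hc X
      rw [← h]
      abel
    have e1 : EE τ m (fun p => cjc π (n + 1) (s p) (t p) F X) = F X +
        EE τ m (fun p => ∑ i ∈ range (n + 2), ((-1 : ℂ) ^ i) •
        fc π n i (Prc π (n + 1) (om i (s p)) (om i (t p)) F) X) := by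
      have e2 : (fun p => cjc π (n + 1) (s p) (t p) F X) = fun p => F X +
        ∑ i ∈ range (n + 2), ((-1 : ℂ) ^ i) •
        fc π n i (Prc π (n + 1) (om i (s p)) (om i (t p)) F) X := funext hpr
      rw [e2, EE_add hτ hm (fun _ => F X) (fun p => ∑ i ∈ range (n + 2), ((-1 : ℂ) ^ i) •
        fc π n i (Prc π (n + 1) (om i (s p)) (om i (t p)) F) X) ⟨‖F X‖, fun _ => le_rfl⟩,
        EE_const hτ hm]
      choose D hD using hface
      refine ⟨∑ i ∈ range (n + 2), D i, fun p => norm_sum_le_of_le _ (fun i _ => ?_)⟩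
      rw [norm_smul, norm_pow, norm_neg, norm_one, one_pow, one_mul]
      exact hD i p
    rw [e1, EE_sum hτ hm (range (n + 2)) (fun i p => ((-1 : ℂ) ^ i) •
        fc π n i (Prc π (n + 1) (om i (s p)) (om i (t p)) F) X) (fun i _ => by
      obtain ⟨D, hD⟩ := hface i
      refine ⟨D, fun p => ?_⟩
      rw [norm_smul, norm_pow, norm_neg, norm_one, one_pow, one_mul]
      exact hD p)]
    have e3 : ∀ i, EE τ m (fun p => ((-1 : ℂ) ^ i) •
        fc π n i (Prc π (n + 1) (om i (s p)) (om i (t p)) F) X) = ((-1 : ℂ) ^ i) •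
        fc π n i (fun Y => EE τ m (fun p => Prc π (n + 1) (om i (s p)) (om i (t p)) F Y)) X := by
      intro i
      rw [EE_smul hτ hm _ _ (hface i), Q16_face π hτ hm
        (fun p => Prc π (n + 1) (om i (s p)) (om i (t p)) F) (fun a => ⟨_, fun p => (hPr i p).2 a⟩)]
    rw [Finset.sum_congr rfl fun i _ => e3 i]
    abel
  rw [hs, ht] at R1 R2 R3
  exact ⟨R1, R2, R3⟩

end H730HC
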