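import Pool.Agent.H730R3.HB.Defs
import Pool.Agent.H730R3.HB.Q11
import Pool.Agent.H730R3.HC.Final

set_option autoImplicit false

namespace H730HC

open Finset
open scoped ComplexConjugate

universe u v

variable {A : Type u} [CStarAlgebra A] {N : Type u} [CStarAlgebra N] (π : A →⋆ₐ[ℂ] N) {τ : N →ₗ[ℂ] ℂ}



theorem Q17_norm_pi (g : unitary A) : ‖π (g : A)‖ ≤ 1 := by
  have h := CStarRing.norm_star_mul_self (x := π (g : A))
  rw [← map_star, ← map_mul, Unitary.coe_star_mul_self, map_one] at h
  have h1 := sm_cochain_norm_one (M := N)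
  by_contra hcon
  push Not at hcon
  nlinarith [norm_nonneg (π (g : A))]

theorem Q17_bound (n : ℕ) (F : (ℕ → A) → N) (C : ℝ) (hC : 0 ≤ C)
    (hb : ∀ a : ℕ → A, ‖F a‖ ≤ C * ∏ k ∈ range (n + 1), ‖a k‖) (g : unitary A) :
    ‖F (al (g : A))‖ ≤ C := by
  have h2 : ∏ k ∈ range (n + 1), ‖al (g : A) k‖ ≤ 1 :=
    Finset.prod_le_one (fun _ _ => norm_nonneg _) fun k _ => sm_cochain_al g k
  calc _ ≤ C * ∏ k ∈ range (n + 1), ‖al (g : A) k‖ := hb _
    _ ≤ C * 1 := mul_le_mul_of_nonneg_left h2 hC
    _ = C := mul_one _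

theorem sm_cochain_c (hτ : IsTracial N τ) (n : ℕ) (F : (ℕ → A) → N) (hF : IsB (n + 1) F) :
    ∃ m : (unitary A × unitary A → ℝ) → ℝ, IsMean m ∧ ∀ g : unitary A,
      if Even (n + 1) then
        IsCom π (EE τ m (fun p => cjc π (n + 1) (alt (star (p.1 : A)) (p.2 : A))
          (alt (p.1 : A) (star (p.2 : A))) F (al (g : A))))
      else IsCom π (EE τ m (fun p => cjc π (n + 1) (alt (star (p.1 : A)) (p.2 : A))
          (alt (p.1 : A) (star (p.2 : A))) F (al (g : A))) * star (π (g : A))) := by
  obtain ⟨C, hC, hb⟩ := hF.bd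
  have hB := Q17_bound n F C hC hb
  by_cases he : Even (n + 1)
  · obtain ⟨m, hm, h⟩ := sm_c π hτ C (fun g : unitary A => F (al (g : A))) hB
    refine ⟨m, hm, fun g => ?_⟩
    rw [if_pos he]
    have key : (fun p : unitary A × unitary A =>
        cjc π (n + 1) (alt (star (p.1 : A)) (p.2 : A)) (alt (p.1 : A) (star (p.2 : A))) F
          (al (g : A)))
        = fun p => star (π (p.1 : A)) * F (al ((p.1 * g * p.2 : unitary A) : A)) *
          π (p.1 : A) := by
      funext p
      unfold cjc
      rw [sm_cochain_seq]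
      have h0 : alt (star (p.1 : A)) (p.2 : A) 0 = star (p.1 : A) := by
        unfold alt; rw [if_pos (by decide)]
      have h1 : alt (p.1 : A) (star (p.2 : A)) (n + 1) = (p.1 : A) := by
        unfold alt; rw [if_pos he]
      rw [h0, h1, map_star]
      rfl
    rw [key]
    exact h g
  · have hB2 : ∀ g : unitary A, ‖F (al (g : A)) * star (π (g : A))‖ ≤ C := by
      intro g
      calc _ ≤ ‖F (al (g : A))‖ * ‖star (π (g : A))‖ := norm_mul_le _ _
        _ ≤ C * 1 := by
          apply mul_le_mul (hB g) _ (norm_nonneg _) hC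
          rw [norm_star]; exact Q17_norm_pi π g
        _ = C := mul_one _
    obtain ⟨m, hm, h⟩ := sm_c π hτ C (fun g : unitary A => F (al (g : A)) * star (π (g : A))) hB2
    refine ⟨m, hm, fun g => ?_⟩
    rw [if_neg he]
    have key : ∀ p : unitary A × unitary A,
        cjc π (n + 1) (alt (star (p.1 : A)) (p.2 : A)) (alt (p.1 : A) (star (p.2 : A))) F
          (al (g : A))
        = star (π (p.1 : A)) * F (al ((p.1 * g * p.2 : unitary A) : A)) *
          star (π (p.2 : A)) := by
      intro p
      unfold cjc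
      rw [sm_cochain_seq]
      have h0 : alt (star (p.1 : A)) (p.2 : A) 0 = star (p.1 : A) := by
        unfold alt; rw [if_pos (by decide)]
      have h1 : alt (p.1 : A) (star (p.2 : A)) (n + 1) = star (p.2 : A) := by
        unfold alt; rw [if_neg he]
      rw [h0, h1, map_star, map_star]
      rfl
    have hbd : ∃ C : ℝ, ∀ p : unitary A × unitary A,
        ‖cjc π (n + 1) (alt (star (p.1 : A)) (p.2 : A)) (alt (p.1 : A) (star (p.2 : A))) F
          (al (g : A))‖ ≤ C := by
      refine ⟨C, fun p => ?_⟩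
      rw [key p]
      calc _ ≤ ‖star (π (p.1 : A)) * F (al ((p.1 * g * p.2 : unitary A) : A))‖ *
            ‖star (π (p.2 : A))‖ := norm_mul_le _ _
        _ ≤ ‖star (π (p.1 : A))‖ * ‖F (al ((p.1 * g * p.2 : unitary A) : A))‖ *
            ‖star (π (p.2 : A))‖ :=
            mul_le_mul_of_nonneg_right (norm_mul_le _ _) (norm_nonneg _)
        _ ≤ 1 * C * 1 := by
            have h1 : ‖star (π (p.1 : A))‖ ≤ 1 := by
              rw [norm_star]; exact Q17_norm_pi π p.1
            have h2 : ‖star (π (p.2 : A))‖ ≤ 1 := by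
              rw [norm_star]; exact Q17_norm_pi π p.2
            exact mul_le_mul (mul_le_mul h1 (hB _) (norm_nonneg _) zero_le_one) h2 (norm_nonneg _)
              (by rw [one_mul]; exact hC)
        _ = C := by ring
    rw [← EE_mul_right hτ hm (star (π (g : A))) _ hbd]
    have key2 : (fun p : unitary A × unitary A =>
        cjc π (n + 1) (alt (star (p.1 : A)) (p.2 : A)) (alt (p.1 : A) (star (p.2 : A))) F
          (al (g : A)) * star (π (g : A)))
        = fun p => star (π (p.1 : A)) * (F (al ((p.1 * g * p.2 : unitary A) : A)) *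
          star (π ((p.1 * g * p.2 : unitary A) : A))) * π (p.1 : A) := by
      funext p
      rw [key p]
      have h3 : star (π ((p.1 * g * p.2 : unitary A) : A)) * π (p.1 : A)
          = star (π (p.2 : A)) * star (π (g : A)) := by
        rw [← map_star, ← map_mul, ← map_star, ← map_star, ← map_mul]
        congr 1
        show star ((p.1 : A) * (g : A) * (p.2 : A)) * (p.1 : A) = _
        rw [star_mul, star_mul, mul_assoc, mul_assoc, Unitary.coe_star_mul_self, mul_one]
      rw [mul_assoc (star (π (p.1 : A))) (F _ * _) (π (p.1 : A)), mul_assoc (F _) _ (π (p.1 : A)),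
        h3]
      simp only [mul_assoc]
    rw [key2]
    exact h g

end H730HC
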