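import Pool.Agent.H730R3.HB.Defs
import Pool.Agent.H730R3.HB.Q05
import Pool.Agent.H730R3.HB.Q06
import Pool.Agent.H730R3.HB.Q14
import Pool.Agent.H730R3.HB.Q16
import Pool.Agent.H730R3.HB.Q17
import Pool.Agent.H730R3.HC.Final

set_option autoImplicit false

namespace H730HC

open Finset
open scoped ComplexConjugate

universe u v

variable {A : Type u} [CStarAlgebra A] {N : Type u} [CStarAlgebra N] (π : A →⋆ₐ[ℂ] N) {τ : N →ₗ[ℂ] ℂ}



theorem Q18_even (hτ : IsTracial N τ) {m : ℕ} {D : (ℕ → A) → N} (hD : IsB m D) :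
    IsB m (fun X => Ec π τ (D X)) where
  dep a b h := by rw [hD.dep a b h]
  add a k x y hk := by rw [hD.add a k x y hk, Ec_add π hτ]
  smul a k c x hk := by rw [hD.smul a k c x hk, Ec_smul π hτ]
  bd := by
    obtain ⟨C, hC, h⟩ := hD.bd
    exact ⟨C, hC, fun a => ((Ec_spec π hτ (D a)).2.2).trans (h a)⟩

theorem Q18_odd (hτ : IsTracial N τ) {n : ℕ} {D : (ℕ → A) → N} (hD : IsB (n + 1) D) :
    IsB (n + 2) (fun X => Ec π τ (D X * π (X (n + 1)))) where
  dep a b h := by
    show Ec π τ (D a * π (a (n + 1))) = Ec π τ (D b * π (b (n + 1)))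
    rw [hD.dep a b fun k hk => h k (by omega), h (n + 1) (by omega)]
  add a k x y hk := by
    show Ec π τ (D (Function.update a k (x + y)) * π (Function.update a k (x + y) (n + 1))) =
      Ec π τ (D (Function.update a k x) * π (Function.update a k x (n + 1))) +
        Ec π τ (D (Function.update a k y) * π (Function.update a k y (n + 1)))
    rcases Nat.lt_or_ge k (n + 1) with h | h
    · have h1 : n + 1 ≠ k := by omega
      rw [Function.update_of_ne h1, Function.update_of_ne h1, Function.update_of_ne h1,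
        hD.add a k x y h, add_mul, Ec_add π hτ]
    · obtain rfl : k = n + 1 := by omega
      have h2 : ∀ z, D (Function.update a (n + 1) z) = D a := by
        intro z
        apply hD.dep
        intro j hj
        exact Function.update_of_ne (by omega) _ _
      rw [Function.update_self, Function.update_self, Function.update_self, h2, h2, h2, map_add,
        mul_add, Ec_add π hτ]
  smul a k c x hk := by
    show Ec π τ (D (Function.update a k (c • x)) * π (Function.update a k (c • x) (n + 1))) =
      c • Ec π τ (D (Function.update a k x) * π (Function.update a k x (n + 1)))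
    rcases Nat.lt_or_ge k (n + 1) with h | h
    · have h1 : n + 1 ≠ k := by omega
      rw [Function.update_of_ne h1, Function.update_of_ne h1, hD.smul a k c x h,
        smul_mul_assoc, Ec_smul π hτ]
    · obtain rfl : k = n + 1 := by omega
      have h2 : ∀ z, D (Function.update a (n + 1) z) = D a := by
        intro z
        apply hD.dep
        intro j hj
        exact Function.update_of_ne (by omega) _ _
      rw [Function.update_self, Function.update_self, h2, h2, map_smul, mul_smul_comm,
        Ec_smul π hτ]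
  bd := by
    obtain ⟨C, hC, h⟩ := hD.bd
    refine ⟨C, hC, fun a => ((Ec_spec π hτ (D a * π (a (n + 1)))).2.2).trans ?_⟩
    refine (norm_mul_le _ _).trans ?_
    rw [Finset.prod_range_succ, ← mul_assoc]
    refine mul_le_mul (h a) (NonUnitalStarAlgHom.norm_apply_le π _) (norm_nonneg _) ?_
    exact mul_nonneg hC (Finset.prod_nonneg fun _ _ => norm_nonneg _)

theorem key_c (hτ : IsTracial N τ) (n : ℕ) (F : (ℕ → A) → N) (hF : IsB (n + 1) F)
    (hc : ∀ a, dc π (n + 1) F a = 0) :
    ∃ (P : ℕ → (ℕ → A) → N) (Q : (ℕ → A) → N), (∀ i, IsB n (P i)) ∧ (∀ X, IsCom π (Q X)) ∧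
      ((Even (n + 1) ∧ IsB (n + 1) Q ∧ ∀ g : unitary A,
          F (al (g : A)) = Q (al (g : A)) - ∑ i ∈ range (n + 2), ((-1 : ℂ) ^ i) • fc π n i (P i) (al (g : A))) ∨
        (Odd (n + 1) ∧ IsB (n + 2) Q ∧ ∀ g : unitary A,
          F (al (g : A)) = Q (al (g : A)) * π (g : A)
            - ∑ i ∈ range (n + 2), ((-1 : ℂ) ^ i) • fc π n i (P i) (al (g : A)))) := by
  obtain ⟨m, hm, hmg⟩ := sm_cochain_c π hτ n F hF
  obtain ⟨hD, hP, hFX⟩ := avg_prism_c π hτ n F hF hc m hm
  by_cases hev : Even (n + 1)
  · refine ⟨_, fun X => Ec π τ (EE τ m (fun p => cjc π (n + 1) (alt (star (p.1 : A)) (p.2 : A))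
      (alt (p.1 : A) (star (p.2 : A))) F X)), hP, fun X => (Ec_spec π hτ _).1, Or.inl ⟨hev,
        Q18_even π hτ hD, fun g => ?_⟩⟩
    have h1 := hmg g
    rw [if_pos hev] at h1
    beta_reduce
    rw [Ec_com π hτ h1]
    exact hFX _
  · refine ⟨_, fun X => Ec π τ (EE τ m (fun p => cjc π (n + 1) (alt (star (p.1 : A)) (p.2 : A))
      (alt (p.1 : A) (star (p.2 : A))) F X) * π (X (n + 1))), hP, fun X => (Ec_spec π hτ _).1,
        Or.inr ⟨Nat.not_even_iff_odd.1 hev, Q18_odd π hτ hD, fun g => ?_⟩⟩
    have h1 := hmg g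
    rw [if_neg hev] at h1
    have h2 : al (g : A) (n + 1) = star (g : A) := by
      unfold al alt
      rw [if_neg hev]
    have h3 : π (star (g : A)) * π (g : A) = 1 := by
      rw [← map_mul, Unitary.coe_star_mul_self, map_one]
    beta_reduce
    rw [h2]
    rw [map_star, Ec_com π hτ h1, mul_assoc, ← map_star, h3, mul_one]
    exact hFX _

end H730HC
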