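import Pool.Agent.H730R3.HB.Defs
import Pool.Agent.H730R3.HC.Final

set_option autoImplicit false

namespace H730HC

open Finset
open scoped ComplexConjugate

universe u v

variable {A : Type u} [CStarAlgebra A] {N : Type u} [CStarAlgebra N] (π : A →⋆ₐ[ℂ] N) {τ : N →ₗ[ℂ] ℂ}

attribute [local instance] CStarAlgebra.spectralOrder CStarAlgebra.spectralOrderedRing



theorem Q23_apply (n : ℕ) (a : ℕ → A) (q : ℕ) (p r : Fin (n + 1)) :
    (piM (n + 1) π (Lt n a q)) p r = if (p : ℕ) = q ∧ (r : ℕ) = q + 1 then π (a q) else 0 := by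
  show π (if (p : ℕ) = q ∧ (r : ℕ) = q + 1 then a q else 0) = _
  split_ifs
  · rfl
  · exact map_zero π

theorem Q23_mul (n : ℕ) (X Y : CStarMatrix (Fin (n + 1)) (Fin (n + 1)) N) (p r : Fin (n + 1)) :
    (X * Y) p r = ∑ j, X p j * Y j r := CStarMatrix.mul_apply

theorem piLt_mul_entry (n : ℕ) (a : ℕ → A) (q : ℕ) (hq : q < n) (Y : CStarMatrix (Fin (n + 1)) (Fin (n + 1)) N)
    (l : Fin (n + 1)) : (piM (n + 1) π (Lt n a q) * Y) 0 l = if q = 0 then π (a 0) * Y ⟨min 1 n, by omega⟩ l else 0 := by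
  rw [Q23_mul]
  split_ifs with h
  · subst h
    rw [Finset.sum_eq_single (⟨min 1 n, by omega⟩ : Fin (n + 1))]
    · rw [Q23_apply, if_pos]
      refine ⟨rfl, ?_⟩
      show min 1 n = 0 + 1
      omega
    · intro j _ hj
      rw [Q23_apply, if_neg, zero_mul]
      rintro ⟨_, h2⟩
      apply hj
      apply Fin.ext
      show (j : ℕ) = min 1 n
      omega
    · intro hn
      exact absurd (Finset.mem_univ _) hn
  · refine Finset.sum_eq_zero fun j _ => ?_
    rw [Q23_apply, if_neg, zero_mul]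
    rintro ⟨h1, _⟩
    exact h h1.symm

theorem mul_piLt_entry (n : ℕ) (a : ℕ → A) (q : ℕ) (hq : q < n) (Y : CStarMatrix (Fin (n + 1)) (Fin (n + 1)) N)
    (k : Fin (n + 1)) : (Y * piM (n + 1) π (Lt n a q)) k (Fin.last n) =
      if q + 1 = n then Y k ⟨n - 1, by omega⟩ * π (a q) else 0 := by
  rw [Q23_mul]
  split_ifs with h
  · rw [Finset.sum_eq_single (⟨n - 1, by omega⟩ : Fin (n + 1))]
    · rw [Q23_apply, if_pos]
      refine ⟨?_, ?_⟩
      · show n - 1 = q
        omega
      · show n = q + 1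
        omega
    · intro j _ hj
      rw [Q23_apply, if_neg, mul_zero]
      rintro ⟨h1, _⟩
      apply hj
      apply Fin.ext
      show (j : ℕ) = n - 1
      omega
    · intro hn
      exact absurd (Finset.mem_univ _) hn
  · refine Finset.sum_eq_zero fun j _ => ?_
    rw [Q23_apply, if_neg, mul_zero]
    rintro ⟨_, h2⟩
    have h3 : n = q + 1 := h2
    exact h h3.symm

end H730HC
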