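import Pool.Agent.H730R3.HB.Defs
import Pool.Agent.H730R3.HC.Final

set_option autoImplicit false

namespace H730HC

open Finset
open scoped ComplexConjugate

universe u v

variable {A : Type u} [CStarAlgebra A] {N : Type u} [CStarAlgebra N] (π : A →⋆ₐ[ℂ] N) {τ : N →ₗ[ℂ] ℂ}

attribute [local instance] CStarAlgebra.spectralOrder CStarAlgebra.spectralOrderedRing



theorem Q25_addT {J : ℕ} (n : ℕ) : ∀ (k l : Fin J) (T1 T2 : (ℕ → A) → N)
    (X : ℕ → Fin J → Fin J → A),
    ampc n k l (fun a => T1 a + T2 a) X = ampc n k l T1 X + ampc n k l T2 X := by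
  induction n with
  | zero =>
    intro k l T1 T2 X
    simp only [ampc]
    split_ifs
    · rfl
    · rw [add_zero]
  | succ n ih =>
    intro k l T1 T2 X
    simp only [ampc]
    rw [← Finset.sum_add_distrib]
    exact Finset.sum_congr rfl fun j _ => ih j l _ _ _

theorem Q25_smulT {J : ℕ} (n : ℕ) (c : ℂ) : ∀ (k l : Fin J) (T1 : (ℕ → A) → N)
    (X : ℕ → Fin J → Fin J → A),
    ampc n k l (fun a => c • T1 a) X = c • ampc n k l T1 X := by
  induction n with
  | zero =>
    intro k l T1 X
    simp only [ampc]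
    split_ifs
    · rfl
    · rw [smul_zero]
  | succ n ih =>
    intro k l T1 X
    simp only [ampc]
    rw [Finset.smul_sum]
    exact Finset.sum_congr rfl fun j _ => ih j l _ _

theorem Q25_dep {J : ℕ} (n : ℕ) : ∀ (k l : Fin J) (T : (ℕ → A) → N)
    (X Y : ℕ → Fin J → Fin J → A), (∀ i < n, X i = Y i) → ampc n k l T X = ampc n k l T Y := by
  induction n with
  | zero => intro k l T X Y _; rfl
  | succ n ih =>
    intro k l T X Y h
    simp only [ampc]
    refine Finset.sum_congr rfl fun j _ => ?_
    rw [h 0 (Nat.succ_pos _)]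
    exact ih j l _ _ _ fun i hi => h (i + 1) (by omega)

theorem Q25_cons (x : A) (a : ℕ → A) : cons x a = ins 0 x a := by
  funext k
  simp [cons, ins]

theorem Q25_IsB_cons {n : ℕ} {T : (ℕ → A) → N} (hT : IsB (n + 1) T) (x : A) :
    IsB n (fun a => T (cons x a)) := by
  have h := IsB_ins (Nat.zero_le n) hT x
  simp only [Q25_cons]
  exact h

theorem Q25_cons_upd (x y : A) (a : ℕ → A) : cons x a = Function.update (cons y a) 0 x := by
  funext k
  rcases k with _ | k
  · simp [cons]
  · simp [cons]

theorem Q25_upd0 {J : ℕ} (X : ℕ → Fin J → Fin J → A) (P : Fin J → Fin J → A) :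
    (fun i => Function.update X 0 P (i + 1)) = fun i => X (i + 1) := by
  funext i
  rw [Function.update_of_ne (by omega)]

theorem Q25_updS {J : ℕ} (X : ℕ → Fin J → Fin J → A) (P : Fin J → Fin J → A) (i₀ : ℕ) :
    (fun i => Function.update X (i₀ + 1) P (i + 1)) =
      Function.update (fun i => X (i + 1)) i₀ P := by
  funext i
  by_cases h : i = i₀
  · subst h; simp
  · rw [Function.update_of_ne (by omega), Function.update_of_ne h]

theorem Q25_add {J : ℕ} (n : ℕ) : ∀ (k l : Fin J) (T : (ℕ → A) → N), IsB n T →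
    ∀ (X : ℕ → Fin J → Fin J → A) (i : ℕ) (P Q : Fin J → Fin J → A), i < n →
    ampc n k l T (Function.update X i (fun p q => P p q + Q p q)) =
      ampc n k l T (Function.update X i P) + ampc n k l T (Function.update X i Q) := by
  induction n with
  | zero => intro k l T _ X i P Q hi; omega
  | succ n ih =>
    intro k l T hT X i P Q hi
    simp only [ampc]
    rw [← Finset.sum_add_distrib]
    refine Finset.sum_congr rfl fun j _ => ?_
    rcases i with _ | i
    · simp only [Q25_upd0, Function.update_self]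
      rw [← Q25_addT]
      congr 1
      funext a
      rw [Q25_cons_upd (P k j + Q k j) 0 a, Q25_cons_upd (P k j) 0 a, Q25_cons_upd (Q k j) 0 a]
      exact hT.add _ _ _ _ (Nat.succ_pos _)
    · simp only [Q25_updS]
      have h0 : ∀ P : Fin J → Fin J → A, Function.update X (i + 1) P 0 = X 0 := fun P =>
        Function.update_of_ne (by omega) _ _
      simp only [h0]
      exact ih j l _ (Q25_IsB_cons hT _) _ i P Q (by omega)

theorem Q25_smul {J : ℕ} (n : ℕ) (c : ℂ) : ∀ (k l : Fin J) (T : (ℕ → A) → N), IsB n T →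
    ∀ (X : ℕ → Fin J → Fin J → A) (i : ℕ) (P : Fin J → Fin J → A), i < n →
    ampc n k l T (Function.update X i (fun p q => c • P p q)) =
      c • ampc n k l T (Function.update X i P) := by
  induction n with
  | zero => intro k l T _ X i P hi; omega
  | succ n ih =>
    intro k l T hT X i P hi
    simp only [ampc]
    rw [Finset.smul_sum]
    refine Finset.sum_congr rfl fun j _ => ?_
    rcases i with _ | i
    · simp only [Q25_upd0, Function.update_self]
      rw [← Q25_smulT]
      congr 1
      funext a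
      rw [Q25_cons_upd (c • P k j) 0 a, Q25_cons_upd (P k j) 0 a]
      exact hT.smul _ _ _ _ (Nat.succ_pos _)
    · simp only [Q25_updS]
      have h0 : ∀ P : Fin J → Fin J → A, Function.update X (i + 1) P 0 = X 0 := fun P =>
        Function.update_of_ne (by omega) _ _
      simp only [h0]
      exact ih j l _ (Q25_IsB_cons hT _) _ i P (by omega)

theorem Q25_bd {J : ℕ} (n : ℕ) : ∀ (k l : Fin J) (T : (ℕ → A) → N) (C : ℝ), 0 ≤ C →
    (∀ a, ‖T a‖ ≤ C * ∏ i ∈ range n, ‖a i‖) →
    ∀ (X : ℕ → CStarMatrix (Fin J) (Fin J) A),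
    ‖ampc n k l T (fun i p q => X i p q)‖ ≤ C * (J : ℝ) ^ n * ∏ i ∈ range n, ‖X i‖ := by
  induction n with
  | zero =>
    intro k l T C hC hT X
    simp only [ampc, pow_zero, mul_one, Finset.range_zero, Finset.prod_empty]
    split_ifs
    · simpa using hT (fun _ => 0)
    · rw [norm_zero]; exact hC
  | succ n ih =>
    intro k l T C hC hT X
    simp only [ampc]
    have h1 : ∀ j : Fin J, ‖ampc n j l (fun a => T (cons (X 0 k j) a))
        (fun i p q => X (i + 1) p q)‖ ≤ (C * ‖X 0‖) * (J : ℝ) ^ n * ∏ i ∈ range n, ‖X (i + 1)‖ := by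
      intro j
      refine ih j l _ (C * ‖X 0‖) (mul_nonneg hC (norm_nonneg _)) ?_ (fun i => X (i + 1))
      intro a
      refine (hT _).trans ?_
      rw [Finset.prod_range_succ']
      have h2 : ‖cons (X 0 k j) a 0‖ ≤ ‖X 0‖ := by
        show ‖X 0 k j‖ ≤ ‖X 0‖
        exact CStarMatrix.norm_entry_le_norm
      have h3 : ∀ i, cons (X 0 k j) a (i + 1) = a i := fun i => by simp [cons]
      simp only [h3]
      have h4 : 0 ≤ ∏ i ∈ range n, ‖a i‖ := Finset.prod_nonneg fun _ _ => norm_nonneg _
      calc C * ((∏ i ∈ range n, ‖a i‖) * ‖cons (X 0 k j) a 0‖)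
          ≤ C * ((∏ i ∈ range n, ‖a i‖) * ‖X 0‖) :=
            mul_le_mul_of_nonneg_left (mul_le_mul_of_nonneg_left h2 h4) hC
        _ = _ := by ring
    refine (norm_sum_le _ _).trans ((Finset.sum_le_sum fun j _ => h1 j).trans (le_of_eq ?_))
    rw [Finset.sum_const, Finset.card_univ, Fintype.card_fin, nsmul_eq_mul,
      Finset.prod_range_succ', pow_succ]
    ring

theorem Q25_upd {J : ℕ} (X : ℕ → CStarMatrix (Fin J) (Fin J) A)
    (P : CStarMatrix (Fin J) (Fin J) A) (i₀ : ℕ) :
    (fun i p q => Function.update X i₀ P i p q) =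
      Function.update (fun i p q => X i p q) i₀ (fun p q => P p q) := by
  funext i p q
  by_cases h : i = i₀
  · subst h; rw [Function.update_self, Function.update_self]
  · rw [Function.update_of_ne h, Function.update_of_ne h]

theorem Q25_IsB_amp {n J : ℕ} {T : (ℕ → A) → N} (hT : IsB n T) (k l : Fin J) :
    IsB n (fun X : ℕ → CStarMatrix (Fin J) (Fin J) A => ampc n k l T (fun i p q => X i p q)) := by
  obtain ⟨C, hC, hb⟩ := hT.bd
  refine ⟨?_, ?_, ?_, C * (J : ℝ) ^ n, by positivity, ?_⟩
  · intro X Y h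
    refine Q25_dep n k l T _ _ fun i hi => ?_
    rw [h i hi]
  · intro X i P Q hi
    simp only [Q25_upd]
    exact Q25_add n k l T hT _ i (fun p q => P p q) (fun p q => Q p q) hi
  · intro X i c P hi
    simp only [Q25_upd]
    exact Q25_smul n c k l T hT _ i (fun p q => P p q) hi
  · intro X
    exact Q25_bd n k l T C hC hb X

theorem IsB_ampMc {n J : ℕ} {T : (ℕ → A) → N} (hT : IsB n T) : IsB n (ampMc (J := J) n T) := by
  have h1 := IsB_sum (m := n) (Finset.univ : Finset (Fin J))
    (f := fun k (X : ℕ → CStarMatrix (Fin J) (Fin J) A) => ∑ l : Fin J, T25_cl N k l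
      (ampc n k l T (fun i p q => X i p q)))
    (fun k _ => IsB_sum (m := n) (Finset.univ : Finset (Fin J))
      (f := fun l (X : ℕ → CStarMatrix (Fin J) (Fin J) A) => T25_cl N k l
        (ampc n k l T (fun i p q => X i p q)))
      (fun l _ => IsB_comp (Q25_IsB_amp hT k l) (T25_cl N k l)))
  have h2 : (ampMc (J := J) n T) = fun X : ℕ → CStarMatrix (Fin J) (Fin J) A =>
      ∑ k : Fin J, ∑ l : Fin J, T25_cl N k l (ampc n k l T (fun i p q => X i p q)) := by
    funext X
    ext p q
    have happ : ∀ (s : Finset (Fin J)) (g : Fin J → CStarMatrix (Fin J) (Fin J) N) (p q : Fin J),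
        (∑ k ∈ s, g k) p q = ∑ k ∈ s, g k p q := by
      intro s g p q
      classical
      induction s using Finset.induction_on with
      | empty => rfl
      | insert k s hk ih =>
        rw [Finset.sum_insert hk, Finset.sum_insert hk, CStarMatrix.add_apply, ih]
    rw [happ]
    simp only [happ]
    have hcl : ∀ (k l : Fin J) (x : N), (T25_cl N k l x) p q = if p = k ∧ q = l then x else 0 :=
      fun k l x => rfl
    simp only [hcl]
    rw [Finset.sum_eq_single p, Finset.sum_eq_single q]
    · rw [if_pos ⟨rfl, rfl⟩]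
      rfl
    · intro l _ hl
      rw [if_neg (fun h => hl h.2.symm)]
    · intro hn
      exact absurd (Finset.mem_univ _) hn
    · intro k _ hk
      refine Finset.sum_eq_zero fun l _ => ?_
      rw [if_neg (fun h => hk h.1.symm)]
    · intro hn
      exact absurd (Finset.mem_univ _) hn
  rw [h2]
  exact h1

end H730HC
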