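import Pool.Agent.H730R3.HB.Defs
import Pool.Agent.H730R3.HC.Final

set_option autoImplicit false

namespace H730HC

open Finset
open scoped ComplexConjugate

universe u v

variable {A : Type u} [CStarAlgebra A] {N : Type u} [CStarAlgebra N] (π : A →⋆ₐ[ℂ] N) {τ : N →ₗ[ℂ] ℂ}

attribute [local instance] CStarAlgebra.spectralOrder CStarAlgebra.spectralOrderedRing



theorem IsB_word_c {n d : ℕ} {Λ : (ℕ → CStarMatrix (Fin (n + 1)) (Fin (n + 1)) A) →
      CStarMatrix (Fin (n + 1)) (Fin (n + 1)) N} (hΛ : IsB d Λ) (σ : Fin n → Fin d) (k l : Fin (n + 1)) :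
    IsB n (fun a : ℕ → A => (Λ (word n (Lt n a) σ)) k l) := by
  refine ⟨fun a b h => ?_, fun a q x y hq => ?_, fun a q c x hq => ?_, ?_⟩
  · have h1 : word n (Lt n a) σ = word n (Lt n b) σ :=
      t28_word_congr n _ _ σ (fun q hq => Lt_congr n a b q (h q hq))
    simp only [h1]
  · obtain ⟨W1, W2, hW⟩ := t28_word_update n (Lt n a) σ q hq
    have e : ∀ z : A, word n (Lt n (Function.update a q z)) σ =
        Function.update (word n (Lt n a) σ) ((σ ⟨q, hq⟩ : Fin d) : ℕ)
          (W1 * Lt n (Function.update a q z) q * W2) := fun z => by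
      rw [t28_Lt_update, hW]
      rw [← t28_Lt_update]
    have e2 : W1 * Lt n (Function.update a q (x + y)) q * W2 =
        W1 * Lt n (Function.update a q x) q * W2 + W1 * Lt n (Function.update a q y) q * W2 := by
      rw [Lt_add, mul_add, add_mul]
    have e3 : Λ (word n (Lt n (Function.update a q (x + y))) σ) =
        Λ (word n (Lt n (Function.update a q x)) σ) + Λ (word n (Lt n (Function.update a q y)) σ) := by
      rw [e, e, e, e2]
      exact hΛ.add _ _ _ _ (σ ⟨q, hq⟩).2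
    simp only [e3]
    exact CStarMatrix.add_apply ..
  · obtain ⟨W1, W2, hW⟩ := t28_word_update n (Lt n a) σ q hq
    have e : ∀ z : A, word n (Lt n (Function.update a q z)) σ =
        Function.update (word n (Lt n a) σ) ((σ ⟨q, hq⟩ : Fin d) : ℕ)
          (W1 * Lt n (Function.update a q z) q * W2) := fun z => by
      rw [t28_Lt_update, hW]
      rw [← t28_Lt_update]
    have e2 : W1 * Lt n (Function.update a q (c • x)) q * W2 =
        c • (W1 * Lt n (Function.update a q x) q * W2) := by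
      rw [Lt_smul, mul_smul_comm, smul_mul_assoc]
    have e3 : Λ (word n (Lt n (Function.update a q (c • x))) σ) =
        c • Λ (word n (Lt n (Function.update a q x)) σ) := by
      rw [e, e, e2]
      exact hΛ.smul _ _ _ _ (σ ⟨q, hq⟩).2
    simp only [e3]
    exact CStarMatrix.smul_apply ..
  · obtain ⟨C, hC, hb⟩ := hΛ.bd
    obtain ⟨K, hK, hL⟩ := norm_Lt A n
    refine ⟨C * (‖(1 : CStarMatrix (Fin (n + 1)) (Fin (n + 1)) A)‖ ^ d * K ^ n), by positivity, fun a => ?_⟩
    have h1 : ‖(Λ (word n (Lt n a) σ)) k l‖ ≤ ‖Λ (word n (Lt n a) σ)‖ := CStarMatrix.norm_entry_le_norm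
    have h2 := hb (word n (Lt n a) σ)
    have h3 := t28_word_norm n (Lt n a) σ
    have h4 : ∏ q ∈ range n, ‖Lt n a q‖ ≤ ∏ q ∈ range n, (K * ‖a q‖) :=
      prod_le_prod (fun q _ => norm_nonneg _) (fun q _ => hL a q)
    have h5 : ∏ q ∈ range n, (K * ‖a q‖) = K ^ n * ∏ q ∈ range n, ‖a q‖ := by
      rw [prod_mul_distrib, prod_const, card_range]
    calc ‖(Λ (word n (Lt n a) σ)) k l‖ ≤ C * ∏ m ∈ range d, ‖word n (Lt n a) σ m‖ := h1.trans h2
      _ ≤ C * (‖(1 : CStarMatrix (Fin (n + 1)) (Fin (n + 1)) A)‖ ^ d * ∏ q ∈ range n, ‖Lt n a q‖) :=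
          mul_le_mul_of_nonneg_left h3 hC
      _ ≤ C * (‖(1 : CStarMatrix (Fin (n + 1)) (Fin (n + 1)) A)‖ ^ d * (K ^ n * ∏ q ∈ range n, ‖a q‖)) := by
          refine mul_le_mul_of_nonneg_left (mul_le_mul_of_nonneg_left (h4.trans h5.le) (by positivity)) hC
      _ = C * (‖(1 : CStarMatrix (Fin (n + 1)) (Fin (n + 1)) A)‖ ^ d * K ^ n) * ∏ q ∈ range n, ‖a q‖ := by
          ring


end H730HC
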