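import Pool.Agent.H730R3.HB.Defs
import Pool.Agent.H730R3.HB.Q14
import Pool.Agent.H730R3.HB.Q23
import Pool.Agent.H730R3.HB.Q28
import Pool.Agent.H730R3.HB.Q39
import Pool.Agent.H730R3.HC.Final

set_option autoImplicit false

namespace H730HC

open Finset
open scoped ComplexConjugate

universe u v

variable {A : Type u} [CStarAlgebra A] {N : Type u} [CStarAlgebra N] (π : A →⋆ₐ[ℂ] N) {τ : N →ₗ[ℂ] ℂ}

attribute [local instance] CStarAlgebra.spectralOrder CStarAlgebra.spectralOrderedRing



private theorem Q30_congr {m : ℕ} (σ : Fin (m + 1) → Fin (m + 1)) (hσ : Function.Injective σ)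
    (a b : ℕ → A) (k : ℕ) (h : ∀ q : Fin (m + 1), (σ q : ℕ) = k → a q = b q) :
    word (m + 1) (Lt (m + 1) a) σ k = word (m + 1) (Lt (m + 1) b) σ k := by
  by_cases hk : ∃ q : Fin (m + 1), (σ q : ℕ) = k
  · obtain ⟨q, hq⟩ := hk
    have h1 := (word_inj (m + 1) (Lt (m + 1) a) σ hσ).1 q
    have h2 := (word_inj (m + 1) (Lt (m + 1) b) σ hσ).1 q
    rw [hq] at h1 h2
    rw [h1, h2, Lt_congr (m + 1) a b q (h q hq)]
  · push Not at hk
    rw [(word_inj (m + 1) (Lt (m + 1) a) σ hσ).2 k hk, (word_inj (m + 1) (Lt (m + 1) b) σ hσ).2 k hk]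

private theorem Q30_surj {m : ℕ} (σ : Fin (m + 1) → Fin (m + 1)) (hσ : Function.Injective σ)
    (k : ℕ) (hk : k < m + 1) : ∃ q : Fin (m + 1), (σ q : ℕ) = k := by
  obtain ⟨q, hq⟩ := (Finite.injective_iff_surjective.1 hσ) ⟨k, hk⟩
  exact ⟨q, by rw [hq]⟩

private theorem Q30_letter {m : ℕ} (σ : Fin (m + 1) → Fin (m + 1)) (hσ : Function.Injective σ)
    (a : ℕ → A) (q : Fin (m + 1)) (k : ℕ) (hq : (σ q : ℕ) = k) :
    word (m + 1) (Lt (m + 1) a) σ k = if Even k then Lt (m + 1) a q else -(Lt (m + 1) a q) := by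
  have h1 := (word_inj (m + 1) (Lt (m + 1) a) σ hσ).1 q
  rw [hq] at h1
  exact h1

private theorem Q30_zero {m p : ℕ} (hp : p < m)
    {P : (ℕ → CStarMatrix (Fin (m + 1 + 1)) (Fin (m + 1 + 1)) A) →
      CStarMatrix (Fin (m + 1 + 1)) (Fin (m + 1 + 1)) N} (hP : IsB m P)
    (Y : ℕ → CStarMatrix (Fin (m + 1 + 1)) (Fin (m + 1 + 1)) A) (hY : Y p = 0) : P Y = 0 := by
  have h := hP.smul Y p 0 0 hp
  rw [zero_smul, zero_smul, ← hY, Function.update_eq_self] at h
  exact h

theorem SumC_face {m i : ℕ} (hi : i ≤ m + 1) {P : (ℕ → CStarMatrix (Fin (m + 1 + 1)) (Fin (m + 1 + 1)) A) →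
      CStarMatrix (Fin (m + 1 + 1)) (Fin (m + 1 + 1)) N} (hP : IsB m P) (σ : Fin (m + 1) → Fin (m + 1))
    (hσ : Function.Injective σ) :
    SumC π m 0 (fun a : ℕ → A => (fc (piM (m + 1 + 1) π) m i P (word (m + 1) (Lt (m + 1) a) σ)) 0
      (Fin.last (m + 1))) := by
  have hB : IsB (m + 1) (fun a : ℕ → A =>
      (fc (piM (m + 1 + 1) π) m i P (word (m + 1) (Lt (m + 1) a) σ)) 0 (Fin.last (m + 1))) :=
    IsB_word_c (IsB_fc (piM (m + 1 + 1) π) hi hP) σ 0 (Fin.last (m + 1))
  have hzero : (∀ a : ℕ → A, (fc (piM (m + 1 + 1) π) m i P (word (m + 1) (Lt (m + 1) a) σ)) 0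
        (Fin.last (m + 1)) = 0) →
      SumC π m 0 (fun a : ℕ → A =>
        (fc (piM (m + 1 + 1) π) m i P (word (m + 1) (Lt (m + 1) a) σ)) 0 (Fin.last (m + 1))) := by
    intro h
    have : (fun a : ℕ → A => (fc (piM (m + 1 + 1) π) m i P (word (m + 1) (Lt (m + 1) a) σ)) 0
        (Fin.last (m + 1))) = fun _ => 0 := funext h
    rw [this]
    exact SumC_zero π m
  by_cases h0 : i = 0
  · -- left face
    subst h0
    obtain ⟨q0, hq0⟩ := Q30_surj σ hσ 0 (by omega)
    have hface : ∀ a : ℕ → A, (fc (piM (m + 1 + 1) π) m 0 P (word (m + 1) (Lt (m + 1) a) σ)) 0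
        (Fin.last (m + 1)) =
        if (q0 : ℕ) = 0 then π (a 0) * (P (shift (word (m + 1) (Lt (m + 1) a) σ)))
          ⟨min 1 (m + 1), by omega⟩ (Fin.last (m + 1)) else 0 := by
      intro a
      have e : fc (piM (m + 1 + 1) π) m 0 P (word (m + 1) (Lt (m + 1) a) σ) =
          piM (m + 1 + 1) π (Lt (m + 1) a q0) * P (shift (word (m + 1) (Lt (m + 1) a) σ)) := by
        unfold fc
        rw [if_pos rfl, Q30_letter σ hσ a q0 0 hq0, if_pos Even.zero]
      rw [e, piLt_mul_entry π (m + 1) a q0 q0.2]
    by_cases hq : (q0 : ℕ) = 0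
    · refine SumC_L π hB fun a => ?_
      rw [hface, hface, if_pos hq, if_pos hq]
      have e : shift (word (m + 1) (Lt (m + 1) a) σ) =
          shift (word (m + 1) (Lt (m + 1) (Function.update a 0 1)) σ) := by
        funext k
        refine Q30_congr σ hσ _ _ (k + 1) fun q hqk => ?_
        have : (q : ℕ) ≠ 0 := by
          intro h
          have : q = q0 := Fin.ext (by rw [h, hq])
          rw [this, hq0] at hqk
          omega
        rw [Function.update_of_ne this]
      rw [← e, Function.update_self, map_one, one_mul]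
    · exact hzero fun a => by rw [hface, if_neg hq]
  · by_cases hm : i ≤ m
    · -- middle face
      obtain ⟨p, rfl⟩ : ∃ p, i = p + 1 := ⟨i - 1, by omega⟩
      have hp : p < m := by omega
      obtain ⟨q, hq⟩ := Q30_surj σ hσ p (by omega)
      obtain ⟨q', hq'⟩ := Q30_surj σ hσ (p + 1) (by omega)
      have hface : ∀ Y : ℕ → CStarMatrix (Fin (m + 1 + 1)) (Fin (m + 1 + 1)) A,
          fc (piM (m + 1 + 1) π) m (p + 1) P Y = P (mu p Y) := by
        intro Y
        unfold fc
        rw [if_neg h0, if_pos hm, Nat.add_sub_cancel]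
      have hprod : ∀ a : ℕ → A, word (m + 1) (Lt (m + 1) a) σ p *
          word (m + 1) (Lt (m + 1) a) σ (p + 1) = -(Lt (m + 1) a q * Lt (m + 1) a q') := by
        intro a
        rw [Q30_letter σ hσ a q p hq, Q30_letter σ hσ a q' (p + 1) hq']
        by_cases he : Even p
        · rw [if_pos he, if_neg (by rw [Nat.even_add_one]; exact fun h => h he), mul_neg]
        · rw [if_neg he, if_pos (by rw [Nat.even_add_one]; exact he), neg_mul]
      by_cases hqq : (q' : ℕ) = q + 1
      · refine SumC_Mid π (q := q) (by have := q'.2; omega) hB fun a => ?_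
        rw [hface, hface]
        set a' : ℕ → A := Function.update (Function.update a q (a q * a (q + 1))) (q + 1) 1 with ha'
        have hmu : mu p (word (m + 1) (Lt (m + 1) a) σ) = mu p (word (m + 1) (Lt (m + 1) a') σ) := ?_
        · rw [hmu]
        funext k
        unfold mu
        have hne : ∀ r : Fin (m + 1), r ≠ q → r ≠ q' → a r = a' r := by
          intro r h1 h2
          rw [ha', Function.update_of_ne (fun h => h2 (Fin.ext (by rw [h, hqq]))),
            Function.update_of_ne (fun h => h1 (Fin.ext h))]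
        rcases lt_trichotomy k p with hk | hk | hk
        · rw [if_pos hk, if_pos hk]
          refine Q30_congr σ hσ _ _ k fun r hr => hne r ?_ ?_
          · intro h; rw [h, hq] at hr; omega
          · intro h; rw [h, hq'] at hr; omega
        · subst hk
          rw [if_neg (lt_irrefl _), if_pos rfl, if_neg (lt_irrefl _), if_pos rfl, hprod, hprod, hqq,
            Lt_pair (m + 1) a q]
        · rw [if_neg (by omega), if_neg (by omega), if_neg (by omega), if_neg (by omega)]
          refine Q30_congr σ hσ _ _ (k + 1) fun r hr => hne r ?_ ?_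
          · intro h; rw [h, hq] at hr; omega
          · intro h; rw [h, hq'] at hr; omega
      · refine hzero fun a => ?_
        rw [hface, Q30_zero hp hP _ ?_]
        · rfl
        · unfold mu
          rw [if_neg (lt_irrefl _), if_pos rfl, hprod, Lt_mul (m + 1) a q q' hqq, neg_zero]
    · -- right face
      have him : i = m + 1 := by omega
      subst him
      obtain ⟨q1, hq1⟩ := Q30_surj σ hσ m (by omega)
      have hface : ∀ a : ℕ → A, (fc (piM (m + 1 + 1) π) m (m + 1) P
          (word (m + 1) (Lt (m + 1) a) σ)) 0 (Fin.last (m + 1)) = (if Even m then (1 : ℂ) else -1) •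
          (if (q1 : ℕ) + 1 = m + 1 then (P (word (m + 1) (Lt (m + 1) a) σ)) 0
            ⟨m + 1 - 1, by omega⟩ * π (a q1) else 0) := by
        intro a
        have e : fc (piM (m + 1 + 1) π) m (m + 1) P (word (m + 1) (Lt (m + 1) a) σ) =
            (if Even m then (1 : ℂ) else -1) •
              (P (word (m + 1) (Lt (m + 1) a) σ) * piM (m + 1 + 1) π (Lt (m + 1) a q1)) := by
          unfold fc
          rw [if_neg h0, if_neg hm, Q30_letter σ hσ a q1 m hq1]
          by_cases he : Even m
          · rw [if_pos he, if_pos he, one_smul]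
          · rw [if_neg he, if_neg he, map_neg, mul_neg, neg_smul, one_smul]
        rw [e, CStarMatrix.smul_apply, mul_piLt_entry π (m + 1) a q1 q1.2]
      by_cases hq : (q1 : ℕ) + 1 = m + 1
      · refine SumC_R π hB fun a => ?_
        have hq' : (q1 : ℕ) = m := by omega
        rw [hface, hface, if_pos hq, if_pos hq]
        have e : P (word (m + 1) (Lt (m + 1) a) σ) =
            P (word (m + 1) (Lt (m + 1) (Function.update a m 1)) σ) := by
          refine hP.dep _ _ fun k hk => ?_
          refine Q30_congr σ hσ _ _ k fun q hqk => ?_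
          have : (q : ℕ) ≠ m := by
            intro h
            have : q = q1 := Fin.ext (by rw [h, hq'])
            rw [this, hq1] at hqk
            omega
          rw [Function.update_of_ne this]
        rw [← e, hq', Function.update_self, map_one, mul_one, smul_mul_assoc]
      · exact hzero fun a => by rw [hface, if_neg hq, smul_zero]

end H730HC
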