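import Pool.Agent.H730R3.HB.Defs
import Pool.Agent.H730R3.HC.Final

set_option autoImplicit false

namespace H730HC

open Finset
open scoped ComplexConjugate

universe u v

variable {A : Type u} [CStarAlgebra A] {N : Type u} [CStarAlgebra N] (π : A →⋆ₐ[ℂ] N) {τ : N →ₗ[ℂ] ℂ}

attribute [local instance] CStarAlgebra.spectralOrder CStarAlgebra.spectralOrderedRing



/-- the matrix with the entry `c` at `(0,0)` -/
theorem Q37_single_mul (n : ℕ) (c : N) (x : CStarMatrix (Fin (n + 1)) (Fin (n + 1)) N)
    (l : Fin (n + 1)) :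
    ((CStarMatrix.ofMatrix (Matrix.single 0 0 c) : CStarMatrix (Fin (n + 1)) (Fin (n + 1)) N) * x)
      0 l = c * x 0 l := by
  classical
  rw [CStarMatrix.mul_apply, Finset.sum_eq_single 0]
  · simp [CStarMatrix.ofMatrix_apply]
  · intro k _ hk
    have : (CStarMatrix.ofMatrix (Matrix.single 0 0 c) :
        CStarMatrix (Fin (n + 1)) (Fin (n + 1)) N) 0 k = 0 := by
      simp [CStarMatrix.ofMatrix_apply, Ne.symm hk]
    rw [this, zero_mul]
  · intro h
    exact absurd (Finset.mem_univ _) h

theorem Q37_mul_single (n : ℕ) (c : N) (x : CStarMatrix (Fin (n + 1)) (Fin (n + 1)) N)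
    (l : Fin (n + 1)) :
    (x * (CStarMatrix.ofMatrix (Matrix.single 0 0 c) : CStarMatrix (Fin (n + 1)) (Fin (n + 1)) N))
      0 l = if l = 0 then x 0 0 * c else 0 := by
  classical
  rw [CStarMatrix.mul_apply]
  split_ifs with hl
  · subst hl
    rw [Finset.sum_eq_single 0]
    · simp [CStarMatrix.ofMatrix_apply]
    · intro k _ hk
      have : (CStarMatrix.ofMatrix (Matrix.single 0 0 c) :
          CStarMatrix (Fin (n + 1)) (Fin (n + 1)) N) k 0 = 0 := by
        simp [CStarMatrix.ofMatrix_apply, Ne.symm hk]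
      rw [this, mul_zero]
    · intro h
      exact absurd (Finset.mem_univ _) h
  · refine Finset.sum_eq_zero fun k _ => ?_
    have : (CStarMatrix.ofMatrix (Matrix.single 0 0 c) :
        CStarMatrix (Fin (n + 1)) (Fin (n + 1)) N) k l = 0 := by
      simp [CStarMatrix.ofMatrix_apply, Ne.symm hl]
    rw [this, mul_zero]

theorem Q37_piM_single (n : ℕ) (c : A) :
    piM (n + 1) π (CStarMatrix.ofMatrix (Matrix.single 0 0 c)) =
      (CStarMatrix.ofMatrix (Matrix.single 0 0 (π c)) :
        CStarMatrix (Fin (n + 1)) (Fin (n + 1)) N) := by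
  classical
  ext k l
  show π ((CStarMatrix.ofMatrix (Matrix.single 0 0 c) :
        CStarMatrix (Fin (n + 1)) (Fin (n + 1)) A) k l) = _
  rw [CStarMatrix.ofMatrix_apply, CStarMatrix.ofMatrix_apply, Matrix.single_apply,
    Matrix.single_apply, apply_ite π, map_zero]

theorem com_matrix (n : ℕ) (hn : 1 ≤ n) (x : CStarMatrix (Fin (n + 1)) (Fin (n + 1)) N)
    (hx : IsCom (piM (n + 1) π) x) :
    x 0 (Fin.last n) = 0 ∧ IsCom π (x 0 0) ∧
      ∀ (y : CStarMatrix (Fin (n + 1)) (Fin (n + 1)) N) (l : Fin (n + 1)), (x * y) 0 l = x 0 0 * y 0 l := by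
  classical
  have key : ∀ (c : A) (l : Fin (n + 1)),
      π c * x 0 l = if l = 0 then x 0 0 * π c else 0 := by
    intro c l
    have h1 := hx (CStarMatrix.ofMatrix (Matrix.single 0 0 c))
    rw [Q37_piM_single] at h1
    have h2 := congrFun (congrFun h1 0) l
    rw [Q37_single_mul, Q37_mul_single] at h2
    exact h2
  have hoff : ∀ l : Fin (n + 1), l ≠ 0 → x 0 l = 0 := by
    intro l hl
    have h1 := key 1 l
    rw [map_one, one_mul, if_neg hl] at h1
    exact h1
  refine ⟨?_, ?_, ?_⟩
  · apply hoff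
    intro h
    have := congrArg Fin.val h
    simp at this
    omega
  · intro c
    have h1 := key c 0
    rw [if_pos rfl] at h1
    exact h1
  · intro y l
    rw [CStarMatrix.mul_apply, Finset.sum_eq_single 0]
    · intro k _ hk
      rw [hoff k hk, zero_mul]
    · intro h
      exact absurd (Finset.mem_univ _) h

end H730HC
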