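import Pool.Agent.H730R3.HB.Defs
import Pool.Agent.H730R3.HB.Q37
import Pool.Agent.H730R3.HB.Q39
import Pool.Agent.H730R3.HB.Q28
import Pool.Agent.H730R3.HC.Final

set_option autoImplicit false

namespace H730HC

open Finset
open scoped ComplexConjugate

universe u v

variable {A : Type u} [CStarAlgebra A] {N : Type u} [CStarAlgebra N] (π : A →⋆ₐ[ℂ] N) {τ : N →ₗ[ℂ] ℂ}

attribute [local instance] CStarAlgebra.spectralOrder CStarAlgebra.spectralOrderedRing



theorem Q31_isB_pr (π : A →⋆ₐ[ℂ] N) (z : N) (n : ℕ) :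
    IsB n (fun a : ℕ → A => z * π (pr n a)) := by
  have hπ : ∀ x : A, ‖π x‖ ≤ 1 * ‖x‖ := fun x => by
    rw [one_mul]
    exact NonUnitalStarAlgHom.norm_apply_le π x
  obtain ⟨L, hL⟩ : ∃ L : A →L[ℂ] N, ∀ x, L x = z * π x :=
    ⟨(ContinuousLinearMap.mul ℂ N z).comp
      (LinearMap.mkContinuous (π.toAlgHom.toLinearMap : A →ₗ[ℂ] N) 1 hπ), fun _ => rfl⟩
  have h := IsB_comp (T31_pr (M := A) n) L
  simp only [hL] at h
  exact h

theorem SumC_Q {m d : ℕ} {Q : (ℕ → CStarMatrix (Fin (m + 1 + 1)) (Fin (m + 1 + 1)) A) →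
      CStarMatrix (Fin (m + 1 + 1)) (Fin (m + 1 + 1)) N} (hd : Even d) (hQ : IsB d Q)
    (hQc : ∀ X, IsCom (piM (m + 1 + 1) π) (Q X)) (σ : Fin (m + 1) → Fin (d + 1)) :
    SumC π m 0 (fun a : ℕ → A => (Q (word (m + 1) (Lt (m + 1) a) σ) *
      piM (m + 1 + 1) π (word (m + 1) (Lt (m + 1) a) σ d)) 0 (Fin.last (m + 1))) := by
  have h1 : ∀ a : ℕ → A, (Q (word (m + 1) (Lt (m + 1) a) σ) *
      piM (m + 1 + 1) π (word (m + 1) (Lt (m + 1) a) σ d)) 0 (Fin.last (m + 1)) =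
      (Q (word (m + 1) (Lt (m + 1) a) σ)) 0 0 *
        (if ∀ q, (σ q : ℕ) = d then π (pr (m + 1) a) else 0) := by
    intro a
    rw [(com_matrix π (m + 1) (by omega) _ (hQc _)).2.2]
    congr 1
    have h2 : (piM (m + 1 + 1) π (word (m + 1) (Lt (m + 1) a) σ d)) 0 (Fin.last (m + 1)) =
        π ((word (m + 1) (Lt (m + 1) a) σ d) 0 (Fin.last (m + 1))) := rfl
    rw [h2, word_full (m + 1) (d + 1) (by omega) a σ d hd]
    split_ifs
    · rfl
    · exact map_zero π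
  simp only [h1]
  by_cases hσ : ∀ q, (σ q : ℕ) = d
  · simp only [if_pos hσ]
    have h2 : ∀ a : ℕ → A, Q (word (m + 1) (Lt (m + 1) a) σ) = Q (fun _ => 1) := by
      intro a
      apply hQ.dep
      intro k hk
      exact T31_word_one k (m + 1) _ σ (fun q => by rw [hσ q]; omega)
    simp only [h2]
    obtain ⟨z, hz⟩ : ∃ z : N, z = (Q (fun _ => 1)) 0 0 := ⟨_, rfl⟩
    have hzc : IsCom π z := by
      rw [hz]
      exact (com_matrix π (m + 1) (by omega) _ (hQc _)).2.1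
    rw [← hz]
    apply SumC_L
    · exact Q31_isB_pr π z (m + 1)
    · intro a
      simp only [pr, T31_shift_zero, Function.update_self, one_mul]
      rw [map_mul, ← mul_assoc, ← mul_assoc, hzc (a 0)]
  · simp only [if_neg hσ, mul_zero]
    exact SumC_zero π m

end H730HC
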