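import Pool.Agent.H730R3.HB.Defs
import Pool.Agent.H730R3.HB.Q26
import Pool.Agent.H730R3.HC.Final

set_option autoImplicit false

namespace H730HC

open Finset
open scoped ComplexConjugate

universe u v

variable {A : Type u} [CStarAlgebra A] {N : Type u} [CStarAlgebra N] (π : A →⋆ₐ[ℂ] N) {τ : N →ₗ[ℂ] ℂ}

attribute [local instance] CStarAlgebra.spectralOrder CStarAlgebra.spectralOrderedRing



theorem Q41_ampc_sum {J : ℕ} {ι : Type*} (s : Finset ι) (c : ι → ℂ) : ∀ (n : ℕ) (k l : Fin J)
    (T : ι → (ℕ → A) → N) (X : ℕ → Fin J → Fin J → A),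
    ampc n k l (fun a => ∑ i ∈ s, c i • T i a) X = ∑ i ∈ s, c i • ampc n k l (T i) X := by
  intro n
  induction n with
  | zero =>
    intro k l T X
    unfold ampc
    split_ifs with h
    · rfl
    · simp
  | succ n ih =>
    intro k l T X
    simp only [ampc]
    have e : ∀ j : Fin J, ampc n j l (fun a => ∑ i ∈ s, c i • T i (cons (X 0 k j) a))
        (fun i => X (i + 1)) = ∑ i ∈ s, c i • ampc n j l (fun a => T i (cons (X 0 k j) a))
        (fun i => X (i + 1)) := fun j => ih j l (fun i a => T i (cons (X 0 k j) a)) _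
    simp only [e]
    rw [Finset.sum_comm]
    exact Finset.sum_congr rfl (fun i _ => (Finset.smul_sum).symm)

theorem Q41_ampc_zero {J : ℕ} : ∀ (n : ℕ) (k l : Fin J) (X : ℕ → Fin J → Fin J → A),
    ampc n k l (fun _ : ℕ → A => (0 : N)) X = 0 := by
  intro n
  induction n with
  | zero => intro k l X; unfold ampc; simp
  | succ n ih =>
    intro k l X
    simp only [ampc, ih]
    exact Finset.sum_const_zero

/-- entries as an additive map -/
def Q41_ent {J : ℕ} (k l : Fin J) : CStarMatrix (Fin J) (Fin J) N →+ N where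
  toFun B := B k l
  map_zero' := rfl
  map_add' _ _ := rfl

theorem ampMc_cocycle {m J : ℕ} {T : (ℕ → A) → N} (hT : IsB m T) (hc : ∀ a, dc π m T a = 0)
    (X : ℕ → CStarMatrix (Fin J) (Fin J) A) : dc (piM J π) m (ampMc m T) X = 0 := by
  have h1 : dc (piM J π) m (ampMc m T) X = ∑ i ∈ range (m + 2), ((-1 : ℂ) ^ i) •
      ampMc (m + 1) (fc π m i T) X := by
    unfold dc
    refine Finset.sum_congr rfl (fun i hi => ?_)
    rw [ampMc_fc π (by rw [mem_range] at hi; omega) hT]
  rw [h1]
  refine CStarMatrix.ext (fun k l => ?_)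
  have h2 : (∑ i ∈ range (m + 2), ((-1 : ℂ) ^ i) • ampMc (m + 1) (fc π m i T) X) k l =
      ∑ i ∈ range (m + 2), ((-1 : ℂ) ^ i) • ampc (m + 1) k l (fc π m i T)
        (fun i p q => X i p q) := by
    have := map_sum (Q41_ent (N := N) k l) (fun i => ((-1 : ℂ) ^ i) •
      ampMc (m + 1) (fc π m i T) X) (range (m + 2))
    exact this
  rw [h2, ← Q41_ampc_sum]
  have h3 : (fun a => ∑ i ∈ range (m + 2), ((-1 : ℂ) ^ i) • fc π m i T a) = fun _ => (0 : N) := by
    funext a
    exact hc a
  rw [h3, Q41_ampc_zero]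
  rfl

end H730HC
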