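import Pool.Agent.H730R3.HB.Defs
import Pool.Agent.H730R3.HB.Q14
import Pool.Agent.H730R3.HB.Q39
import Pool.Agent.H730R3.HB.Q18
import Pool.Agent.H730R3.HB.Q21
import Pool.Agent.H730R3.HB.Q37
import Pool.Agent.H730R3.HB.Q25
import Pool.Agent.H730R3.HB.Q41
import Pool.Agent.H730R3.HB.Q27
import Pool.Agent.H730R3.HB.Q29
import Pool.Agent.H730R3.HB.Q30
import Pool.Agent.H730R3.HB.Q31
import Pool.Agent.H730R3.HC.Final

set_option autoImplicit false

namespace H730HC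

open Finset
open scoped ComplexConjugate

universe u v

variable {A : Type u} [CStarAlgebra A] {N : Type u} [CStarAlgebra N] (π : A →⋆ₐ[ℂ] N) {τ : N →ₗ[ℂ] ℂ}

attribute [local instance] CStarAlgebra.spectralOrder CStarAlgebra.spectralOrderedRing



theorem Q32_congr {m : ℕ} {f g : (ℕ → A) → N} (hf : SumC π m 0 f) (h : ∀ a, g a = f a) :
    SumC π m 0 g := by
  obtain ⟨w, hw, hs⟩ := hf
  exact ⟨w, hw, fun a => by rw [h a, hs a]⟩

theorem Q32_entry_sum {J : ℕ} {ι : Type*} (s : Finset ι) (f : ι → CStarMatrix (Fin J) (Fin J) N)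
    (k l : Fin J) : (∑ r ∈ s, f r) k l = ∑ r ∈ s, (f r) k l := by
  classical
  induction s using Finset.induction_on with
  | empty => simp [CStarMatrix.zero_apply]
  | insert a s ha ih => rw [Finset.sum_insert ha, Finset.sum_insert ha, CStarMatrix.add_apply, ih]

/-- the terms attached to the amplification of `T` -/
theorem Q32_F {m : ℕ} {T : (ℕ → A) → N} (hT : IsB (m + 1) T) :
    SumC π m 0 (fun a : ℕ → A =>
      (∑ σ : Fin (m + 1) → Fin (m + 1),
        (ampMc (J := m + 1 + 1) (m + 1) T (word (m + 1) (Lt (m + 1) a) σ)) 0 (Fin.last (m + 1)))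
        - ((-1 : ℂ) ^ ((m + 1) / 2)) • T a) := by
  classical
  have h1 : SumC π m 0 (fun a : ℕ → A =>
      ∑ σ ∈ (univ : Finset (Fin (m + 1) → Fin (m + 1))).filter (fun σ => ¬ Function.Injective σ),
        (ampMc (J := m + 1 + 1) (m + 1) T (word (m + 1) (Lt (m + 1) a) σ)) 0 (Fin.last (m + 1))) := by
    refine SumC_sum π _ fun σ hσ => ?_
    exact SumC_noninj π (IsB_ampMc hT) σ (Finset.mem_filter.1 hσ).2
  refine Q32_congr π h1 fun a => ?_
  rw [← Finset.sum_filter_add_sum_filter_not univ (fun σ : Fin (m + 1) → Fin (m + 1) =>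
    Function.Injective σ)]
  have h2 : ∑ σ ∈ (univ : Finset (Fin (m + 1) → Fin (m + 1))).filter (fun σ => Function.Injective σ),
      (ampMc (J := m + 1 + 1) (m + 1) T (word (m + 1) (Lt (m + 1) a) σ)) 0 (Fin.last (m + 1))
      = ((-1 : ℂ) ^ ((m + 1) / 2)) • T a := by
    rw [Finset.sum_congr rfl (fun σ hσ => ampMc_word hT a σ (Finset.mem_filter.1 hσ).2)]
    rw [Finset.sum_eq_single (fun q => q)]
    · simp
    · intro σ _ hne
      rw [if_neg]
      intro h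
      exact hne (funext h)
    · intro h
      exact absurd (Finset.mem_filter.2 ⟨Finset.mem_univ _, fun x y hxy => hxy⟩) h
  rw [h2]
  abel

theorem Q32_face {m i : ℕ} (hi : i ≤ m + 1) {P : (ℕ → CStarMatrix (Fin (m + 1 + 1)) (Fin (m + 1 + 1)) A) →
      CStarMatrix (Fin (m + 1 + 1)) (Fin (m + 1 + 1)) N} (hP : IsB m P) :
    SumC π m 0 (fun a : ℕ → A =>
      ∑ σ : Fin (m + 1) → Fin (m + 1),
        ((((-1 : ℂ) ^ i) • fc (piM (m + 1 + 1) π) m i P (word (m + 1) (Lt (m + 1) a) σ)) :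
          CStarMatrix (Fin (m + 1 + 1)) (Fin (m + 1 + 1)) N) 0 (Fin.last (m + 1))) := by
  refine SumC_sum π _ fun σ _ => ?_
  refine Q32_congr π (SumC_smul π ((-1 : ℂ) ^ i) (?_ : SumC π m 0 (fun a : ℕ → A =>
    (fc (piM (m + 1 + 1) π) m i P (word (m + 1) (Lt (m + 1) a) σ)) 0 (Fin.last (m + 1))))) fun a => ?_
  · by_cases hσ : Function.Injective σ
    · exact SumC_face π hi hP σ hσ
    · exact SumC_noninj π (IsB_fc (piM (m + 1 + 1) π) hi hP) σ hσ
  · rw [CStarMatrix.smul_apply]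

/-- the degrees -/
def Q32_d (m e : ℕ) : ℕ → ℕ
  | 0 => m + 1
  | 1 => e
  | _ + 2 => m + 1

/-- the family of terms -/
noncomputable def Q32_L {A' : Type u} {N' : Type u} [Mul A'] [Ring N'] [Algebra ℂ N'] (π' : A' → N')
    (m : ℕ) (F q : (ℕ → A') → N') (P : ℕ → (ℕ → A') → N') : ℕ → (ℕ → A') → N'
  | 0 => F
  | 1 => fun X => (-1 : ℂ) • q X
  | i + 2 => fun X => ((-1 : ℂ) ^ i) • fc π' m i (P i) X

theorem Q32_core {m : ℕ} {T : (ℕ → A) → N} (hT : IsB (m + 1) T)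
    (P : ℕ → (ℕ → CStarMatrix (Fin (m + 1 + 1)) (Fin (m + 1 + 1)) A) →
      CStarMatrix (Fin (m + 1 + 1)) (Fin (m + 1 + 1)) N) (hP : ∀ i, IsB m (P i)) (e : ℕ)
    (q : (ℕ → CStarMatrix (Fin (m + 1 + 1)) (Fin (m + 1 + 1)) A) →
      CStarMatrix (Fin (m + 1 + 1)) (Fin (m + 1 + 1)) N) (hq : IsB e q)
    (hqS : ∀ σ : Fin (m + 1) → Fin e, SumC π m 0 (fun a : ℕ → A =>
      (q (word (m + 1) (Lt (m + 1) a) σ)) 0 (Fin.last (m + 1))))
    (h0 : ∀ g : unitary (CStarMatrix (Fin (m + 1 + 1)) (Fin (m + 1 + 1)) A),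
      ampMc (m + 1) T (al (g : CStarMatrix (Fin (m + 1 + 1)) (Fin (m + 1 + 1)) A)) =
        q (al (g : CStarMatrix (Fin (m + 1 + 1)) (Fin (m + 1 + 1)) A)) -
          ∑ i ∈ range (m + 2), ((-1 : ℂ) ^ i) •
            fc (piM (m + 1 + 1) π) m i (P i)
              (al (g : CStarMatrix (Fin (m + 1 + 1)) (Fin (m + 1 + 1)) A))) :
    SumC π m 0 T := by
  have hB : ∀ r ∈ range (m + 4), IsB (Q32_d m e r)
      (Q32_L (piM (m + 1 + 1) π) m (ampMc (m + 1) T) q P r) := by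
    intro r hr
    rw [Finset.mem_range] at hr
    match r, hr with
    | 0, _ => exact IsB_ampMc hT
    | 1, _ => exact IsB_smul (-1 : ℂ) hq
    | i + 2, hr => exact IsB_smul ((-1 : ℂ) ^ i) (IsB_fc (piM (m + 1 + 1) π) (by omega) (hP i))
  have hS : ∀ g : unitary (CStarMatrix (Fin (m + 1 + 1)) (Fin (m + 1 + 1)) A),
      ∑ r ∈ range (m + 4), Q32_L (piM (m + 1 + 1) π) m (ampMc (m + 1) T) q P r
        (al (g : CStarMatrix (Fin (m + 1 + 1)) (Fin (m + 1 + 1)) A)) = 0 := by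
    intro g
    rw [Finset.sum_range_succ', Finset.sum_range_succ']
    have h1 := h0 g
    have h2 : ∑ i ∈ range (m + 2), Q32_L (piM (m + 1 + 1) π) m (ampMc (m + 1) T) q P (i + 1 + 1)
        (al (g : CStarMatrix (Fin (m + 1 + 1)) (Fin (m + 1 + 1)) A)) =
        ∑ i ∈ range (m + 2), ((-1 : ℂ) ^ i) •
            fc (piM (m + 1 + 1) π) m i (P i)
              (al (g : CStarMatrix (Fin (m + 1 + 1)) (Fin (m + 1 + 1)) A)) :=
      Finset.sum_congr rfl fun i _ => rfl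
    have h3 : Q32_L (piM (m + 1 + 1) π) m (ampMc (m + 1) T) q P (0 + 1)
        (al (g : CStarMatrix (Fin (m + 1 + 1)) (Fin (m + 1 + 1)) A)) =
        -(q (al (g : CStarMatrix (Fin (m + 1 + 1)) (Fin (m + 1 + 1)) A))) := by
      show (-1 : ℂ) • q (al (g : CStarMatrix (Fin (m + 1 + 1)) (Fin (m + 1 + 1)) A)) = _
      rw [neg_smul, one_smul]
    have h4 : Q32_L (piM (m + 1 + 1) π) m (ampMc (m + 1) T) q P 0
        (al (g : CStarMatrix (Fin (m + 1 + 1)) (Fin (m + 1 + 1)) A)) =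
        ampMc (m + 1) T (al (g : CStarMatrix (Fin (m + 1 + 1)) (Fin (m + 1 + 1)) A)) := rfl
    rw [h2, h3, h4, h1]
    abel
  have hpol : ∀ a : ℕ → A, ∑ r ∈ range (m + 4), ∑ σ : Fin (m + 1) → Fin (Q32_d m e r),
      (Q32_L (piM (m + 1 + 1) π) m (ampMc (m + 1) T) q P r (word (m + 1) (Lt (m + 1) a) σ)) 0
        (Fin.last (m + 1)) = 0 := by
    intro a
    have h := pol_c (range (m + 4)) (Q32_d m e)
      (Q32_L (piM (m + 1 + 1) π) m (ampMc (m + 1) T) q P) hB hS (m + 1) (Lt (m + 1) a)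
    have h' := congrArg (fun Y : CStarMatrix (Fin (m + 1 + 1)) (Fin (m + 1 + 1)) N =>
      Y 0 (Fin.last (m + 1))) h
    simp only [Q32_entry_sum, CStarMatrix.zero_apply] at h'
    exact h'
  have hfa : ∀ i ∈ range (m + 2), SumC π m 0 (fun a : ℕ → A =>
      ∑ σ : Fin (m + 1) → Fin (m + 1),
        ((((-1 : ℂ) ^ i) • fc (piM (m + 1 + 1) π) m i (P i) (word (m + 1) (Lt (m + 1) a) σ)) :
          CStarMatrix (Fin (m + 1 + 1)) (Fin (m + 1 + 1)) N) 0 (Fin.last (m + 1))) := by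
    intro i hi
    rw [Finset.mem_range] at hi
    exact Q32_face π (by omega) (hP i)
  have hfs := SumC_sum π (range (m + 2)) hfa
  have hqs : SumC π m 0 (fun a : ℕ → A => ∑ σ : Fin (m + 1) → Fin e,
      (q (word (m + 1) (Lt (m + 1) a) σ)) 0 (Fin.last (m + 1))) := SumC_sum π _ fun σ _ => hqS σ
  have hF := Q32_F π hT
  have htot := SumC_smul π (-((-1 : ℂ) ^ ((m + 1) / 2)))
    (SumC_add π (SumC_add π hF (SumC_smul π (-1 : ℂ) hqs)) hfs)
  refine Q32_congr π htot fun a => ?_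
  have h := hpol a
  rw [Finset.sum_range_succ', Finset.sum_range_succ'] at h
  have h3 : ∑ σ : Fin (m + 1) → Fin (Q32_d m e (0 + 1)),
      (Q32_L (piM (m + 1 + 1) π) m (ampMc (m + 1) T) q P (0 + 1) (word (m + 1) (Lt (m + 1) a) σ)) 0
        (Fin.last (m + 1))
      = (-1 : ℂ) • ∑ σ : Fin (m + 1) → Fin e,
        (q (word (m + 1) (Lt (m + 1) a) σ)) 0 (Fin.last (m + 1)) := by
    rw [Finset.smul_sum]
    refine Finset.sum_congr rfl fun σ _ => ?_
    show ((-1 : ℂ) • q (word (m + 1) (Lt (m + 1) a) σ)) 0 (Fin.last (m + 1)) = _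
    rw [CStarMatrix.smul_apply]
    rfl
  rw [h3] at h
  have h2 : ∑ i ∈ range (m + 2), ∑ σ : Fin (m + 1) → Fin (Q32_d m e (i + 1 + 1)),
      (Q32_L (piM (m + 1 + 1) π) m (ampMc (m + 1) T) q P (i + 1 + 1)
        (word (m + 1) (Lt (m + 1) a) σ)) 0 (Fin.last (m + 1)) =
      ∑ i ∈ range (m + 2), ∑ σ : Fin (m + 1) → Fin (m + 1),
        ((((-1 : ℂ) ^ i) • fc (piM (m + 1 + 1) π) m i (P i) (word (m + 1) (Lt (m + 1) a) σ)) :
          CStarMatrix (Fin (m + 1 + 1)) (Fin (m + 1 + 1)) N) 0 (Fin.last (m + 1)) := rfl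
  rw [h2] at h
  have h4 : ∑ σ : Fin (m + 1) → Fin (Q32_d m e 0),
      (Q32_L (piM (m + 1 + 1) π) m (ampMc (m + 1) T) q P 0 (word (m + 1) (Lt (m + 1) a) σ)) 0
        (Fin.last (m + 1)) =
      ∑ σ : Fin (m + 1) → Fin (m + 1),
        (ampMc (J := m + 1 + 1) (m + 1) T (word (m + 1) (Lt (m + 1) a) σ)) 0 (Fin.last (m + 1)) := rfl
  rw [h4] at h
  set A1 := ∑ i ∈ range (m + 2), ∑ σ : Fin (m + 1) → Fin (m + 1),
        ((((-1 : ℂ) ^ i) • fc (piM (m + 1 + 1) π) m i (P i) (word (m + 1) (Lt (m + 1) a) σ)) :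
          CStarMatrix (Fin (m + 1 + 1)) (Fin (m + 1 + 1)) N) 0 (Fin.last (m + 1)) with hA1
  set A2 := ∑ σ : Fin (m + 1) → Fin e,
        (q (word (m + 1) (Lt (m + 1) a) σ)) 0 (Fin.last (m + 1)) with hA2
  set A3 := ∑ σ : Fin (m + 1) → Fin (m + 1),
        (ampMc (J := m + 1 + 1) (m + 1) T (word (m + 1) (Lt (m + 1) a) σ)) 0 (Fin.last (m + 1)) with hA3
  have h5 : A3 - ((-1 : ℂ) ^ ((m + 1) / 2)) • T a + (-1 : ℂ) • A2 + A1 =
      -(((-1 : ℂ) ^ ((m + 1) / 2)) • T a) := by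
    have h6 : A3 - ((-1 : ℂ) ^ ((m + 1) / 2)) • T a + (-1 : ℂ) • A2 + A1 =
      (A1 + (-1 : ℂ) • A2 + A3) - ((-1 : ℂ) ^ ((m + 1) / 2)) • T a := by abel
    rw [h6, h, zero_sub]
  rw [h5, neg_smul, smul_neg, neg_neg, smul_smul, ← mul_pow]
  norm_num

theorem Q32_mulB {A' : Type u} {N' : Type u} [CStarAlgebra A'] [CStarAlgebra N'] (π' : A' →⋆ₐ[ℂ] N')
    {n : ℕ} {Q : (ℕ → A') → N'} (hQ : IsB n Q) :
    IsB (n + 1) (fun X => Q X * π' (X n)) := by
  obtain ⟨hdep, hadd, hsmul, C, hC, hbd⟩ := hQ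
  refine ⟨?_, ?_, ?_, C, hC, ?_⟩
  · intro a b h
    show Q a * π' (a n) = Q b * π' (b n)
    rw [hdep a b fun k hk => h k (by omega), h n (by omega)]
  · intro a k x y hk
    show Q (Function.update a k (x + y)) * π' (Function.update a k (x + y) n) = _
    rcases Nat.lt_or_ge k n with h | h
    · rw [hadd a k x y h, add_mul]
      simp only [Function.update_of_ne (show n ≠ k by omega)]
    · have hkn : k = n := by omega
      subst hkn
      have hu : ∀ z : A', Q (Function.update a k z) = Q a := fun z =>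
        hdep _ _ fun i hi => by rw [Function.update_of_ne (show i ≠ k by omega)]
      simp only [hu, Function.update_self, map_add, mul_add]
  · intro a k c x hk
    show Q (Function.update a k (c • x)) * π' (Function.update a k (c • x) n) = _
    rcases Nat.lt_or_ge k n with h | h
    · rw [hsmul a k c x h, smul_mul_assoc]
      simp only [Function.update_of_ne (show n ≠ k by omega)]
    · have hkn : k = n := by omega
      subst hkn
      have hu : ∀ z : A', Q (Function.update a k z) = Q a := fun z =>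
        hdep _ _ fun i hi => by rw [Function.update_of_ne (show i ≠ k by omega)]
      simp only [hu, Function.update_self, map_smul, mul_smul_comm]
  · intro a
    rw [Finset.prod_range_succ]
    have hπ : ‖π' (a n)‖ ≤ ‖a n‖ := NonUnitalStarAlgHom.norm_apply_le π' (a n)
    calc ‖Q a * π' (a n)‖ ≤ ‖Q a‖ * ‖π' (a n)‖ := norm_mul_le _ _
      _ ≤ ‖Q a‖ * ‖a n‖ := mul_le_mul_of_nonneg_left hπ (norm_nonneg _)
      _ ≤ (C * ∏ k ∈ range n, ‖a k‖) * ‖a n‖ := mul_le_mul_of_nonneg_right (hbd a) (norm_nonneg _)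
      _ = C * ((∏ k ∈ range n, ‖a k‖) * ‖a n‖) := by ring

theorem main_sum_c (hτ : IsTracial N τ) (m : ℕ) (T : (ℕ → A) → N) (hT : IsB (m + 1) T)
    (hc : ∀ a, dc π (m + 1) T a = 0) : SumC π m 0 T := by
  obtain ⟨P, Q, hP, hQc, h⟩ := key_c (piM (m + 1 + 1) π) (tracial_matrix hτ (m + 1)) m
    (ampMc (m + 1) T) (IsB_ampMc hT) (ampMc_cocycle π hT hc)
  rcases h with ⟨_, hQ, hg⟩ | ⟨hodd, hQ, hg⟩
  · refine Q32_core π hT P hP (m + 1) Q hQ (fun σ => ?_) hg
    refine Q32_congr π (SumC_zero π m) fun a => ?_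
    exact (com_matrix π (m + 1) (by omega) _ (hQc _)).1
  · have hev : Even (m + 2) := by
      rcases hodd with ⟨k, hk⟩
      exact ⟨k + 1, by omega⟩
    refine Q32_core π hT P hP (m + 2 + 1) (fun X => Q X * piM (m + 1 + 1) π (X (m + 2)))
      (Q32_mulB (piM (m + 1 + 1) π) hQ) (fun σ => ?_) ?_
    · exact SumC_Q π hev hQ hQc σ
    · intro g
      rw [hg g]
      have hal : al (g : CStarMatrix (Fin (m + 1 + 1)) (Fin (m + 1 + 1)) A) (m + 2) = g := by
        show (if Even (m + 2) then _ else _) = _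
        rw [if_pos hev]
      show _ = Q _ * piM (m + 1 + 1) π
        (al (g : CStarMatrix (Fin (m + 1 + 1)) (Fin (m + 1 + 1)) A) (m + 2)) - _
      rw [hal]

end H730HC
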