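import Pool.Agent.H730R3.HB.Defs
import Pool.Agent.H730R3.HB.Q14
import Pool.Agent.H730R3.HC.Final

set_option autoImplicit false

namespace H730HC

open Finset
open scoped ComplexConjugate

universe u v

variable {A : Type u} [CStarAlgebra A] {N : Type u} [CStarAlgebra N] (π : A →⋆ₐ[ℂ] N) {τ : N →ₗ[ℂ] ℂ}

theorem Q33_dc (m : ℕ) (θ : (Fin m → A) → N) (a : ℕ → A) :
    dc π m (fun a => θ (fun i : Fin m => a i)) a =
      π (a 0) * θ (Fin.tail (fun i : Fin (m + 1) => a i))
          + ∑ i : Fin m, (-1 : ℂ) ^ (i.val + 1) •
              θ (fun j : Fin m =>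
                if j < i then (fun i : Fin (m + 1) => a i) j.castSucc
                else if j = i then (fun i : Fin (m + 1) => a i) j.castSucc *
                  (fun i : Fin (m + 1) => a i) j.succ
                else (fun i : Fin (m + 1) => a i) j.succ)
          + (-1 : ℂ) ^ (m + 1) • (θ (Fin.init (fun i : Fin (m + 1) => a i)) * π (a m)) := by
  unfold dc
  rw [Finset.sum_range_succ, Finset.sum_range_succ', pow_zero, one_smul]
  have h0 : fc π m 0 (fun a => θ (fun i : Fin m => a i)) a =
      π (a 0) * θ (Fin.tail (fun i : Fin (m + 1) => a i)) := by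
    simp only [fc, if_true]
    rfl
  have h1 : fc π m (m + 1) (fun a => θ (fun i : Fin m => a i)) a =
      θ (Fin.init (fun i : Fin (m + 1) => a i)) * π (a m) := by
    simp only [fc]
    rw [if_neg (by omega), if_neg (by omega)]
    rfl
  have h2 : ∑ i ∈ range m, (-1 : ℂ) ^ (i + 1) • fc π m (i + 1) (fun a => θ (fun i : Fin m => a i)) a
      = ∑ i : Fin m, (-1 : ℂ) ^ (i.val + 1) •
              θ (fun j : Fin m =>
                if j < i then (fun i : Fin (m + 1) => a i) j.castSucc
                else if j = i then (fun i : Fin (m + 1) => a i) j.castSucc *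
                  (fun i : Fin (m + 1) => a i) j.succ
                else (fun i : Fin (m + 1) => a i) j.succ) := by
    rw [Finset.sum_range]
    refine Finset.sum_congr rfl fun i _ => ?_
    congr 1
    simp only [fc]
    rw [if_neg (by omega), if_pos (by have := i.isLt; omega), Nat.add_sub_cancel]
    congr 1
    funext j
    simp only [mu, Fin.val_castSucc, Fin.val_succ, Fin.lt_def, Fin.ext_iff]
    by_cases hji : (j : ℕ) < i
    · rw [if_pos hji, if_pos hji]
    · rw [if_neg hji, if_neg hji]
      by_cases hji' : (j : ℕ) = i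
      · rw [if_pos hji', if_pos hji', hji']
      · rw [if_neg hji', if_neg hji']
  rw [h0, h1, h2]
  abel

theorem transfer_c (n : ℕ)
    (hex : ∀ T : (ℕ → A) → N, IsB (n + 1) T → (∀ a, dc π (n + 1) T a = 0) →
      ∃ S : (ℕ → A) → N, IsB n S ∧ ∀ a, T a = dc π n S a)
    (φ : ContinuousMultilinearMap ℂ (fun _ : Fin (n + 1) => A) N)
    (hφ : ∀ a : Fin (n + 2) → A,
        π (a 0) * φ (Fin.tail a)
          + ∑ i : Fin (n + 1), (-1 : ℂ) ^ (i.val + 1) •
              φ (fun j : Fin (n + 1) =>
                if j < i then a j.castSucc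
                else if j = i then a j.castSucc * a j.succ
                else a j.succ)
          + (-1 : ℂ) ^ (n + 2) • (φ (Fin.init a) * π (a (Fin.last (n + 1)))) = 0) :
      ∃ ψ : ContinuousMultilinearMap ℂ (fun _ : Fin n => A) N,
        ∀ a : Fin (n + 1) → A,
          φ a = π (a 0) * ψ (Fin.tail a)
            + ∑ i : Fin n, (-1 : ℂ) ^ (i.val + 1) •
                ψ (fun j : Fin n =>
                  if j < i then a j.castSucc
                  else if j = i then a j.castSucc * a j.succ
                  else a j.succ)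
            + (-1 : ℂ) ^ (n + 1) • (ψ (Fin.init a) * π (a (Fin.last n))) := by
  -- the cochain on sequences
  have hT : IsB (n + 1) (fun a : ℕ → A => φ (fun i : Fin (n + 1) => a i)) := by
    refine ⟨?_, ?_, ?_, ‖φ‖, norm_nonneg _, ?_⟩
    · intro a b h
      show φ _ = φ _
      congr 1
      funext i
      exact h i i.isLt
    · intro a k x y hk
      show φ _ = φ _ + φ _
      rw [T33_restr_update a k hk, T33_restr_update a k hk, T33_restr_update a k hk]
      exact φ.map_update_add _ _ _ _
    · intro a k c x hk
      show φ _ = c • φ _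
      rw [T33_restr_update a k hk, T33_restr_update a k hk]
      exact φ.map_update_smul _ _ _ _
    · intro a
      rw [Finset.prod_range]
      exact φ.le_opNorm _
  obtain ⟨S, hS, hTS⟩ := hex _ hT (by
    intro a
    rw [Q33_dc π (n + 1) (fun b => φ b) a]
    exact hφ (fun i : Fin (n + 2) => a i))
  obtain ⟨C, hC, hSb⟩ := hS.bd
  let ψ₀ : MultilinearMap ℂ (fun _ : Fin n => A) N :=
    { toFun := fun b => S (T33_ext b)
      map_update_add' := by
        intro inst b i x y
        obtain rfl : inst = instDecidableEqFin n := Subsingleton.elim _ _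
        rw [T33_ext_update, T33_ext_update, T33_ext_update]
        exact hS.add _ _ _ _ i.isLt
      map_update_smul' := by
        intro inst b i c x
        obtain rfl : inst = instDecidableEqFin n := Subsingleton.elim _ _
        rw [T33_ext_update, T33_ext_update]
        exact hS.smul _ _ _ _ i.isLt }
  let ψ : ContinuousMultilinearMap ℂ (fun _ : Fin n => A) N := ψ₀.mkContinuous C (by
    intro b
    refine (hSb (T33_ext b)).trans (le_of_eq ?_)
    rw [Finset.prod_range]
    congr 1
    refine Finset.prod_congr rfl fun i _ => ?_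
    have := congrFun (T33_ext_apply b) i
    rw [this])
  have hψ : S = fun a => ψ (fun i : Fin n => a i) := by
    funext a
    refine hS.dep _ _ fun k hk => ?_
    simp [T33_ext, hk]
  refine ⟨ψ, fun a => ?_⟩
  have h1 : φ a = dc π n S (T33_ext a) := by
    rw [← hTS (T33_ext a)]
    show φ a = φ (fun i : Fin (n + 1) => T33_ext a i)
    rw [T33_ext_apply]
  rw [h1, hψ, Q33_dc π n (fun b => ψ b) (T33_ext a), T33_ext_apply]
  have h2 : T33_ext a 0 = a 0 := congrFun (T33_ext_apply a) 0
  have h3 : T33_ext a n = a (Fin.last n) := congrFun (T33_ext_apply a) (Fin.last n)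
  simp only [h2, h3]

end H730HC
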