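import Pool.Agent.H730R3.HB.Defs
import Pool.Agent.H730R3.HB.Q33
import Pool.Agent.H730R3.HB.Q15
import Pool.Agent.H730R3.HB.Q32
import Pool.Agent.H730R3.HC.Final

set_option autoImplicit false

namespace H730HC

open Finset
open scoped ComplexConjugate

universe u v

variable {A : Type u} [CStarAlgebra A] {N : Type u} [CStarAlgebra N] (π : A →⋆ₐ[ℂ] N) {τ : N →ₗ[ℂ] ℂ}



theorem final_BH (H : Type) [NormedAddCommGroup H] [InnerProductSpace ℂ H] [CompleteSpace H]
    (A N : StarSubalgebra ℂ (H →L[ℂ] H)) (hA : IsClosed (A : Set (H →L[ℂ] H)))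
    (hN : IsClosed (N : Set (H →L[ℂ] H))) (hAN : A ≤ N) (τ : (H →L[ℂ] H) → ℂ)
    (h_add : ∀ x ∈ N, ∀ y ∈ N, τ (x + y) = τ x + τ y) (h_smul : ∀ (c : ℂ), ∀ x ∈ N, τ (c • x) = c * τ x)
    (h_one : τ 1 = 1) (h_trace : ∀ x ∈ N, ∀ y ∈ N, τ (x * y) = τ (y * x))
    (h_nonneg : ∀ x ∈ N, 0 ≤ (τ (star x * x)).re) (h_real : ∀ x ∈ N, (τ (star x * x)).im = 0)
    (h_faithful : ∀ x ∈ N, (τ (star x * x)).re = 0 → x = 0)
    (h_complete : ∀ x : ℕ → (H →L[ℂ] H), (∀ k, x k ∈ N ∧ ‖x k‖ ≤ 1) →
      (∀ ε > 0, ∃ K, ∀ k ≥ K, ∀ l ≥ K, (τ (star (x k - x l) * (x k - x l))).re ≤ ε) →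
      ∃ y ∈ N, ‖y‖ ≤ 1 ∧ ∀ ε > 0, ∃ K, ∀ k ≥ K, (τ (star (x k - y) * (x k - y))).re ≤ ε)
    (n : ℕ) (φ : ContinuousMultilinearMap ℂ (fun _ : Fin (n + 1) => A) (H →L[ℂ] H))
    (hval : ∀ a, φ a ∈ N)
    (hφ : ∀ a : Fin (n + 2) → A,
        (a 0 : H →L[ℂ] H) * φ (Fin.tail a)
          + ∑ i : Fin (n + 1), (-1 : ℂ) ^ (i.val + 1) •
              φ (fun j : Fin (n + 1) =>
                if j < i then a j.castSucc
                else if j = i then a j.castSucc * a j.succ
                else a j.succ)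
          + (-1 : ℂ) ^ (n + 2) • (φ (Fin.init a) * (a (Fin.last (n + 1)) : H →L[ℂ] H)) = 0) :
      ∃ ψ : ContinuousMultilinearMap ℂ (fun _ : Fin n => A) (H →L[ℂ] H), (∀ a, ψ a ∈ N) ∧
        ∀ a : Fin (n + 1) → A,
          φ a = (a 0 : H →L[ℂ] H) * ψ (Fin.tail a)
            + ∑ i : Fin n, (-1 : ℂ) ^ (i.val + 1) •
                ψ (fun j : Fin n =>
                  if j < i then a j.castSucc
                  else if j = i then a j.castSucc * a j.succ
                  else a j.succ)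
            + (-1 : ℂ) ^ (n + 1) • (ψ (Fin.init a) * (a (Fin.last n) : H →L[ℂ] H)) := by
  have := hA
  have := hN
  let π : A →⋆ₐ[ℂ] N := StarSubalgebra.inclusion hAN
  let τ' : N →ₗ[ℂ] ℂ :=
    { toFun := fun x => τ (x : H →L[ℂ] H)
      map_add' := fun x y => h_add x x.2 y y.2
      map_smul' := fun c x => h_smul c x x.2 }
  have hτ' : IsTracial N τ' :=
    { one := h_one
      comm := fun x y => h_trace x x.2 y y.2
      nonneg := fun x => h_nonneg x x.2
      real := fun x => h_real x x.2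
      faithful := fun x hx => Subtype.ext (h_faithful x x.2 hx)
      complete := by
        intro x hx hc
        obtain ⟨y, hy, hy1, hy2⟩ := h_complete (fun k => (x k : H →L[ℂ] H))
          (fun k => ⟨(x k).2, hx k⟩) hc
        exact ⟨⟨y, hy⟩, hy1, hy2⟩ }
  let φ' : ContinuousMultilinearMap ℂ (fun _ : Fin (n + 1) => A) N :=
    { toFun := fun a => ⟨φ a, hval a⟩
      map_update_add' := fun a i x y => Subtype.ext (φ.map_update_add a i x y)
      map_update_smul' := fun a i c x => Subtype.ext (φ.map_update_smul a i c x)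
      cont := Continuous.subtype_mk φ.cont _ }
  have hφ' : ∀ a : Fin (n + 2) → A,
      π (a 0) * φ' (Fin.tail a)
        + ∑ i : Fin (n + 1), (-1 : ℂ) ^ (i.val + 1) •
            φ' (fun j : Fin (n + 1) =>
              if j < i then a j.castSucc
              else if j = i then a j.castSucc * a j.succ
              else a j.succ)
        + (-1 : ℂ) ^ (n + 2) • (φ' (Fin.init a) * π (a (Fin.last (n + 1)))) = 0 := by
    intro a
    apply Subtype.ext
    have h := hφ a
    push_cast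
    exact h
  obtain ⟨ψ, hψ⟩ := transfer_c π n
    (fun T hT hc => sumC_exact π n T hT hc (main_sum_c π hτ' n T hT hc)) φ' hφ'
  let ψ' : ContinuousMultilinearMap ℂ (fun _ : Fin n => A) (H →L[ℂ] H) :=
    { toFun := fun a => (ψ a : H →L[ℂ] H)
      map_update_add' := fun a i x y => congrArg Subtype.val (ψ.map_update_add a i x y)
      map_update_smul' := fun a i c x => congrArg Subtype.val (ψ.map_update_smul a i c x)
      cont := continuous_subtype_val.comp ψ.cont }
  refine ⟨ψ', fun a => (ψ a).2, fun a => ?_⟩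
  have h := congrArg Subtype.val (hψ a)
  push_cast at h
  exact h


end H730HC
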